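import Pool.Agent.P.MP_de05b4_pr.Basic2

/-! Positivity of the probability of the trap shape and of a good site. -/

namespace DRW

open MeasureTheory ProbabilityTheory Finset
open scoped ENNReal

theorem Good_gamma {a p q : ℝ} (ha : 0 < a) (hp : 0 < p) (hpq : p < q) :
    0 < gammaMeasure a 1 (Set.Ioo p q) := by
  rw [gammaMeasure, withDensity_apply _ measurableSet_Ioo, pos_iff_ne_zero]
  intro h
  have hm : Measurable (gammaPDF a 1) := (measurable_gammaPDFReal a 1).ennreal_ofReal
  rw [lintegral_eq_zero_iff hm] at h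
  have h2 : ∀ᵐ x ∂(volume.restrict (Set.Ioo p q)), False := by
    filter_upwards [h, ae_restrict_mem measurableSet_Ioo] with x hx hx'
    have := gammaPDFReal_pos ha one_pos (hp.trans hx'.1)
    simp only [gammaPDF, Pi.zero_apply, ENNReal.ofReal_eq_zero] at hx
    linarith
  rw [Filter.eventually_false_iff_eq_bot, ae_eq_bot, Measure.restrict_eq_zero,
    Real.volume_Ioo, ENNReal.ofReal_eq_zero] at h2
  linarith

theorem Good_site {α : Fin 4 → ℝ} (hα : ∀ i, 0 < α i) {V : Set (Fin 4 → ℝ)}
    (hV : MeasurableSet V) (p q : Fin 4 → ℝ) (hp : ∀ i, 0 < p i) (hpq : ∀ i, p i < q i)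
    (h : ∀ g : Fin 4 → ℝ, (∀ i, p i < g i ∧ g i < q i) → nrm g ∈ V) : 0 < dirichlet α V := by
  rw [dirichlet_eq, Measure.map_apply measurable_nrm hV]
  have hsub : Set.univ.pi (fun i => Set.Ioo (p i) (q i)) ⊆ nrm ⁻¹' V :=
    fun g hg => h g fun i => hg i (Set.mem_univ i)
  refine lt_of_lt_of_le ?_ (measure_mono hsub)
  haveI : ∀ i, IsProbabilityMeasure (gammaMeasure (α i) 1) :=
    fun i => isProbabilityMeasure_gammaMeasure (hα i) one_pos
  rw [gam, Measure.pi_pi, pos_iff_ne_zero]
  exact prod_ne_zero_iff.2 fun i _ => (Good_gamma (hα i) (hp i) (hpq i)).ne'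

/-- the shape of a trap site pointing in the direction `j` -/
def Good_A (j : Fin 4) : Set (Fin 4 → ℝ) :=
  {v | ∀ i, i ≠ j → 1 / 100 * v j ≤ v i ∧ v i < 2 * 1 / 100 * v j}

/-- the shape of a spread site -/
def Good_B : Set (Fin 4 → ℝ) := {v | ∀ i, v i ≤ 1 / 2}

theorem Good_mA (j : Fin 4) : MeasurableSet (Good_A j) := by
  unfold Good_A
  simp only [Set.setOf_forall, Set.setOf_and]
  refine MeasurableSet.iInter fun i => MeasurableSet.iInter fun _ => MeasurableSet.inter ?_ ?_
  · exact measurableSet_le (by fun_prop) (by fun_prop)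
  · exact measurableSet_lt (by fun_prop) (by fun_prop)

theorem Good_mB : MeasurableSet Good_B := by
  unfold Good_B
  simp only [Set.setOf_forall]
  exact MeasurableSet.iInter fun i => measurableSet_le (by fun_prop) (by fun_prop)

theorem Good_pA {α : Fin 4 → ℝ} (hα : ∀ i, 0 < α i) (j : Fin 4) :
    0 < dirichlet α (Good_A j) := by
  refine Good_site hα (Good_mA j) (fun i => if i = j then 1 else 11 / 1000)
    (fun i => if i = j then 11 / 10 else 2 / 100) (fun i => ?_) (fun i => ?_) ?_
  · split_ifs <;> norm_num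
  · split_ifs <;> norm_num
  · intro g hg i hi
    have hpos : ∀ k, 0 < g k := fun k => by
      have := (hg k).1
      split_ifs at this <;> linarith
    have hS : 0 < ∑ k, g k := sum_pos (fun k _ => hpos k) univ_nonempty
    have h1 := hg i
    have h2 := hg j
    simp only [if_neg hi, if_true] at h1 h2
    simp only [nrm]
    constructor
    · rw [← mul_div_assoc]
      exact div_le_div_of_nonneg_right (by linarith [h1.1, h2.2]) hS.le
    · rw [← mul_div_assoc]
      exact div_lt_div_of_pos_right (by linarith [h1.2, h2.1]) hS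

theorem Good_pB {α : Fin 4 → ℝ} (hα : ∀ i, 0 < α i) : 0 < dirichlet α Good_B := by
  refine Good_site hα Good_mB (fun _ => 1) (fun _ => 2) (fun _ => one_pos)
    (fun _ => one_lt_two) ?_
  intro g hg i
  have h0 := hg 0
  have h1 := hg 1
  have h2 := hg 2
  have h3 := hg 3
  have hi := hg i
  simp only [nrm, Fin.sum_univ_four]
  rw [div_le_iff₀ (by linarith [h0.1, h1.1, h2.1, h3.1])]
  linarith [h0.1, h1.1, h2.1, h3.1, hi.2]

theorem Good_cyl {α : Fin 4 → ℝ} (hα : ∀ i, 0 < α i) (s : Finset (ℤ × ℤ))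
    (t : ℤ × ℤ → Set (Fin 4 → ℝ)) (hm : ∀ x, MeasurableSet (t x))
    (hp : ∀ x, 0 < dirichlet α (t x)) : 0 < law α (Set.pi s t) := by
  haveI := prob_dirichlet hα
  rw [law, Measure.infinitePi_pi _ fun x _ => hm x, pos_iff_ne_zero]
  exact prod_ne_zero_iff.2 fun x _ => (hp x).ne'

theorem pf_Good (hI : StIndZ) : StGood := by
  intro α hα
  have _ := hI
  constructor
  · let t : ℤ × ℤ → Set (Fin 4 → ℝ) := fun x =>
      if x = (0, 0) then Good_A 0 else if x = (1, 0) then Good_A 2 else Good_B
    have hm : ∀ x, MeasurableSet (t x) := fun x => by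
      simp only [t]
      split_ifs
      exacts [Good_mA 0, Good_mA 2, Good_mB]
    have hp : ∀ x, 0 < dirichlet α (t x) := fun x => by
      simp only [t]
      split_ifs
      exacts [Good_pA hα 0, Good_pA hα 2, Good_pB hα]
    refine lt_of_lt_of_le (Good_cyl hα (KK ∪ NK) t hm hp) (measure_mono fun ω hω => ?_)
    have h0 := hω (0, 0) (by decide)
    have h1 := hω (1, 0) (by decide)
    have e0 : t (0, 0) = Good_A 0 := if_pos rfl
    have e1 : t (1, 0) = Good_A 2 := by
      simp only [t]
      rw [if_neg (by decide), if_true]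
    rw [e0] at h0
    rw [e1] at h1
    refine ⟨h0, h1, fun x hx => ?_⟩
    have hx' := hω x (by simp only [coe_union, Set.mem_union, mem_coe]; exact Or.inr hx)
    have hne : x ≠ (0, 0) ∧ x ≠ (1, 0) := by
      constructor <;> rintro rfl <;> revert hx <;> decide
    simp only [t] at hx'
    rw [if_neg hne.1, if_neg hne.2] at hx'
    exact hx'
  · refine lt_of_lt_of_le (Good_cyl hα {0} (fun _ => Good_B) (fun _ => Good_mB)
      fun _ => Good_pB hα) (measure_mono fun ω hω => ?_)
    have h : ω 0 ∈ Good_B := hω 0 (by simp)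
    exact if_pos h

end DRW
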