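import Pool.Agent.P.MP_de05b4_pr.Basic2
import Pool.Agent.P.MP_de05b4_pr.R.Gt0

/-! The escape bound with `k` sinks, weighted by the square of a straight path probability. -/

namespace DRW

open MeasureTheory ProbabilityTheory Finset Filter
open scoped ENNReal Topology

theorem Gt02_one (hO : StOm) {N : ℕ} [NeZero N] {β : E N → ℝ} (hβ : Pos β) (e : E N)
    {Φ : (E N → ℝ) → ℝ≥0∞} (hΦ : Measurable Φ) (hS : ScaleInv e.1 Φ) :
    ∫⁻ G, ENNReal.ofReal (om G e) * Φ G ∂mu β ≤ ∫⁻ G, Φ G ∂mu (bump β e) := by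
  rw [hO N β hβ e Φ hΦ hS]
  have h1 : ENNReal.ofReal (β e / Zs β e.1) ≤ 1 := ENNReal.ofReal_le_one.2 (om_le_one hβ e)
  exact mul_le_of_le_one_left' h1

theorem Gt02_scale {N : ℕ} {y : T N} (e : E N) {Φ : (E N → ℝ) → ℝ≥0∞} (hS : ScaleInv y Φ) :
    ScaleInv y fun G => ENNReal.ofReal (om G e) * Φ G := by
  intro c hc G hG
  simp only [om_scl y hc, hS c hc G hG]

theorem Gt02_prod (hO : StOm) {N : ℕ} [NeZero N] {β : E N → ℝ} (hβ : Pos β) (p : ℕ → E N)
    (R : ℕ) : ∀ Φ : (E N → ℝ) → ℝ≥0∞, Measurable Φ → (∀ y, ScaleInv y Φ) →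
    ∫⁻ G, ENNReal.ofReal ((∏ k ∈ range R, om G (p k)) ^ 2) * Φ G ∂mu β ≤
      ∫⁻ G, Φ G ∂mu fun e => β e + 2 * ∑ k ∈ range R, if e = p k then (1 : ℝ) else 0 := by
  induction R with
  | zero => intro Φ _ _; simp
  | succ R ih =>
    intro Φ hΦ hS
    set β' : E N → ℝ := fun e => β e + 2 * ∑ k ∈ range R, if e = p k then (1 : ℝ) else 0
      with hβ'def
    have hβ' : Pos β' := fun e => by
      have h1 : (0 : ℝ) ≤ ∑ k ∈ range R, if e = p k then (1 : ℝ) else 0 :=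
        Finset.sum_nonneg fun k _ => by split_ifs <;> norm_num
      have h2 := hβ e
      simp only [hβ'def]
      linarith
    have hm1 : Measurable fun G : E N → ℝ => ENNReal.ofReal (om G (p R)) * Φ G :=
      (measurable_om _).ennreal_ofReal.mul hΦ
    have hm2 : Measurable fun G : E N → ℝ =>
        ENNReal.ofReal (om G (p R)) * (ENNReal.ofReal (om G (p R)) * Φ G) :=
      (measurable_om _).ennreal_ofReal.mul hm1
    have h1 := ih _ hm2 fun y => Gt02_scale (p R) (Gt02_scale (p R) (hS y))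
    have h2 := Gt02_one hO hβ' (p R) hm1 (Gt02_scale (p R) (hS _))
    have h3 := Gt02_one hO (pos_bump hβ' (p R)) (p R) hΦ (hS _)
    have e1 : bump (bump β' (p R)) (p R) =
        fun e => β e + 2 * ∑ k ∈ range (R + 1), if e = p k then (1 : ℝ) else 0 := by
      funext e
      simp only [bump, hβ'def, Finset.sum_range_succ]
      ring
    rw [e1] at h3
    refine le_trans (le_of_eq (lintegral_congr_ae ?_)) (h1.trans (h2.trans h3))
    filter_upwards [ae_pos hβ] with G hG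
    rw [Finset.prod_range_succ, mul_pow, ENNReal.ofReal_mul (sq_nonneg _), sq (om G (p R)),
      ENNReal.ofReal_mul (om_pos hG _).le, mul_assoc, mul_assoc]

theorem pf_Boost2 (hO : StOm) : StBoost2 := by
  intro N _ β hβ R x i Φ hΦ hS
  exact Gt02_prod hO hβ (pe x i) R Φ hΦ hS

theorem Gt02_pathI_nonneg {N : ℕ} (R : ℕ) (x : T N) (i : Fin 4) (e : E N) : 0 ≤ pathI R x i e :=
  Finset.sum_nonneg fun k _ => by split_ifs <;> norm_num

theorem pf_Gt02 (hA : StGtA2) (hB : StGtB) (hO : StBoost2) (hH : StHold) : StGt02 := by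
  intro α hα
  obtain ⟨η, ρ, σ, R, k, CA, hη, hρ, hσ, hk, hA'⟩ := hA α hα
  obtain ⟨CH, hCH, hH'⟩ := hH η hη
  set τ : ℝ := min (min 1 (ρ / 2)) ((σ - 2) / 4) with hτdef
  have hτ : 0 < τ := lt_min (lt_min one_pos (by linarith)) (by linarith)
  have hτ1 : τ ≤ 1 := (min_le_left _ _).trans (min_le_left _ _)
  have hτρ : τ ≤ ρ / 2 := (min_le_left _ _).trans (min_le_right _ _)
  have hτ2 : τ ≤ (σ - 2) / 4 := min_le_right _ _
  refine ⟨σ / (1 + τ), R, k, ?_, hk, fun c₁ hc hc1 => ?_⟩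
  · rw [lt_div_iff₀ (by linarith)]; linarith
  set Bc : ℝ := ((2 : ℝ) ^ ((∑ j, α j) + 4 * CA / τ) * c₁ ^ (-(σ / τ))) ^ (τ / (1 + τ)) with hBc
  have hBc0 : 0 ≤ Bc := by positivity
  set P : ℝ := CH * (CA / τ ^ 2) with hP
  set C : ℕ := ⌈max Bc P⌉₊ with hC
  have hC1 : Bc ≤ C := (le_max_left _ _).trans (Nat.le_ceil _)
  have hC2 : P ≤ C := (le_max_right _ _).trans (Nat.le_ceil _)
  refine ⟨C, CA, fun N _ K m hK hm hN x hx i a b hab hinj lam hl hl1 => ?_⟩
  have hm1 : (1 : ℝ) ≤ m := by exact_mod_cast (by omega : 1 ≤ m)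
  have hm0 : (0 : ℝ) < m := by linarith
  have hk0 : (0 : ℝ) < k := by exact_mod_cast hk
  obtain ⟨θ, hθ1, hθ2, hθ3, hEn, hdv⟩ := hA' N m hm hN x i a b hab hinj
  set z : Fin k → T N := fun l => x + cz N (a l) (b l) with hz
  set D : Set (E N → ℝ) := {G | esc 0 K x G ≤ lam ∧ ∀ l, c₁ ≤ 1 - gx 0 K x G (z l)} with hD
  have hDm : MeasurableSet D := Gt0_meas K x z c₁ lam
  have hI := Gt02_pathI_nonneg R x i
  set b0 : E N → ℝ := fun e => al N α e + 2 * pathI R x i e with hb0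
  set θ' : E N → ℝ := fun e => τ⁻¹ * θ e - 2 * pathI R x i e with hθ'
  have hτθ : ∀ e, τ * θ' e = θ e - 2 * τ * pathI R x i e := fun e => by
    simp only [hθ']; field_simp
  have hθ0 : ∀ e, 0 ≤ θ e := fun e => (mul_nonneg hρ.le (hI e)).trans (hθ1 e)
  have hθ'0 : ∀ e, 0 ≤ θ' e := fun e => by
    refine nonneg_of_mul_nonneg_right ?_ hτ
    rw [hτθ]
    have h1 := hθ1 e
    have h2 : 2 * τ * pathI R x i e ≤ ρ * pathI R x i e :=
      mul_le_mul_of_nonneg_right (by linarith) (hI e)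
    linarith
  have h0 : Ex (al N α) (fun G => if esc 0 K x G ≤ lam ∧
      ∀ l, c₁ ≤ 1 - gx 0 K x G (x + cz N (a l) (b l)) then pathP R x i G ^ 2 else 0) =
      ∫⁻ G, ENNReal.ofReal (pathP R x i G ^ 2) * D.indicator 1 G ∂mu (al N α) := by
    refine lintegral_congr fun G => ?_
    by_cases hG : G ∈ D
    · have hG' : esc 0 K x G ≤ lam ∧
          ∀ l, c₁ ≤ 1 - gx 0 K x G (x + cz N (a l) (b l)) := hG
      simp only [Set.indicator_of_mem hG, if_pos hG', Pi.one_apply, mul_one]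
    · have hG' : ¬(esc 0 K x G ≤ lam ∧
          ∀ l, c₁ ≤ 1 - gx 0 K x G (x + cz N (a l) (b l))) := hG
      simp only [Set.indicator_of_notMem hG, if_neg hG', ENNReal.ofReal_zero, mul_zero]
  have h1 := hO N (al N α) (pos_al hα) R x i (D.indicator 1) (measurable_one.indicator hDm)
    fun y => Gt0_scale K x y z c₁ lam
  rw [lintegral_indicator_one hDm] at h1
  have h2 := hH' N b0 θ' τ hτ hτ1 hθ'0 (fun e => by
    have h3 := hθ2 e
    have h4 : 0 ≤ 2 * τ * pathI R x i e := mul_nonneg (by linarith) (hI e)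
    rw [hτθ]
    simp only [hb0, al]
    linarith) D hDm
  have hsum : b0 + θ' = al N α + fun e => τ⁻¹ * θ e := by
    funext e
    simp only [hb0, hθ', Pi.add_apply]
    ring
  have hpos : Pos (b0 + θ') := fun e => by
    have h3 := hα e.2
    have h4 := hI e
    have h5 := hθ'0 e
    simp only [Pi.add_apply, hb0, al]
    linarith
  have hdv' : ∀ y, dv (b0 + θ') y ≤ (∑ l, σ / (k * τ) * ind {z l} y) - σ / τ * ind {x} y :=
    fun y => by
    have e2 : (∑ l, σ / (k * τ) * ind {z l} y) = τ⁻¹ * ∑ l, σ / k * ind {z l} y := by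
      rw [Finset.mul_sum]
      refine Finset.sum_congr rfl fun l _ => ?_
      field_simp
    rw [hsum, dv_add, dv_al, dv_mul, hdv, e2]
    refine le_of_eq ?_
    simp only [div_eq_mul_inv]
    ring
  have h3 := hB N K hK x hx (b0 + θ') hpos k z (σ / (k * τ)) (σ / τ) c₁ lam
    (by have : 0 < σ := by linarith
        positivity) hc hc1 hl hl1 hdv'
  have hr0 : 0 < τ / (1 + τ) := by positivity
  have hZ : Zs (b0 + θ') x ≤ (∑ j, α j) + 4 * CA / τ := by
    have e1 : Zs (b0 + θ') x = (∑ j, α j) + τ⁻¹ * ∑ j, θ (x, j) := by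
      rw [hsum]
      simp only [Zs, Pi.add_apply, al, Finset.sum_add_distrib, Finset.mul_sum]
    have e2 : ∑ j, θ (x, j) ≤ 4 * CA := by
      rw [Fin.sum_univ_four]
      linarith [hθ3 (x, 0), hθ3 (x, 1), hθ3 (x, 2), hθ3 (x, 3)]
    have e3 : τ⁻¹ * ∑ j, θ (x, j) ≤ 4 * CA / τ := by
      rw [div_eq_inv_mul]; exact mul_le_mul_of_nonneg_left e2 (inv_nonneg.mpr hτ.le)
    rw [e1]; linarith
  have hgk : σ / (k * τ) * k = σ / τ := by field_simp
  have hγ : σ / τ * (τ / (1 + τ)) = σ / (1 + τ) := by field_simp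
  have hB1 : (2 : ℝ) ^ Zs (b0 + θ') x * c₁ ^ (-(σ / (k * τ) * k)) * lam ^ (σ / τ) ≤
      ((2 : ℝ) ^ ((∑ j, α j) + 4 * CA / τ) * c₁ ^ (-(σ / τ))) * lam ^ (σ / τ) := by
    rw [hgk]
    have := Real.rpow_le_rpow_of_exponent_le (by norm_num : (1 : ℝ) ≤ 2) hZ
    gcongr
  have h4 : mu (b0 + θ') D ^ (τ / (1 + τ)) ≤ ENNReal.ofReal (Bc * lam ^ (σ / (1 + τ))) := by
    refine le_trans (ENNReal.rpow_le_rpow (h3.trans (ENNReal.ofReal_le_ofReal hB1)) hr0.le) ?_
    rw [ENNReal.ofReal_rpow_of_nonneg (by positivity) hr0.le]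
    refine ENNReal.ofReal_le_ofReal (le_of_eq ?_)
    rw [Real.mul_rpow (by positivity) (by positivity), ← Real.rpow_mul hl.le, hγ]
  have h5 : Real.exp (CH * ∑ e, θ' e ^ 2) ≤ (m : ℝ) ^ C := by
    have e1 : ∑ e, θ' e ^ 2 ≤ (∑ e, θ e ^ 2) / τ ^ 2 := by
      rw [Finset.sum_div]
      refine Finset.sum_le_sum fun e _ => ?_
      have e2 : θ e ^ 2 / τ ^ 2 = (τ⁻¹ * θ e) ^ 2 := by field_simp
      rw [e2]
      refine pow_le_pow_left₀ (hθ'0 e) ?_ 2
      have := hI e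
      simp only [hθ']
      linarith
    have e3 : ∑ e, θ' e ^ 2 ≤ CA * Real.log m / τ ^ 2 :=
      e1.trans (div_le_div_of_nonneg_right hEn (by positivity))
    refine (Real.exp_le_exp.mpr (mul_le_mul_of_nonneg_left e3 hCH)).trans ?_
    have e4 : CH * (CA * Real.log m / τ ^ 2) = Real.log m * P := by rw [hP]; ring
    rw [e4, ← Real.rpow_def_of_pos hm0, ← Real.rpow_natCast]
    exact Real.rpow_le_rpow_of_exponent_le hm1 hC2
  rw [h0]
  refine h1.trans (h2.trans ((mul_le_mul' (ENNReal.ofReal_le_ofReal h5) h4).trans ?_))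
  rw [← ENNReal.ofReal_mul (by positivity)]
  refine ENNReal.ofReal_le_ofReal ?_
  have e : (m : ℝ) ^ C * (Bc * lam ^ (σ / (1 + τ))) = Bc * (m : ℝ) ^ C * lam ^ (σ / (1 + τ)) := by
    ring
  rw [e]
  gcongr

end DRW
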