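import Pool.Agent.P.MP_de05b4_pr.Basic2
import Pool.Agent.P.MP_de05b4_pr.R.Gt1

/-! The tail of the escape probability, weighted with the square of a path probability. -/

namespace DRW

open MeasureTheory ProbabilityTheory Finset Filter
open scoped ENNReal Topology

theorem Gt12_union {N : ℕ} [NeZero N] {β : E N → ℝ} (hβ : Pos β) {ι : Type} [Fintype ι]
    {w : (E N → ℝ) → ℝ} (hw : Measurable w) (h1 : ∀ G, Pos G → w G ≤ 1)
    (P : (E N → ℝ) → Prop) [DecidablePred P] (B : Set (E N → ℝ))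
    (D : ι → (E N → ℝ) → Prop) [∀ j, DecidablePred (D j)]
    (hD : ∀ j, MeasurableSet {G | D j G})
    (h : ∀ G, Pos G → P G → G ∈ B ∨ ∃ j, D j G) :
    Ex β (fun G => if P G then w G else 0) ≤
      mu β B + ∑ j, Ex β (fun G => if D j G then w G else 0) := by
  have hm : ∀ j, Measurable fun G => ENNReal.ofReal (if D j G then w G else 0) := fun j =>
    (Measurable.ite (hD j) hw measurable_const).ennreal_ofReal
  have hB : MeasurableSet (toMeasurable (mu β) B) := measurableSet_toMeasurable _ _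
  unfold Ex
  rw [← lintegral_finsetSum _ fun j _ => hm j, ← measure_toMeasurable B,
    ← lintegral_indicator_one hB, ← lintegral_add_left (measurable_one.indicator hB)]
  refine lintegral_mono_ae ((ae_pos hβ).mono fun G hG => ?_)
  beta_reduce
  by_cases hP : P G
  · rw [if_pos hP]
    rcases h G hG hP with hb | ⟨j, hj⟩
    · refine le_trans ?_ le_self_add
      rw [Set.indicator_of_mem (subset_toMeasurable _ _ hb), Pi.one_apply]
      exact ENNReal.ofReal_le_one.2 (h1 G hG)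
    · refine le_trans ?_ le_add_self
      refine le_trans ?_ (Finset.single_le_sum
        (f := fun j => ENNReal.ofReal (if D j G then w G else 0)) (fun _ _ => zero_le)
        (Finset.mem_univ j))
      simp only [if_pos hj, le_refl]
  · rw [if_neg hP, ENNReal.ofReal_zero]
    exact zero_le

theorem Gt12_sq_le {N : ℕ} {G : E N → ℝ} (hG : Pos G) (R : ℕ) (x : T N) (i : Fin 4) :
    pathP R x i G ^ 2 ≤ 1 := pow_le_one₀ (pathP_pos hG R x i).le (pathP_le_one hG R x i)

theorem pf_Gt12 (h0 : StGt02) (hS : StSink) : StGt12 := by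
  intro α hα
  obtain ⟨s, R, k, hs, hk, h0⟩ := h0 α hα.1
  obtain ⟨c₁, hc0, hc1, hS⟩ := hS α hα
  obtain ⟨C, C₀, h0⟩ := h0 c₁ hc0 hc1
  refine ⟨s, R, hs, C + k, fun M => ?_⟩
  obtain ⟨Cs, Cs₀, hCs, hS⟩ := hS M
  refine ⟨k * Cs + C * ((k : ℝ) + 2) ^ C + 1, Cs₀ + (k + 2) * C₀ + k + 2, k + 2,
    by positivity, ?_⟩
  intro N _ K m hK hN hm x hx i lam hl0 hl1
  have hβ : Pos (al N α) := pos_al hα.1
  have hx' := mem_Wd.1 hx
  have hN1 : Cs₀ * K ≤ N := le_trans (Nat.mul_le_mul_right _ (by omega)) hN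
  have hN2 : (k + 2) * C₀ * K ≤ N := le_trans (Nat.mul_le_mul_right _ (by omega)) hN
  have hN3 : (k + 2) * K ≤ N := le_trans (Nat.mul_le_mul_right _ (by omega)) hN
  have hKN : K < N := by nlinarith
  have hm0 : (1 : ℝ) ≤ m := by exact_mod_cast hm
  have hls : 0 < lam ^ s := Real.rpow_pos_of_pos hl0 s
  have hA : (0 : ℝ) ≤ ((m : ℝ) ^ M)⁻¹ := by positivity
  have hB : (0 : ℝ) ≤ (m : ℝ) ^ (C + k) * lam ^ s := by positivity
  have hfin : k * (Cs * ((m : ℝ) ^ M)⁻¹) +
      (m : ℝ) ^ k * (C * (((k + 2) * m : ℕ) : ℝ) ^ C * lam ^ s) ≤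
      (k * Cs + C * ((k : ℝ) + 2) ^ C + 1) *
        (((m : ℝ) ^ M)⁻¹ + (m : ℝ) ^ (C + k) * lam ^ s) := by
    have e1 : (m : ℝ) ^ k * (C * (((k + 2) * m : ℕ) : ℝ) ^ C * lam ^ s) =
        C * ((k : ℝ) + 2) ^ C * ((m : ℝ) ^ (C + k) * lam ^ s) := by
      push_cast
      rw [mul_pow, pow_add]
      ring
    have h1 : (0 : ℝ) ≤ k * Cs := by positivity
    have h2 : (0 : ℝ) ≤ C * ((k : ℝ) + 2) ^ C := by positivity
    rw [e1]
    nlinarith [mul_nonneg h1 hB, mul_nonneg h2 hA]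
  refine le_trans ?_ (ENNReal.ofReal_le_ofReal hfin)
  rcases le_or_gt (col x + 2 * m) K with hc | hc
  · have hmK : m ≤ K := by omega
    have hkm : (k + 2) * m ≤ N := le_trans (Nat.mul_le_mul_left _ hmK) hN3
    set B : Fin k → Set (E N → ℝ) := fun l =>
      {G | ∀ y ∈ Win N (col x + m - 1) (x.2 + ((l * m : ℕ) : ZMod N)) m,
        uu (col x + m - 1) K G (y + dr N 0) < c₁} with hBdef
    have hsub : Ex (al N α) (fun G => if esc 0 K x G ≤ lam then pathP R x i G ^ 2 else 0) ≤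
        mu (al N α) (⋃ l, B l) + ∑ j : Fin k → Fin m, Ex (al N α) (fun G =>
          if esc 0 K x G ≤ lam ∧ ∀ l : Fin k, c₁ ≤ 1 - gx 0 K x G
            (x + cz N ((m : ℕ) : ℤ) (((l * m + j l : ℕ) : ℕ) : ℤ))
          then pathP R x i G ^ 2 else 0) := by
      refine Gt12_union hβ ((measurable_pathP R x i).pow_const 2)
        (fun G hG => Gt12_sq_le hG R x i) (fun G => esc 0 K x G ≤ lam) _
        (fun (j : Fin k → Fin m) G => esc 0 K x G ≤ lam ∧ ∀ l : Fin k, c₁ ≤ 1 - gx 0 K x G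
            (x + cz N ((m : ℕ) : ℤ) (((l * m + j l : ℕ) : ℕ) : ℤ))) (fun j => ?_)
        fun G hG hE => ?_
      · rw [Set.ofPred_and, Set.ofPred_forall]
        exact (measurableSet_le (measurable_esc 0 K x) measurable_const).inter
          (MeasurableSet.iInter fun l => measurableSet_le measurable_const
            (measurable_const.sub (measurable_gx 0 K x _)))
      by_cases hb : ∃ l, G ∈ B l
      · exact Or.inl (Set.mem_iUnion.2 hb)
      · refine Or.inr ?_
        have hb' : ∀ l : Fin k, ∃ j : Fin m, c₁ ≤ 1 - gx 0 K x G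
            (x + cz N ((m : ℕ) : ℤ) (((l * m + j : ℕ) : ℕ) : ℤ)) := by
          intro l
          have h1 : G ∉ B l := fun h => hb ⟨l, h⟩
          simp only [hBdef, Set.mem_ofPred_eq, not_forall, not_lt] at h1
          obtain ⟨y, hy, hcy⟩ := h1
          rw [mem_Win] at hy
          refine ⟨⟨_, hy.2⟩, ?_⟩
          have hcol : col (y + dr N 0) = col y + 1 := col_add0 (by omega)
          have h2 := Gt1_uu_le hG (s := col x + m - 1) (by omega) hKN hx (by omega)
            (z := y + dr N 0) (by omega) (by omega)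
          rw [← Gt1_win hm hy.1]
          exact hcy.trans h2
        choose j hj using hb'
        exact ⟨j, hE, hj⟩
    have hBl : ∀ l, mu (al N α) (B l) ≤ ENNReal.ofReal (Cs * ((m : ℝ) ^ M)⁻¹) := fun l =>
      hS N _ K m _ hm (by omega) hN1
    have hDj : ∀ j : Fin k → Fin m, Ex (al N α) (fun G =>
          if esc 0 K x G ≤ lam ∧ ∀ l : Fin k, c₁ ≤ 1 - gx 0 K x G
            (x + cz N ((m : ℕ) : ℤ) (((l * m + j l : ℕ) : ℕ) : ℤ))
          then pathP R x i G ^ 2 else 0) ≤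
        ENNReal.ofReal (C * (((k + 2) * m : ℕ) : ℝ) ^ C * lam ^ s) := by
      intro j
      have hlt : ∀ l : Fin k, (l * m + j l : ℕ) < k * m := by
        intro l
        have h1 : (l : ℕ) + 1 ≤ k := l.2
        have h2 := (j l).2
        nlinarith [Nat.mul_le_mul_right m h1]
      refine h0 N K ((k + 2) * m) hKN (by nlinarith) ?_ x hx i (fun _ => ((m : ℕ) : ℤ))
        (fun l => (((l * m + j l : ℕ) : ℕ) : ℤ)) (fun l => ⟨?_, ?_⟩) ?_ lam hl0 hl1
      · calc C₀ * ((k + 2) * m) = (k + 2) * C₀ * m := by ring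
          _ ≤ (k + 2) * C₀ * K := Nat.mul_le_mul_left _ hmK
          _ ≤ N := hN2
      · rw [abs_of_nonneg (Int.natCast_nonneg _)]
        exact Int.ofNat_le.2 (by nlinarith)
      · rw [abs_of_nonneg (Int.natCast_nonneg _)]
        have := hlt l
        exact Int.ofNat_le.2 (by nlinarith)
      · refine Gt1_inj (fun l => l * m + j l) (fun l => ?_) fun l l' h => ?_
        · have := hlt l
          nlinarith
        · have h1 : ((l : ℕ) * m + j l) / m = ((l' : ℕ) * m + j l') / m := congrArg (· / m) h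
          rw [add_comm, add_comm ((l' : ℕ) * m), Nat.add_mul_div_right _ _ (by omega),
            Nat.add_mul_div_right _ _ (by omega), Nat.div_eq_of_lt (j l).2,
            Nat.div_eq_of_lt (j l').2] at h1
          exact Fin.ext (by omega)
    calc _ ≤ _ := hsub
      _ ≤ (∑ _l : Fin k, ENNReal.ofReal (Cs * ((m : ℝ) ^ M)⁻¹)) +
          ∑ _j : Fin k → Fin m, ENNReal.ofReal (C * (((k + 2) * m : ℕ) : ℝ) ^ C * lam ^ s) :=
        add_le_add ((measure_iUnion_fintype_le _ _).trans (Finset.sum_le_sum fun l _ => hBl l))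
          (Finset.sum_le_sum fun j _ => hDj j)
      _ = _ := by
        rw [ENNReal.ofReal_add (by positivity) (by positivity),
          ENNReal.ofReal_mul (p := (k : ℝ)) (by positivity),
          ENNReal.ofReal_mul (p := (m : ℝ) ^ k) (by positivity), ENNReal.ofReal_natCast,
          ENNReal.ofReal_pow (by positivity), ENNReal.ofReal_natCast]
        simp only [Finset.sum_const, Finset.card_univ, Fintype.card_fin, Fintype.card_fun,
          nsmul_eq_mul, Nat.cast_pow]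
  · have hm' : min K ((k + 2) * m) ≤ (k + 2) * m := min_le_right _ _
    have hm'' : min K ((k + 2) * m) ≤ K := min_le_left _ _
    have hkm : k + 2 ≤ (k + 2) * m := Nat.le_mul_of_pos_right _ hm
    have h2m : 2 * m ≤ (k + 2) * m := Nat.mul_le_mul_right _ (by omega)
    have h1 := h0 N K (min K ((k + 2) * m)) hKN (by omega)
      (le_trans (Nat.mul_le_mul (Nat.le_mul_of_pos_left _ (by omega)) hm'') hN2) x hx i
      (fun _ => ((K - col x : ℕ) : ℤ)) (fun l => ((l : ℕ) : ℤ)) (fun l => ⟨by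
        rw [abs_of_nonneg (Int.natCast_nonneg _)]
        exact Int.ofNat_le.2 (by omega), by
        rw [abs_of_nonneg (Int.natCast_nonneg _)]
        have := l.2
        exact Int.ofNat_le.2 (by omega)⟩)
      (Gt1_inj (fun l : Fin k => (l : ℕ)) (fun l => by have := l.2; omega) Fin.val_injective)
      lam hl0 hl1
    refine le_trans (le_trans (Ex_mono hβ fun G hG => ?_) h1) ?_
    · by_cases hE : esc 0 K x G ≤ lam
      · refine le_of_eq ((if_pos hE).trans (if_pos ⟨hE, fun l => ?_⟩).symm)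
        have hcol := col_add_cz x (K - col x) ((l : ℕ) : ℤ) (by omega)
        rw [gx_off hG hx (by rw [mem_Wd]; omega), sub_zero]
        exact hc1
      · rw [if_neg hE, if_neg fun h => hE h.1]
    · refine ENNReal.ofReal_le_ofReal ?_
      have h3 : ((min K ((k + 2) * m) : ℕ) : ℝ) ^ C ≤ (((k + 2) * m : ℕ) : ℝ) ^ C :=
        pow_le_pow_left₀ (Nat.cast_nonneg _) (Nat.cast_le.2 hm') C
      have h4 : (1 : ℝ) ≤ (m : ℝ) ^ k := one_le_pow₀ hm0
      have h5 : (C : ℝ) * ((min K ((k + 2) * m) : ℕ) : ℝ) ^ C * lam ^ s ≤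
          C * (((k + 2) * m : ℕ) : ℝ) ^ C * lam ^ s := by gcongr
      have h6 : (0 : ℝ) ≤ C * (((k + 2) * m : ℕ) : ℝ) ^ C * lam ^ s := by positivity
      have h7 : (0 : ℝ) ≤ k * (Cs * ((m : ℝ) ^ M)⁻¹) := by positivity
      nlinarith [mul_le_mul_of_nonneg_right h4 h6]

theorem pf_Gt2 (h1 : StGt12) : StGt2 := by
  intro α hα
  obtain ⟨s, R, hs, C, h1⟩ := h1 α hα
  set b : ℝ := (s - 2) / (2 * ((C : ℝ) + 1)) with hb
  have hC : (0 : ℝ) ≤ C := Nat.cast_nonneg C
  have hb0 : 0 < b := div_pos (by linarith) (by positivity)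
  have hbC : b * C ≤ (s - 2) / 2 := by
    rw [hb, div_mul_eq_mul_div, div_le_div_iff₀ (by positivity) (by positivity)]
    nlinarith
  obtain ⟨C', C₀, K₀, hC', h1⟩ := h1 ⌈(2 + s) / 2 / b⌉₊
  refine ⟨(2 + s) / 2, C' * (1 + 2 ^ C) + 1, R, C₀, K₀, by linarith, by positivity, ?_⟩
  intro N _ K hK hN x hx i lam hl0
  have hls : 0 < lam ^ ((2 + s) / 2) := Real.rpow_pos_of_pos hl0 _
  have hpos : 0 < C' * (1 + 2 ^ C) := by positivity
  rcases le_total lam 1 with hl1 | hl1
  · have hu1 : 1 ≤ lam ^ (-b) := Real.one_le_rpow_of_pos_of_le_one_of_nonpos hl0 hl1 (by linarith)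
    have hm1 : lam ^ (-b) ≤ (⌈lam ^ (-b)⌉₊ : ℝ) := Nat.le_ceil _
    have hm2 : (⌈lam ^ (-b)⌉₊ : ℝ) ≤ 2 * lam ^ (-b) := by
      have := Nat.ceil_lt_add_one (le_trans zero_le_one hu1)
      linarith
    have hm : 1 ≤ ⌈lam ^ (-b)⌉₊ := by
      have : (1 : ℝ) ≤ (⌈lam ^ (-b)⌉₊ : ℝ) := hu1.trans hm1
      exact_mod_cast this
    refine (h1 N K _ hK hN hm x hx i lam hl0 hl1).trans (ENNReal.ofReal_le_ofReal ?_)
    set m : ℝ := (⌈lam ^ (-b)⌉₊ : ℝ)
    set M : ℕ := ⌈(2 + s) / 2 / b⌉₊ with hM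
    have hbM : (2 + s) / 2 ≤ b * M := by
      have h2 : (2 + s) / 2 / b ≤ M := Nat.le_ceil _
      rw [div_le_iff₀ hb0] at h2
      linarith
    have e1 : (m ^ M)⁻¹ ≤ lam ^ ((2 + s) / 2) := by
      have h2 : (lam ^ (-b)) ^ M ≤ m ^ M := pow_le_pow_left₀ (by linarith) hm1 M
      have h3 : (m ^ M)⁻¹ ≤ ((lam ^ (-b)) ^ M)⁻¹ := inv_anti₀ (by positivity) h2
      refine h3.trans ?_
      rw [← Real.rpow_natCast, ← Real.rpow_mul hl0.le, ← Real.rpow_neg hl0.le]
      exact Real.rpow_le_rpow_of_exponent_ge hl0 hl1 (by linarith)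
    have e2 : m ^ C * lam ^ s ≤ 2 ^ C * lam ^ ((2 + s) / 2) := by
      have h2 : m ^ C ≤ (2 * lam ^ (-b)) ^ C := pow_le_pow_left₀ (by linarith) hm2 C
      have h3 : (lam ^ (-b)) ^ C * lam ^ s ≤ lam ^ ((2 + s) / 2) := by
        rw [← Real.rpow_natCast, ← Real.rpow_mul hl0.le, ← Real.rpow_add hl0]
        exact Real.rpow_le_rpow_of_exponent_ge hl0 hl1 (by linarith)
      calc m ^ C * lam ^ s ≤ (2 * lam ^ (-b)) ^ C * lam ^ s :=
            mul_le_mul_of_nonneg_right h2 (Real.rpow_pos_of_pos hl0 s).le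
        _ = 2 ^ C * ((lam ^ (-b)) ^ C * lam ^ s) := by rw [mul_pow, mul_assoc]
        _ ≤ _ := mul_le_mul_of_nonneg_left h3 (by positivity)
    have e3 : (m ^ M)⁻¹ + m ^ C * lam ^ s ≤ (1 + 2 ^ C) * lam ^ ((2 + s) / 2) := by linarith
    nlinarith [mul_le_mul_of_nonneg_left e3 hC'.le]
  · have hβ : Pos (al N α) := pos_al hα.1
    refine (Ex_mono hβ (Y := fun _ => 1) fun G hG => ?_).trans ?_
    · split_ifs
      · exact Gt12_sq_le hG R x i
      · exact zero_le_one
    rw [Ex_const hβ]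
    refine ENNReal.ofReal_le_ofReal ?_
    have h2 : 1 ≤ lam ^ ((2 + s) / 2) := Real.one_le_rpow hl1 (by linarith)
    nlinarith

end DRW
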