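import Pool.Agent.P.MP_de05b4_pr.Basic2
import Pool.Agent.P.MP_de05b4_pr.R.GtA

/-! The combined flow along a straight path and then into several sinks. -/

namespace DRW

open Finset

theorem GtA2_cast {N : ℕ} {j j' : ℕ} (hj : j < N) (hj' : j' < N)
    (h : (j : ZMod N) = (j' : ZMod N)) : j = j' := by
  have := congrArg ZMod.val h
  rwa [ZMod.val_cast_of_lt hj, ZMod.val_cast_of_lt hj'] at this

theorem GtA2_smul (N j : ℕ) (i : Fin 4) :
    j • dr N i = cz N (j * (dir i).1) (j * (dir i).2) := by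
  fin_cases i <;> simp [dr, dir, cz]

theorem GtA2_pe {N : ℕ} {x : T N} {i : Fin 4} {j j' : ℕ} (h : pe x i j = pe x i j') :
    (j : ZMod N) = (j' : ZMod N) := by
  have h1 : j • dr N i = j' • dr N i := add_left_cancel (congrArg Prod.fst h)
  fin_cases i <;> simpa [dr] using h1

theorem GtA2_line {N : ℕ} {x : T N} {i : Fin 4} {j j' : ℕ} {e : E N}
    (h : Line (x + j • dr N i) (i + 1) e) (h' : Line (x + j' • dr N i) (i + 1) e) :
    (j : ZMod N) = (j' : ZMod N) := by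
  have h1 := h.2
  have h2 := h'.2
  fin_cases i <;> simp [dr] at h1 h2 <;>
    · rw [h1] at h2
      simpa using h2

theorem GtA2_pathI {N R : ℕ} (hR : R < N) (x : T N) (i : Fin 4) (e : E N) : pathI R x i e ≤ 1 := by
  unfold pathI
  rw [Finset.sum_boole]
  have : ((range R).filter fun k => e = pe x i k).card ≤ 1 := by
    refine Finset.card_le_one.2 fun l hl l' hl' => ?_
    obtain ⟨a1, a2⟩ := mem_filter.1 hl
    obtain ⟨b1, b2⟩ := mem_filter.1 hl'
    exact GtA2_cast ((mem_range.1 a1).trans hR) ((mem_range.1 b1).trans hR)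
      (GtA2_pe (a2.symm.trans b2))
  exact_mod_cast this

theorem GtA2_lines {N R : ℕ} (hR : R < N) (x : T N) (i : Fin 4) (e : E N) :
    (∑ j : Fin (R + 1), if Line (x + (j : ℕ) • dr N i) (i + 1) e then (1 : ℝ) else 0) ≤ 1 := by
  rw [Finset.sum_boole]
  have : (univ.filter fun j : Fin (R + 1) => Line (x + (j : ℕ) • dr N i) (i + 1) e).card ≤ 1 := by
    refine Finset.card_le_one.2 fun l hl l' hl' => Fin.ext ?_
    exact GtA2_cast (by omega) (by omega) (GtA2_line (mem_filter.1 hl).2 (mem_filter.1 hl').2)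
  exact_mod_cast this

theorem GtA2_tele (σ ρ : ℝ) (u : ℕ → ℝ) (n : ℕ) :
    (∑ j ∈ range n, (σ - (j + 1) * ρ) * (u (j + 1) - u j)) - ρ * ∑ j ∈ range (n + 1), u j =
      (σ - (n + 1) * ρ) * u n - σ * u 0 := by
  induction n with
  | zero => simp; ring
  | succ n ih =>
    rw [sum_range_succ, sum_range_succ _ (n + 1)]
    push_cast
    linear_combination ih

theorem GtA2_sumI {N : ℕ} [NeZero N] (R : ℕ) (x : T N) (i : Fin 4) :
    ∑ e, pathI R x i e = R := by
  unfold pathI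
  rw [sum_comm]
  simp

theorem pf_GtA2 (hF : StFlow) : StGtA2 := by
  intro α hα
  obtain ⟨j₀, -, hj₀⟩ := Finset.exists_min_image univ α univ_nonempty
  obtain ⟨μ, hμ⟩ : ∃ μ, μ = α j₀ := ⟨_, rfl⟩
  have hμ0 : 0 < μ := hμ ▸ hα j₀
  obtain ⟨σ, hσ⟩ : ∃ σ, σ = 2 + μ / 4 := ⟨_, rfl⟩
  have hσ0 : 0 < σ := by rw [hσ]; positivity
  obtain ⟨R, hR⟩ : ∃ R : ℕ, 4 * σ / μ ≤ R := ⟨_, Nat.le_ceil _⟩
  obtain ⟨k', hk'⟩ : ∃ k : ℕ, 8 * σ / μ ≤ k := ⟨_, Nat.le_ceil _⟩
  obtain ⟨k, hk⟩ : ∃ k : ℕ, k = k' + 1 := ⟨_, rfl⟩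
  have hk0 : (0 : ℝ) < k := by rw [hk]; positivity
  have hkμ : σ / k ≤ μ / 8 := by
    rw [div_le_iff₀ hμ0] at hk'
    rw [div_le_iff₀ hk0, hk]
    push_cast
    nlinarith
  obtain ⟨ρ, hρ⟩ : ∃ ρ, ρ = σ / (R + 1) := ⟨_, rfl⟩
  have hρ0 : 0 < ρ := by rw [hρ]; positivity
  have hρσ : (R + 1) * ρ = σ := by rw [hρ]; field_simp
  have hρμ : ρ ≤ μ / 4 := by
    rw [div_le_iff₀ hμ0] at hR
    rw [hρ, div_le_iff₀ (by positivity)]
    nlinarith
  obtain ⟨CF, hCF⟩ := hF (μ / (8 * σ)) (by positivity)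
  obtain ⟨C₁, hC₁⟩ : ∃ C₁ : ℕ, 4 * σ ^ 2 * R + 2 * σ ^ 2 * CF * (2 * R + 1) ≤ C₁ :=
    ⟨_, Nat.le_ceil _⟩
  obtain ⟨C₂, hC₂⟩ : ∃ C₂ : ℕ, ∑ j, α j + 2 ≤ C₂ := ⟨_, Nat.le_ceil _⟩
  refine ⟨μ / 4, ρ, σ, R, k, CF * (R + 1) + (R + 1) + C₁ + C₂, by positivity, hρ0, by linarith,
    by omega, ?_⟩
  intro N _ m hm hN x i a b hab hb
  have hRN : R < N :=
    lt_of_lt_of_le (by omega) ((Nat.le_mul_of_pos_right _ (by omega)).trans hN)
  have hN3 : CF * ((R + 1) * m) ≤ N :=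
    le_trans (by rw [← mul_assoc]; exact Nat.mul_le_mul_right _ (by omega)) hN
  have hfl : ∀ s : Fin (R + 1) × Fin k, ∃ θ : E N → ℝ, (∀ e, 0 ≤ θ e) ∧
      ∑ e, θ e ^ 2 ≤ CF * Real.log (((R + 1) * m : ℕ) : ℝ) ∧
      (∀ z, dv θ z = ind {x + cz N (a s.2) (b s.2)} z - ind {x + (s.1 : ℕ) • dr N i} z) ∧
      ∀ e, θ e ≤ (if Line (x + (s.1 : ℕ) • dr N i) (i + 1) e then 1 else 0)
        + (if Line (x + cz N (a s.2) (b s.2)) 0 e then 1 else 0) + μ / (8 * σ) := by
    rintro ⟨j, l⟩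
    obtain ⟨h1, h2⟩ := hab l
    obtain ⟨h3, h4⟩ := GtA_dir i
    have hm' : (2 : ℤ) ≤ m := by exact_mod_cast hm
    have hj : ((j : ℕ) : ℤ) ≤ R := by exact_mod_cast Nat.lt_succ_iff.1 j.2
    have hj0 : (0 : ℤ) ≤ (j : ℕ) := Nat.cast_nonneg _
    have key : ∀ u d : ℤ, |u| ≤ m → |d| ≤ 1 → |u - (j : ℕ) * d| ≤ (((R + 1) * m : ℕ) : ℤ) := by
      intro u d hu hd
      refine (abs_sub _ _).trans ?_
      rw [abs_mul, abs_of_nonneg hj0]
      push_cast
      nlinarith [abs_nonneg d]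
    have e : x + (j : ℕ) • dr N i + cz N (a l - (j : ℕ) * (dir i).1) (b l - (j : ℕ) * (dir i).2) =
        x + cz N (a l) (b l) := by
      rw [GtA2_smul, add_assoc, ← cz_add]
      simp
    have := hCF N ((R + 1) * m) (by nlinarith) hN3 (x + (j : ℕ) • dr N i) _ _ (key _ _ h1 h3)
      (key _ _ h2 h4) (i + 1) 0
    rw [e] at this
    exact this
  choose f hf0 hfE hfd hfl using hfl
  have hc : ∀ g : Fin (R + 1) → ℝ,
      ∑ s : Fin (R + 1) × Fin k, ρ / k * g s.1 = ρ * ∑ s, g s := fun g => by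
    rw [Fintype.sum_prod_type, mul_sum]
    refine Finset.sum_congr rfl fun s _ => ?_
    simp only [Finset.sum_const, card_univ, Fintype.card_fin, nsmul_eq_mul]
    field_simp
  have hc' : ∀ g : Fin k → ℝ,
      ∑ s : Fin (R + 1) × Fin k, ρ / k * g s.2 = ∑ l, σ / k * g l := fun g => by
    rw [Fintype.sum_prod_type_right]
    refine Finset.sum_congr rfl fun l _ => ?_
    simp only [Finset.sum_const, card_univ, Fintype.card_fin, nsmul_eq_mul]
    rw [← hρσ]
    push_cast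
    ring
  have hcw : 0 ≤ ρ / k := by positivity
  have hI := GtA2_pathI hRN x i
  have hI0 : ∀ e, 0 ≤ pathI R x i e := fun e =>
    sum_nonneg fun j _ => by split_ifs <;> norm_num
  obtain ⟨P, hP⟩ : ∃ P : E N → ℝ, P = fun e =>
      ∑ j ∈ range R, if e = pe x i j then σ - (j + 1) * ρ else 0 := ⟨_, rfl⟩
  obtain ⟨F, hFd⟩ : ∃ F : E N → ℝ, F = fun e => ∑ s, ρ / k * f s e := ⟨_, rfl⟩
  have hP1 : ∀ e, ρ * pathI R x i e ≤ P e := fun e => by
    rw [hP, pathI, mul_sum]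
    refine sum_le_sum fun j hj => ?_
    have : ((j + 1 : ℕ) : ℝ) ≤ R := by exact_mod_cast mem_range.1 hj
    push_cast at this
    split_ifs
    · nlinarith
    · simp
  have hP2 : ∀ e, P e ≤ σ * pathI R x i e := fun e => by
    rw [hP, pathI, mul_sum]
    refine sum_le_sum fun j _ => ?_
    have : (0 : ℝ) ≤ (j + 1) * ρ := by positivity
    split_ifs
    · linarith
    · simp
  have hF0 : ∀ e, 0 ≤ F e := fun e => by
    rw [hFd]; exact sum_nonneg fun s _ => mul_nonneg hcw (hf0 s e)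
  have hF1 : ∀ e, F e ≤ μ / 2 := fun e => by
    have h1 : F e ≤ (ρ * ∑ j : Fin (R + 1),
          if Line (x + (j : ℕ) • dr N i) (i + 1) e then (1 : ℝ) else 0)
        + (∑ l, σ / k * if Line (x + cz N (a l) (b l)) 0 e then 1 else 0)
        + ρ * ∑ _j : Fin (R + 1), μ / (8 * σ) := by
      rw [← hc fun j => if Line (x + (j : ℕ) • dr N i) (i + 1) e then 1 else 0,
        ← hc' fun l => if Line (x + cz N (a l) (b l)) 0 e then 1 else 0,
        ← hc fun _ => μ / (8 * σ), ← Finset.sum_add_distrib, ← Finset.sum_add_distrib, hFd]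
      refine Finset.sum_le_sum fun s _ => ?_
      rw [← mul_add, ← mul_add]
      exact mul_le_mul_of_nonneg_left (hfl s e) hcw
    have h2 := mul_le_of_le_one_right hρ0.le (GtA2_lines hRN x i e)
    have h3 : (∑ l, σ / k * if Line (x + cz N (a l) (b l)) 0 e then (1 : ℝ) else 0) ≤ μ / 8 := by
      rw [← Finset.mul_sum]
      exact (mul_le_of_le_one_right (div_nonneg hσ0.le hk0.le) (GtA_sinks x a b hb e)).trans hkμ
    have h4 : ρ * ∑ _j : Fin (R + 1), μ / (8 * σ) = μ / 8 := by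
      rw [sum_const, card_univ, Fintype.card_fin, nsmul_eq_mul, ← mul_assoc, mul_comm ρ]
      push_cast
      rw [hρσ]
      field_simp
    linarith
  have hup : ∀ e, (P + F) e + μ / 4 ≤ α e.2 + 2 * pathI R x i e := fun e => by
    have h1 := hP2 e
    have h2 := hF1 e
    have h3 : μ ≤ α e.2 := hμ ▸ hj₀ _ (mem_univ _)
    have h4 := mul_le_of_le_one_right (show 0 ≤ μ / 4 by positivity) (hI e)
    rw [hσ] at h1
    simp only [Pi.add_apply]
    nlinarith
  refine ⟨P + F, fun e => (hP1 e).trans (le_add_of_nonneg_right (hF0 e)), hup, fun e => ?_, ?_,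
    fun z => ?_⟩
  · have h1 := hup e
    have h2 : α e.2 ≤ ∑ j, α j := single_le_sum (fun j _ => (hα j).le) (mem_univ _)
    have h3 := hI e
    have h4 : (C₂ : ℝ) ≤ ((CF * (R + 1) + (R + 1) + C₁ + C₂ : ℕ) : ℝ) := by
      exact_mod_cast Nat.le_add_left _ _
    linarith
  · have h1 : ∑ e, F e ^ 2 ≤ σ ^ 2 * (CF * Real.log (((R + 1) * m : ℕ) : ℝ)) := by
      have := GtA_energy (fun _ : Fin (R + 1) × Fin k => ρ / k) f _ (fun _ => hcw) hfE
      have e : ∑ _s : Fin (R + 1) × Fin k, ρ / k = σ := by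
        have := hc fun _ => 1
        simp only [mul_one] at this
        rw [this, sum_const, card_univ, Fintype.card_fin, nsmul_eq_mul, ← hρσ]
        push_cast
        ring
      rw [e] at this
      rw [hFd]
      exact this
    have h2 : ∑ e, P e ^ 2 ≤ σ ^ 2 * R := by
      rw [← GtA2_sumI R x i, mul_sum]
      refine sum_le_sum fun e _ => ?_
      have a0 : 0 ≤ P e := (mul_nonneg hρ0.le (hI0 e)).trans (hP1 e)
      calc P e ^ 2 ≤ (σ * pathI R x i e) ^ 2 := pow_le_pow_left₀ a0 (hP2 e) 2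
        _ = σ ^ 2 * (pathI R x i e * pathI R x i e) := by ring
        _ ≤ _ := mul_le_mul_of_nonneg_left (mul_le_of_le_one_right (hI0 e) (hI e)) (sq_nonneg _)
    have h3 : ∑ e, (P + F) e ^ 2 ≤ 2 * ∑ e, P e ^ 2 + 2 * ∑ e, F e ^ 2 := by
      rw [mul_sum, mul_sum, ← sum_add_distrib]
      refine sum_le_sum fun e _ => ?_
      simp only [Pi.add_apply]
      nlinarith [sq_nonneg (P e - F e)]
    have hm' : (2 : ℝ) ≤ m := by exact_mod_cast hm
    have h4 : 1 / 2 ≤ Real.log (m : ℝ) := by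
      have := Real.log_le_log two_pos hm'
      have := Real.log_two_gt_d9
      linarith
    have hR0 : (0 : ℝ) ≤ R := Nat.cast_nonneg _
    have h5 : Real.log (((R + 1) * m : ℕ) : ℝ) ≤ (2 * R + 1) * Real.log m := by
      push_cast
      rw [Real.log_mul (by positivity) (by positivity)]
      have := Real.log_le_sub_one_of_pos (show (0 : ℝ) < R + 1 by positivity)
      nlinarith
    have h6 : (C₁ : ℝ) ≤ ((CF * (R + 1) + (R + 1) + C₁ + C₂ : ℕ) : ℝ) := by
      exact_mod_cast (by omega : C₁ ≤ CF * (R + 1) + (R + 1) + C₁ + C₂)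
    have h7 : σ ^ 2 * (CF * Real.log (((R + 1) * m : ℕ) : ℝ)) ≤
        σ ^ 2 * (CF * ((2 * R + 1) * Real.log m)) := by gcongr
    have h8 : σ ^ 2 * R ≤ σ ^ 2 * R * (2 * Real.log m) :=
      le_mul_of_one_le_right (by positivity) (by linarith)
    calc ∑ e, (P + F) e ^ 2 ≤
          (4 * σ ^ 2 * R + 2 * σ ^ 2 * CF * (2 * R + 1)) * Real.log m := by linarith
      _ ≤ _ := mul_le_mul_of_nonneg_right (hC₁.trans h6) (by linarith)
  · have h1 : dv P z = ∑ j ∈ range R, (σ - (j + 1) * ρ) *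
        (ind {x + (j + 1) • dr N i} z - ind {x + j • dr N i} z) := by
      rw [hP, dv_sum]
      refine sum_congr rfl fun j _ => ?_
      rw [dv_single, succ_nsmul, ← add_assoc]
      rfl
    have h2 : dv F z = (∑ l, σ / k * ind {x + cz N (a l) (b l)} z) -
        ρ * ∑ j ∈ range (R + 1), ind {x + j • dr N i} z := by
      rw [hFd, dv_sum]
      simp only [dv_mul, hfd, mul_sub, Finset.sum_sub_distrib]
      rw [hc' fun l => ind {x + cz N (a l) (b l)} z,
        hc fun j => ind {x + (j : ℕ) • dr N i} z,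
        Finset.sum_range fun j => ind {x + j • dr N i} z]
    have h3 := GtA2_tele σ ρ (fun j => ind {x + j • dr N i} z) R
    rw [hρσ, sub_self, zero_mul] at h3
    simp only [zero_smul, add_zero] at h3
    rw [dv_add, h1, h2]
    linarith

end DRW
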