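import Pool.Agent.P.MP_de05b4_pr.Basic2

/-! Independence of disjoint blocks of sites and resampling of one site. -/

namespace DRW

open MeasureTheory ProbabilityTheory Finset Filter
open scoped ENNReal Topology Classical

/-- gluing two environments along a set of sites -/
noncomputable def IndZ_glue (S : Set (ℤ × ℤ)) (p : Env × Env) : Env :=
  fun x => if x ∈ S then p.1 x else p.2 x

theorem IndZ_meas (S : Set (ℤ × ℤ)) : Measurable (IndZ_glue S) := by
  refine measurable_pi_iff.2 fun x => ?_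
  by_cases hx : x ∈ S
  · simp only [IndZ_glue, hx, if_true]
    exact (measurable_pi_apply x).comp measurable_fst
  · simp only [IndZ_glue, hx, if_false]
    exact (measurable_pi_apply x).comp measurable_snd

theorem IndZ_map (ν : Measure (Fin 4 → ℝ)) [IsProbabilityMeasure ν] (S : Set (ℤ × ℤ)) :
    ((Measure.infinitePi fun _ : ℤ × ℤ => ν).prod
      (Measure.infinitePi fun _ : ℤ × ℤ => ν)).map (IndZ_glue S) =
      Measure.infinitePi fun _ : ℤ × ℤ => ν := by
  refine Measure.eq_infinitePi _ fun s t ht => ?_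
  rw [Measure.map_apply (IndZ_meas S) (MeasurableSet.pi s.countable_toSet fun i _ => ht i)]
  have hpre : IndZ_glue S ⁻¹' Set.pi (s : Set (ℤ × ℤ)) t =
      Set.pi ((s.filter fun x => x ∈ S : Finset (ℤ × ℤ)) : Set (ℤ × ℤ)) t ×ˢ
        Set.pi ((s.filter fun x => ¬ x ∈ S : Finset (ℤ × ℤ)) : Set (ℤ × ℤ)) t := by
    ext p
    simp only [Set.mem_preimage, Set.mem_pi, Finset.mem_coe, Set.mem_prod, Finset.mem_filter,
      IndZ_glue]
    constructor
    · intro h
      refine ⟨fun i hi => ?_, fun i hi => ?_⟩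
      · have := h i hi.1
        rwa [if_pos hi.2] at this
      · have := h i hi.1
        rwa [if_neg hi.2] at this
    · intro h i hi
      by_cases hS : i ∈ S
      · rw [if_pos hS]; exact h.1 i ⟨hi, hS⟩
      · rw [if_neg hS]; exact h.2 i ⟨hi, hS⟩
  rw [hpre, Measure.prod_prod, Measure.infinitePi_pi _ (fun i _ => ht i),
    Measure.infinitePi_pi _ (fun i _ => ht i), Finset.prod_filter_mul_prod_filter_not]

theorem IndZ_lint (ν : Measure (Fin 4 → ℝ)) [IsProbabilityMeasure ν] (S : Set (ℤ × ℤ))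
    (F : Env → ℝ≥0∞) (hF : Measurable F) :
    ∫⁻ ω, F ω ∂(Measure.infinitePi fun _ : ℤ × ℤ => ν) =
      ∫⁻ ω, ∫⁻ ω', F (IndZ_glue S (ω, ω')) ∂(Measure.infinitePi fun _ : ℤ × ℤ => ν)
        ∂(Measure.infinitePi fun _ : ℤ × ℤ => ν) := by
  conv_lhs => rw [← IndZ_map ν S]
  rw [lintegral_map hF (IndZ_meas S)]
  exact lintegral_prod _ (hF.comp (IndZ_meas S)).aemeasurable

theorem pf_IndZ : StIndZ := by
  intro ν _ S Φ Ψ hΦ hΨ dΦ dΨ
  rw [IndZ_lint ν S (fun ω => Φ ω * Ψ ω) (hΦ.mul hΨ)]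
  have h1 : ∀ ω ω' : Env, Φ (IndZ_glue S (ω, ω')) = Φ ω := fun ω ω' =>
    dΦ fun i hi => by simp only [IndZ_glue]; rw [if_pos hi]
  have h2 : ∀ ω ω' : Env, Ψ (IndZ_glue S (ω, ω')) = Ψ ω' := fun ω ω' =>
    dΨ fun i hi => by simp only [IndZ_glue]; rw [if_neg hi]
  simp only [h1, h2]
  simp only [lintegral_const_mul _ hΨ]
  rw [lintegral_mul_const _ hΦ]

theorem pf_Upd : StUpd := by
  intro ν _ x Ψ hΨ
  rw [IndZ_lint ν {x}ᶜ Ψ hΨ]
  refine lintegral_congr fun ω => ?_
  have h1 : ∀ ω' : Env, IndZ_glue {x}ᶜ (ω, ω') = Function.update ω x (ω' x) := by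
    intro ω'
    funext y
    by_cases hy : y = x
    · subst hy
      simp [IndZ_glue]
    · simp [IndZ_glue, hy]
  simp only [h1]
  have hm : Measurable fun v : Fin 4 → ℝ => Ψ (Function.update ω x v) :=
    hΨ.comp (measurable_update ω)
  have hmap : (Measure.infinitePi fun _ : ℤ × ℤ => ν).map (fun ω' : Env => ω' x) = ν :=
    Measure.infinitePi_map_eval _ x
  conv_rhs => rw [← hmap]
  rw [lintegral_map hm (measurable_pi_apply x)]

end DRW
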