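import Pool.Agent.P.MP_de05b4_pr.Basic2

/-! Measurability and linearity of the jump expansion. -/

namespace DRW

open MeasureTheory ProbabilityTheory Finset Filter
open scoped ENNReal Topology

theorem pf_J1 : StJ1 := by
  intro γ hγ n Φ hΦ
  induction n with
  | zero =>
    simp only [jumps]
    refine Measurable.mul (Measurable.ennreal_ofReal ?_) ?_
    · exact (((hγ.comp measurable_snd.snd).mul measurable_snd.fst).neg).exp
    · exact hΦ.comp (measurable_fst.prodMk measurable_snd.snd)
  | succ n ih =>
    have hF : Measurable fun q : (ℝ × ℝ × Env) × ℝ =>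
        ENNReal.ofReal (γ q.1.2.2 * Real.exp (-(γ q.1.2.2 * q.2))) *
          stepOp (jumps γ n (q.1.2.1 - q.2) (fun ω => Φ (q.1.1, ω))) q.1.2.2 := by
      have hg : Measurable fun q : (ℝ × ℝ × Env) × ℝ => γ q.1.2.2 :=
        hγ.comp measurable_fst.snd.snd
      refine Measurable.mul (Measurable.ennreal_ofReal (hg.mul (hg.mul measurable_snd).neg.exp)) ?_
      refine measurable_stepOp' (β := (ℝ × ℝ × Env) × ℝ)
        (Φ := fun q => jumps γ n (q.1.2.1 - q.2) (fun ω => Φ (q.1.1, ω)))
        (w := fun q => q.1.2.2) ?_ measurable_fst.snd.snd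
      exact ih.comp (f := fun r : ((ℝ × ℝ × Env) × ℝ) × Env => (r.1.1.1, r.1.1.2.1 - r.1.2, r.2))
        (measurable_fst.fst.fst.prodMk
          ((measurable_fst.fst.snd.fst.sub measurable_fst.snd).prodMk measurable_snd))
    have hS : MeasurableSet {q : (ℝ × ℝ × Env) × ℝ | 0 < q.2 ∧ q.2 ≤ q.1.2.1} :=
      (measurableSet_lt measurable_const measurable_snd).inter
        (measurableSet_le measurable_snd measurable_fst.snd.fst)
    have hI := (hF.indicator hS).lintegral_prod_right' (ν := (volume : Measure ℝ))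
    convert hI using 2 with p
    simp only [jumps]
    rw [← lintegral_indicator measurableSet_Ioc]
    refine lintegral_congr fun u => ?_
    by_cases hu : u ∈ Set.Ioc 0 p.2.1
    · rw [Set.indicator_of_mem hu, Set.indicator_of_mem (by exact hu)]
    · rw [Set.indicator_of_notMem hu, Set.indicator_of_notMem (by exact hu)]

theorem J1_meas (h1 : StJ1) {γ : Env → ℝ} (hγ : Measurable γ) (n : ℕ) (t : ℝ)
    {φ : Env → ℝ≥0∞} (hφ : Measurable φ) (ω : Env) :
    Measurable fun u : ℝ => ENNReal.ofReal (γ ω * Real.exp (-(γ ω * u))) *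
      stepOp (jumps γ n (t - u) φ) ω := by
  refine Measurable.mul (Measurable.ennreal_ofReal
    (measurable_const.mul (measurable_const.mul measurable_id).neg.exp)) ?_
  refine measurable_stepOp' (β := ℝ) (Φ := fun u => jumps γ n (t - u) φ) (w := fun _ => ω) ?_
    measurable_const
  exact (h1 γ hγ n (fun p => φ p.2) (hφ.comp measurable_snd)).comp
    (f := fun r : ℝ × Env => ((0 : ℝ), t - r.1, r.2))
    (measurable_const.prodMk ((measurable_const.sub measurable_fst).prodMk measurable_snd))

theorem J1_mono (γ : Env → ℝ) (n : ℕ) : ∀ (t : ℝ) (φ ψ : Env → ℝ≥0∞), φ ≤ ψ →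
    jumps γ n t φ ≤ jumps γ n t ψ := by
  induction n with
  | zero => exact fun t φ ψ h ω => mul_le_mul_right (h ω) _
  | succ n ih =>
    intro t φ ψ h ω
    simp only [jumps]
    exact lintegral_mono fun u => mul_le_mul_right (stepOp_mono fun i => ih _ φ ψ h _) _

theorem pf_JL (h1 : StJ1) : StJL := by
  intro γ hγ n
  induction n with
  | zero =>
    intro t
    refine ⟨J1_mono γ 0 t, fun φ ψ _ _ ω => ?_, fun c φ _ ω => ?_, fun φ _ _ ω => ?_⟩
    · simp only [jumps, Pi.add_apply, mul_add]
    · simp only [jumps, mul_left_comm]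
    · simp only [jumps, ENNReal.mul_iSup]
  | succ n ih =>
    intro t
    refine ⟨J1_mono γ (n + 1) t, fun φ ψ hφ hψ ω => ?_, fun c φ hφ ω => ?_,
      fun φ hφ hm ω => ?_⟩
    · simp only [jumps]
      rw [← lintegral_add_left (J1_meas h1 hγ n t hφ ω)]
      refine lintegral_congr fun u => ?_
      rw [← mul_add, ← stepOp_add]
      congr 1
      exact stepOp_congr fun i => (ih (t - u)).2.1 φ ψ hφ hψ _
    · simp only [jumps]
      rw [← lintegral_const_mul _ (J1_meas h1 hγ n t hφ ω)]
      refine lintegral_congr fun u => ?_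
      rw [mul_left_comm, ← stepOp_const_mul c]
      congr 1
      exact stepOp_congr fun i => (ih (t - u)).2.2.1 c φ hφ _
    · simp only [jumps]
      have hmono : ∀ u : ℝ, Monotone fun k => jumps γ n (t - u) (φ k) :=
        fun u a b hab => J1_mono γ n _ _ _ (hm hab)
      rw [← lintegral_iSup (fun k => J1_meas h1 hγ n t (hφ k) ω)
        (fun a b hab u => mul_le_mul_right (stepOp_mono fun i => hmono u hab _) _)]
      refine lintegral_congr fun u => ?_
      rw [← ENNReal.mul_iSup, ← stepOp_iSup (hmono u)]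
      congr 1
      exact stepOp_congr fun i => (ih (t - u)).2.2.2 φ hφ hm _

end DRW
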