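import Pool.Agent.P.MP_de05b4_pr.Basic2

/-! Invariance for the accelerated walk from invariance of the weighted measure. -/

namespace DRW

open MeasureTheory ProbabilityTheory Finset Filter
open scoped ENNReal Topology

theorem JA_exp {g t : ℝ} (hg : 0 < g) (ht : 0 ≤ t) :
    (∫⁻ u in Set.Ioc 0 t, ENNReal.ofReal g * ENNReal.ofReal (Real.exp (-(g * (t - u))))) +
      ENNReal.ofReal (Real.exp (-(g * t))) = 1 := by
  have hc : Continuous fun u : ℝ => g * Real.exp (-(g * (t - u))) := by fun_prop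
  have h1 : ∫ u in (0 : ℝ)..t, g * Real.exp (-(g * (t - u))) =
      Real.exp (-(g * (t - t))) - Real.exp (-(g * (t - 0))) := by
    refine intervalIntegral.integral_eq_sub_of_hasDerivAt
      (f := fun u => Real.exp (-(g * (t - u)))) (fun u _ => ?_) (hc.intervalIntegrable _ _)
    have h2 : HasDerivAt (fun u : ℝ => -(g * (t - u))) g u := by
      simpa using (((hasDerivAt_id' u).const_sub t).const_mul g).fun_neg
    simpa [mul_comm] using h2.exp
  have h3 : Real.exp (-(g * t)) ≤ 1 := Real.exp_le_one_iff.2 (by nlinarith)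
  simp only [← ENNReal.ofReal_mul hg.le]
  rw [← ofReal_integral_eq_lintegral_ofReal (hc.integrableOn_Icc.mono_set Set.Ioc_subset_Icc_self)
    (ae_of_all _ fun u => by positivity), ← intervalIntegral.integral_of_le ht, h1,
    ← ENNReal.ofReal_add (by simpa using h3) (Real.exp_pos _).le]
  simp

theorem JA_meas (h1 : StJ1) {γ : Env → ℝ} (hγ : Measurable γ) (n : ℕ) (t : ℝ)
    {φ : Env → ℝ≥0∞} (hφ : Measurable φ) : Measurable (jumps γ n t φ) :=
  (h1 γ hγ n (fun p => φ p.2) (hφ.comp measurable_snd)).comp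
    (f := fun ω : Env => ((0 : ℝ), t, ω)) (by fun_prop)

theorem JA_partial (h1 : StJ1) (hF : StJF) {γ : Env → ℝ} (hγ : Measurable γ)
    (hp : ∀ ω, 0 < γ ω) {Q : Measure Env} [IsProbabilityMeasure Q] (hM : MuInv γ Q) (m : ℕ) :
    ∀ t : ℝ, 0 ≤ t → ∀ φ : Env → ℝ≥0∞, Measurable φ →
      ∫⁻ ω, ∑ n ∈ range m, jumps γ n t φ ω ∂Q ≤ ∫⁻ ω, φ ω ∂Q := by
  induction m with
  | zero => intro t _ φ _; simp
  | succ m ih =>
    intro t ht φ hφ
    have hχ : Measurable fun p : ℝ × Env =>
        ENNReal.ofReal (Real.exp (-(γ p.2 * (t - p.1)))) * φ p.2 := by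
      refine Measurable.mul (Measurable.ennreal_ofReal ?_) (hφ.comp measurable_snd)
      exact ((hγ.comp measurable_snd).mul (measurable_const.sub measurable_fst)).neg.exp
    have hg : Measurable fun ω => ENNReal.ofReal (γ ω) := hγ.ennreal_ofReal
    set Ψ : ℝ × Env → ℝ≥0∞ := fun p => ENNReal.ofReal (γ p.2) * stepOp
      (fun ω'' => ENNReal.ofReal (Real.exp (-(γ ω'' * (t - p.1)))) * φ ω'') p.2 with hΨ
    have mΨ : Measurable Ψ := by
      refine (hg.comp measurable_snd).mul ?_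
      exact measurable_stepOp' (Φ := fun (p : ℝ × Env) ω'' =>
        ENNReal.ofReal (Real.exp (-(γ ω'' * (t - p.1)))) * φ ω'')
        (hχ.comp (f := fun q : (ℝ × Env) × Env => (q.1.1, q.2)) (by fun_prop)) measurable_snd
    have mJ : ∀ n, Measurable fun p : Env × ℝ => jumps γ n p.2 (fun ω => Ψ (p.2, ω)) p.1 :=
      fun n => (h1 γ hγ n Ψ mΨ).comp (f := fun p : Env × ℝ => (p.2, p.2, p.1)) (by fun_prop)
    have e1 : ∀ ω, ∑ n ∈ range m, jumps γ (n + 1) t φ ω =
        ∫⁻ u in Set.Ioc 0 t, ∑ n ∈ range m, jumps γ n u (fun ω' => Ψ (u, ω')) ω := fun ω => by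
      rw [lintegral_finsetSum (f := fun n u => jumps γ n u (fun ω' => Ψ (u, ω')) ω) _ fun n _ =>
        (mJ n).comp (f := fun u : ℝ => (ω, u)) (by fun_prop)]
      exact sum_congr rfl fun n _ => hF γ hγ hp n t φ hφ ω
    have mK : Measurable fun p : Env × ℝ => ENNReal.ofReal (γ p.1) *
        (ENNReal.ofReal (Real.exp (-(γ p.1 * (t - p.2)))) * φ p.1) :=
      (hg.comp measurable_fst).mul (hχ.comp measurable_swap)
    have e2 : ∫⁻ ω, ∑ n ∈ range m, jumps γ (n + 1) t φ ω ∂Q ≤
        ∫⁻ ω, (∫⁻ u in Set.Ioc 0 t, ENNReal.ofReal (γ ω) *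
          (ENNReal.ofReal (Real.exp (-(γ ω * (t - u)))) * φ ω)) ∂Q := by
      simp only [e1]
      refine (lintegral_lintegral_swap
        (Finset.measurable_sum _ fun n _ => mJ n).aemeasurable).trans_le ?_
      refine le_trans ?_ (lintegral_lintegral_swap mK.aemeasurable).ge
      refine setLIntegral_mono' measurableSet_Ioc fun u hu => ?_
      refine (ih u hu.1.le _ (mΨ.comp measurable_prodMk_left)).trans (le_of_eq ?_)
      exact (inv_fun hg hM (hχ.comp measurable_prodMk_left)).symm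
    simp only [sum_range_succ']
    rw [lintegral_add_right _ (JA_meas h1 hγ 0 t hφ)]
    refine (add_le_add e2 le_rfl).trans (le_of_eq ?_)
    rw [← lintegral_add_right _ (JA_meas h1 hγ 0 t hφ)]
    refine lintegral_congr fun ω => ?_
    simp only [← mul_assoc, jumps]
    rw [lintegral_mul_const _ (by fun_prop), ← add_mul, JA_exp (hp ω) ht, one_mul]

theorem JA_le (h1 : StJ1) (hF : StJF) {γ : Env → ℝ} (hγ : Measurable γ)
    (hp : ∀ ω, 0 < γ ω) {Q : Measure Env} [IsProbabilityMeasure Q] (hM : MuInv γ Q)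
    {t : ℝ} (ht : 0 ≤ t) {φ : Env → ℝ≥0∞} (hφ : Measurable φ) :
    ∫⁻ ω, accSemigroup γ t φ ω ∂Q ≤ ∫⁻ ω, φ ω ∂Q := by
  unfold accSemigroup
  rw [lintegral_tsum fun n => (JA_meas h1 hγ n t hφ).aemeasurable, ENNReal.tsum_eq_iSup_nat]
  refine iSup_le fun m => ?_
  rw [← lintegral_finsetSum _ fun n _ => JA_meas h1 hγ n t hφ]
  exact JA_partial h1 hF hγ hp hM m t ht φ hφ

theorem pf_JA (h1 : StJ1) (hL : StJL) (hF : StJF) (hN : StJN) : StJA := by
  intro γ hγ hp Q hQ hG hz hM t ht A hA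
  have iA : Measurable (A.indicator (1 : Env → ℝ≥0∞)) := measurable_one.indicator hA
  have iB : Measurable (Aᶜ.indicator (1 : Env → ℝ≥0∞)) := measurable_one.indicator hA.compl
  have a1 := JA_le h1 hF hγ hp hM ht iA
  have a2 := JA_le h1 hF hγ hp hM ht iB
  rw [lintegral_indicator_one hA] at a1
  rw [lintegral_indicator_one hA.compl] at a2
  refine le_antisymm ?_ a1
  have mB : Measurable (accSemigroup γ t (Aᶜ.indicator 1)) :=
    Measurable.tsum fun n => JA_meas h1 hγ n t iB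
  have e : ∀ ω, accSemigroup γ t 1 ω =
      accSemigroup γ t (A.indicator 1) ω + accSemigroup γ t (Aᶜ.indicator 1) ω := fun ω => by
    unfold accSemigroup
    rw [← ENNReal.tsum_add]
    refine tsum_congr fun n => ?_
    rw [← (hL γ hγ n t).2.1 _ _ iA iB ω, Set.indicator_self_add_compl]
  have h2 : ∀ᵐ ω ∂Q, 1 ≤ accSemigroup γ t 1 ω := by
    filter_upwards [hG, hz] with ω g z
    have h3 := le_iInf (hN γ hγ hp t ht ω g).2
    rwa [← ENNReal.add_iInf, ← ENNReal.mul_iInf_of_ne (by simpa using Real.exp_pos t)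
      ENNReal.ofReal_ne_top, z, mul_zero, add_zero] at h3
  have h4 : Q A + Q Aᶜ ≤ ∫⁻ ω, accSemigroup γ t (A.indicator 1) ω ∂Q + Q Aᶜ := by
    rw [prob_add_prob_compl hA]
    refine le_trans ?_ (add_le_add le_rfl a2)
    rw [← lintegral_add_right _ mB]
    simp only [← e]
    simpa using lintegral_mono_ae h2
  exact ENNReal.le_of_add_le_add_right (measure_ne_top _ _) h4

end DRW
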