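import Pool.Agent.P.MP_de05b4_pr.Basic2

/-! The last jump decomposition, and invariance for the unit rate walk. -/

namespace DRW

open MeasureTheory ProbabilityTheory Finset Filter
open scoped ENNReal Topology

theorem JF_tri (t : ℝ) {F : ℝ × ℝ → ℝ≥0∞} (hF : Measurable F) :
    ∫⁻ s in Set.Ioc 0 t, ∫⁻ u in Set.Ioc 0 (t - s), F (s, u + s) =
      ∫⁻ v in Set.Ioc 0 t, ∫⁻ s in Set.Ioc 0 v, F (s, v) := by
  have hT : MeasurableSet {p : ℝ × ℝ | 0 < p.1 ∧ p.1 < p.2 ∧ p.2 ≤ t} :=
    (measurableSet_lt measurable_const measurable_fst).inter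
      ((measurableSet_lt measurable_fst measurable_snd).inter
        (measurableSet_le measurable_snd measurable_const))
  set G : ℝ × ℝ → ℝ≥0∞ := {p : ℝ × ℝ | 0 < p.1 ∧ p.1 < p.2 ∧ p.2 ≤ t}.indicator F with hG
  have e1 : ∫⁻ s in Set.Ioc 0 t, ∫⁻ u in Set.Ioc 0 (t - s), F (s, u + s) =
      ∫⁻ s, ∫⁻ v, G (s, v) := by
    rw [← lintegral_indicator measurableSet_Ioc]
    refine lintegral_congr fun s => ?_
    rw [← lintegral_add_right_eq_self (fun v => G (s, v)) s]
    by_cases hs : s ∈ Set.Ioc 0 t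
    · rw [Set.indicator_of_mem hs, ← lintegral_indicator measurableSet_Ioc]
      refine lintegral_congr fun u => ?_
      by_cases hu : u ∈ Set.Ioc 0 (t - s)
      · rw [Set.indicator_of_mem hu, hG, Set.indicator_of_mem]
        exact ⟨hs.1, by linarith [hu.1], by linarith [hu.2]⟩
      · rw [Set.indicator_of_notMem hu, hG, Set.indicator_of_notMem]
        exact fun h => hu ⟨by linarith [h.2.1], by linarith [h.2.2]⟩
    · rw [Set.indicator_of_notMem hs]
      refine (lintegral_zero.symm.trans (lintegral_congr fun u => ?_))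
      rw [hG, Set.indicator_of_notMem]
      exact fun h => hs ⟨h.1, by linarith [h.2.1, h.2.2]⟩
  have e2 : ∫⁻ v in Set.Ioc 0 t, ∫⁻ s in Set.Ioc 0 v, F (s, v) = ∫⁻ v, ∫⁻ s, G (s, v) := by
    rw [← lintegral_indicator measurableSet_Ioc]
    refine lintegral_congr fun v => ?_
    by_cases hv : v ∈ Set.Ioc 0 t
    · rw [Set.indicator_of_mem hv, ← setLIntegral_congr Ioo_ae_eq_Ioc,
        ← lintegral_indicator measurableSet_Ioo]
      refine lintegral_congr fun s => ?_
      by_cases hs : s ∈ Set.Ioo 0 v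
      · rw [Set.indicator_of_mem hs, hG, Set.indicator_of_mem]
        exact ⟨hs.1, hs.2, hv.2⟩
      · rw [Set.indicator_of_notMem hs, hG, Set.indicator_of_notMem]
        exact fun h => hs ⟨h.1, h.2.1⟩
    · rw [Set.indicator_of_notMem hv]
      refine (lintegral_zero.symm.trans (lintegral_congr fun s => ?_))
      rw [hG, Set.indicator_of_notMem]
      exact fun h => hv ⟨h.1.trans h.2.1, h.2.2⟩
  rw [e1, e2]
  exact lintegral_lintegral_swap (f := fun s v => G (s, v)) (hF.indicator hT).aemeasurable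

/-- the functional after the last jump -/
noncomputable def JF_Psi (γ : Env → ℝ) (φ : Env → ℝ≥0∞) (r : ℝ) (ω' : Env) : ℝ≥0∞ :=
  ENNReal.ofReal (γ ω') *
    stepOp (fun ω'' => ENNReal.ofReal (Real.exp (-(γ ω'' * r))) * φ ω'') ω'

theorem JF_meas_Psi {γ : Env → ℝ} (hγ : Measurable γ) {φ : Env → ℝ≥0∞} (hφ : Measurable φ) :
    Measurable fun p : ℝ × Env => JF_Psi γ φ p.1 p.2 := by
  refine (hγ.comp measurable_snd).ennreal_ofReal.mul ?_
  refine measurable_stepOp' (β := ℝ × Env)
    (Φ := fun b ω'' => ENNReal.ofReal (Real.exp (-(γ ω'' * b.1))) * φ ω'') ?_ measurable_snd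
  exact (((hγ.comp measurable_snd).mul measurable_fst.fst).neg.exp.ennreal_ofReal).mul
    (hφ.comp measurable_snd)

theorem JF_meas (h1 : StJ1) {γ : Env → ℝ} (hγ : Measurable γ) {φ : Env → ℝ≥0∞}
    (hφ : Measurable φ) (n : ℕ) {β : Type} [MeasurableSpace β] {r u : β → ℝ} {w : β → Env}
    (hr : Measurable r) (hu : Measurable u) (hw : Measurable w) :
    Measurable fun b => jumps γ n (u b) (JF_Psi γ φ (r b)) (w b) :=
  (h1 γ hγ n _ (JF_meas_Psi hγ hφ)).comp (hr.prodMk (hu.prodMk hw))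

theorem JF_main (h1 : StJ1) {γ : Env → ℝ} (hγ : Measurable γ) (h0 : ∀ ω, 0 < γ ω)
    {φ : Env → ℝ≥0∞} (hφ : Measurable φ) (n : ℕ) : ∀ (t : ℝ) (ω : Env),
    jumps γ (n + 1) t φ ω = ∫⁻ u in Set.Ioc 0 t, jumps γ n u (JF_Psi γ φ (t - u)) ω := by
  induction n with
  | zero =>
    intro t ω
    rw [jumps]
    refine lintegral_congr fun u => ?_
    rw [jumps, JF_Psi, ENNReal.ofReal_mul (h0 ω).le, mul_comm (ENNReal.ofReal (γ ω)), mul_assoc]
    rfl
  | succ n ih =>
    intro t ω
    have hF : Measurable fun p : ℝ × ℝ => ENNReal.ofReal (γ ω * Real.exp (-(γ ω * p.1))) *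
        stepOp (jumps γ n (p.2 - p.1) (JF_Psi γ φ (t - p.2))) ω := by
      refine ((measurable_fst.const_mul _).neg.exp.const_mul _).ennreal_ofReal.mul ?_
      refine measurable_stepOp' (β := ℝ × ℝ)
        (Φ := fun p => jumps γ n (p.2 - p.1) (JF_Psi γ φ (t - p.2))) ?_ measurable_const
      exact JF_meas h1 hγ hφ n (measurable_fst.snd.const_sub t)
        (measurable_fst.snd.sub measurable_fst.fst) measurable_snd
    refine Eq.trans ?_ (JF_tri t hF)
    rw [jumps]
    refine lintegral_congr fun s => ?_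
    have hm : ∀ w, Measurable fun u => jumps γ n u (JF_Psi γ φ (t - s - u)) w := fun w =>
      JF_meas h1 hγ hφ n (measurable_id.const_sub _) measurable_id measurable_const
    rw [funext (ih (t - s)), stepOp_lintegral _ hm, ← lintegral_const_mul' _ _ ENNReal.ofReal_ne_top]
    refine lintegral_congr fun u => ?_
    simp only [add_sub_cancel_right]
    rw [show t - (u + s) = t - s - u by ring]

theorem pf_JF (h1 : StJ1) : StJF := fun _ hγ h0 n t _ hφ ω => JF_main h1 hγ h0 hφ n t ω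

theorem JF_meas_acc (h1 : StJ1) {γ : Env → ℝ} (hγ : Measurable γ) (u : ℝ) {ψ : Env → ℝ≥0∞}
    (hψ : Measurable ψ) : Measurable (accSemigroup γ u ψ) :=
  Measurable.tsum fun n =>
    (h1 γ hγ n (fun p => ψ p.2) (hψ.comp measurable_snd)).comp
      ((measurable_const (a := (0 : ℝ))).prodMk ((measurable_const (a := u)).prodMk measurable_id))

theorem JF_inv_fun (h1 : StJ1) (hL : StJL) {γ : Env → ℝ} (hγ : Measurable γ) {Q : Measure Env}
    (hQ : InvariantAcc γ Q) {u : ℝ} (hu : 0 ≤ u) {ψ : Env → ℝ≥0∞} (hψ : Measurable ψ) :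
    ∫⁻ ω, accSemigroup γ u ψ ω ∂Q = ∫⁻ ω, ψ ω ∂Q := by
  refine Measurable.ennreal_induction (motive := fun ψ =>
    ∫⁻ ω, accSemigroup γ u ψ ω ∂Q = ∫⁻ ω, ψ ω ∂Q) ?_ ?_ ?_ hψ
  · intro c A hA
    have e : (A.indicator fun _ => c) = fun ω => c * A.indicator (1 : Env → ℝ≥0∞) ω := by
      funext ω; by_cases hω : ω ∈ A <;> simp [hω]
    have hi : Measurable (A.indicator (1 : Env → ℝ≥0∞)) := measurable_one.indicator hA
    have e' : ∀ ω, accSemigroup γ u (fun ω => c * A.indicator (1 : Env → ℝ≥0∞) ω) ω =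
        c * accSemigroup γ u (A.indicator 1) ω := fun ω => by
      simp only [accSemigroup, (hL γ hγ _ u).2.2.1 c _ hi, ENNReal.tsum_mul_left]
    rw [e]
    simp only [e']
    rw [lintegral_const_mul _ (JF_meas_acc h1 hγ u hi), lintegral_const_mul _ hi, ← hQ u hu A hA,
      lintegral_indicator_one hA]
  · intro f₁ f₂ _ h₁ h₂ e₁ e₂
    have e : ∀ ω, accSemigroup γ u (f₁ + f₂) ω =
        accSemigroup γ u f₁ ω + accSemigroup γ u f₂ ω := fun ω => by
      simp only [accSemigroup, (hL γ hγ _ u).2.1 _ _ h₁ h₂, ENNReal.tsum_add]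
    simp only [e, Pi.add_apply]
    rw [lintegral_add_left (JF_meas_acc h1 hγ u h₁), lintegral_add_left h₁, e₁, e₂]
  · intro f hf hm e
    have hmono : ∀ n ω, Monotone fun k => jumps γ n u (f k) ω := fun n ω a b hab =>
      (hL γ hγ n u).1 _ _ (hm hab) ω
    have e' : ∀ ω, accSemigroup γ u (fun ω => ⨆ k, f k ω) ω =
        ⨆ k, accSemigroup γ u (f k) ω := fun ω => by
      simp only [accSemigroup, (hL γ hγ _ u).2.2.2 f hf hm, ENNReal.tsum_eq_iSup_sum]
      rw [iSup_comm]
      exact iSup_congr fun S => ENNReal.finsetSum_iSup_of_monotone fun n => hmono n ω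
    simp only [e']
    rw [lintegral_iSup (fun k => JF_meas_acc h1 hγ u (hf k))
      (fun a b hab ω => ENNReal.tsum_le_tsum fun n => hmono n ω hab), lintegral_iSup hf hm]
    exact iSup_congr e

theorem JF_int : ∫⁻ u in Set.Ioc (0 : ℝ) 1, ENNReal.ofReal (Real.exp (-(1 * (1 - u)))) =
    ENNReal.ofReal (1 - Real.exp (-1)) := by
  have hc : Continuous fun u : ℝ => Real.exp (-(1 * (1 - u))) := by fun_prop
  rw [← ofReal_integral_eq_lintegral_ofReal hc.integrableOn_Ioc
    (ae_of_all _ fun u => (Real.exp_pos _).le), ← intervalIntegral.integral_of_le zero_le_one]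
  have : (fun u : ℝ => Real.exp (-(1 * (1 - u)))) = fun u => Real.exp (u - 1) := by
    funext u; congr 1; ring
  rw [this, intervalIntegral.integral_comp_sub_right Real.exp 1, integral_exp]
  simp

theorem pf_JB (h1 : StJ1) (hL : StJL) (hF : StJF) : StJB := by
  intro Q hP hQ A hA
  have hγ : Measurable fun _ : Env => (1 : ℝ) := measurable_const
  have hi : Measurable (A.indicator (1 : Env → ℝ≥0∞)) := measurable_one.indicator hA
  set φ : Env → ℝ≥0∞ := A.indicator 1 with hφ
  have hj : ∀ n, Measurable fun p : ℝ × Env =>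
      jumps (fun _ => 1) n p.1 (JF_Psi (fun _ => 1) φ (1 - p.1)) p.2 := fun n =>
    JF_meas h1 hγ hi n (measurable_fst.const_sub _) measurable_fst measurable_snd
  have hS : Measurable fun p : ℝ × Env =>
      accSemigroup (fun _ => 1) p.1 (JF_Psi (fun _ => 1) φ (1 - p.1)) p.2 :=
    Measurable.tsum hj
  have e1 : ∀ ω, accSemigroup (fun _ => 1) 1 φ ω = ENNReal.ofReal (Real.exp (-1)) * φ ω +
      ∫⁻ u in Set.Ioc (0 : ℝ) 1,
        accSemigroup (fun _ => 1) u (JF_Psi (fun _ => 1) φ (1 - u)) ω := fun ω => by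
    rw [accSemigroup, tsum_eq_zero_add' ENNReal.summable]
    congr 1
    · simp [jumps]
    · simp only [accSemigroup]
      have hm : ∀ n, Measurable fun u : ℝ =>
          jumps (fun _ => 1) n u (JF_Psi (fun _ => 1) φ (1 - u)) ω := fun n =>
        JF_meas h1 hγ hi n (measurable_id.const_sub _) measurable_id measurable_const
      rw [lintegral_tsum fun n => (hm n).aemeasurable]
      exact tsum_congr fun n => hF _ hγ (fun _ => one_pos) n 1 φ hi ω
  have e2 : ∀ u ∈ Set.Ioc (0 : ℝ) 1,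
      ∫⁻ ω, accSemigroup (fun _ => 1) u (JF_Psi (fun _ => 1) φ (1 - u)) ω ∂Q =
        ENNReal.ofReal (Real.exp (-(1 * (1 - u)))) * ∫⁻ ω, stepOp φ ω ∂Q := fun u hu => by
    have hm : Measurable (JF_Psi (fun _ => 1) φ (1 - u)) := (JF_meas_Psi hγ hi).of_uncurry_left
    rw [JF_inv_fun h1 hL hγ hQ hu.1.le hm, ← lintegral_const_mul _ (measurable_stepOp hi)]
    refine lintegral_congr fun ω => ?_
    simp only [JF_Psi, stepOp_const_mul, ENNReal.ofReal_one, one_mul]
  have e3 := hQ 1 zero_le_one A hA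
  simp only [← hφ, e1] at e3
  rw [lintegral_add_left (hi.const_mul _), lintegral_const_mul _ hi, hφ,
    lintegral_indicator_one hA, ← hφ,
    ← lintegral_lintegral_swap (f := fun u ω =>
      accSemigroup (fun _ => 1) u (JF_Psi (fun _ => 1) φ (1 - u)) ω) hS.aemeasurable,
    setLIntegral_congr_fun measurableSet_Ioc e2, lintegral_mul_const _ (by fun_prop), JF_int] at e3
  have hlt : Real.exp (-1) < 1 := Real.exp_lt_one_iff.2 (by norm_num)
  have e4 : Q A = ENNReal.ofReal (Real.exp (-1)) * Q A +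
      ENNReal.ofReal (1 - Real.exp (-1)) * Q A := by
    rw [← add_mul, ← ENNReal.ofReal_add (Real.exp_pos _).le (by linarith)]
    simp
  have e5 := (ENNReal.add_right_inj
    (ENNReal.mul_ne_top ENNReal.ofReal_ne_top (measure_ne_top Q A))).1 (e4.symm.trans e3)
  exact (ENNReal.mul_right_inj (ENNReal.ofReal_pos.2 (by linarith)).ne' ENNReal.ofReal_ne_top).1 e5

end DRW
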