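import Pool.Agent.P.MP_de05b4_pr.Basic2

/-! The total mass of the accelerated semigroup: at most one, and at least one up to the
probability of many jumps. -/

namespace DRW

open MeasureTheory ProbabilityTheory Finset Filter
open scoped ENNReal Topology

theorem JN_int {A c t : ℝ} (hA : 0 ≤ A) (hc : 0 < c) (ht : 0 ≤ t) :
    ∫⁻ u in Set.Ioc 0 t, ENNReal.ofReal (A * (c * Real.exp (-(c * u)))) =
      ENNReal.ofReal (A * (1 - Real.exp (-(c * t)))) := by
  have hcont : Continuous fun u : ℝ => A * (c * Real.exp (-(c * u))) := by fun_prop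
  rw [← ofReal_integral_eq_lintegral_ofReal (hcont.integrableOn_Icc.mono_set Set.Ioc_subset_Icc_self)
    (Eventually.of_forall fun u => by positivity), ← intervalIntegral.integral_of_le ht]
  congr 1
  have hd : ∀ u ∈ Set.uIcc 0 t, HasDerivAt (fun u : ℝ => -(A * Real.exp (-(c * u))))
      (A * (c * Real.exp (-(c * u)))) u := by
    intro u _
    have h1 : HasDerivAt (fun u : ℝ => -(c * u)) (-(c * 1)) u :=
      ((hasDerivAt_id u).const_mul c).fun_neg
    exact (h1.exp.const_mul A).fun_neg.congr_deriv (by ring)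
  rw [intervalIntegral.integral_eq_sub_of_hasDerivAt hd (hcont.intervalIntegrable _ _)]
  simp only [mul_zero, neg_zero, Real.exp_zero]
  ring

theorem JN_one {g t : ℝ} (hg : 0 < g) (ht : 0 ≤ t) :
    ENNReal.ofReal (Real.exp (-(g * t))) +
      ∫⁻ u in Set.Ioc 0 t, ENNReal.ofReal (g * Real.exp (-(g * u))) = 1 := by
  have h := JN_int zero_le_one hg ht
  simp only [one_mul] at h
  have h1 : Real.exp (-(g * t)) ≤ 1 := Real.exp_le_one_iff.2 (by
    have := mul_nonneg hg.le ht
    linarith)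
  rw [h, ← ENNReal.ofReal_add (Real.exp_pos _).le (sub_nonneg.2 h1)]
  simp

theorem JN_two {g t : ℝ} (hg : 0 < g) (ht : 0 ≤ t) :
    ∫⁻ u in Set.Ioc 0 t,
        ENNReal.ofReal (g * Real.exp (-(g * u))) * ENNReal.ofReal (Real.exp (t - u)) ≤
      ENNReal.ofReal (Real.exp t) * ENNReal.ofReal (g / (1 + g)) := by
  have hg1 : 0 < 1 + g := by linarith
  have hA : 0 ≤ Real.exp t * (g / (1 + g)) := by positivity
  have e : ∀ u : ℝ, ENNReal.ofReal (g * Real.exp (-(g * u))) * ENNReal.ofReal (Real.exp (t - u)) =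
      ENNReal.ofReal (Real.exp t * (g / (1 + g)) * ((1 + g) * Real.exp (-((1 + g) * u)))) := by
    intro u
    rw [← ENNReal.ofReal_mul (by positivity)]
    congr 1
    have h1 : Real.exp (-(g * u)) * Real.exp (t - u) = Real.exp t * Real.exp (-((1 + g) * u)) := by
      rw [← Real.exp_add, ← Real.exp_add]
      congr 1
      ring
    rw [mul_assoc, h1]
    field_simp
  simp only [e]
  rw [JN_int hA hg1 ht, ← ENNReal.ofReal_mul (Real.exp_pos _).le]
  refine ENNReal.ofReal_le_ofReal (mul_le_of_le_one_right hA ?_)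
  have := Real.exp_pos (-((1 + g) * t))
  linarith

theorem JN_meas (h1 : StJ1) {γ : Env → ℝ} (hγ : Measurable γ) (n : ℕ) (t : ℝ) (w : Env) :
    Measurable fun u : ℝ => jumps γ n (t - u) 1 w :=
  (h1 γ hγ n (fun _ => 1) measurable_const).comp (f := fun u : ℝ => ((0 : ℝ), t - u, w))
    (measurable_const.prodMk ((measurable_const.sub measurable_id).prodMk measurable_const))

theorem JN_succ (h1 : StJ1) {γ : Env → ℝ} (hγ : Measurable γ) (m : ℕ) (t : ℝ) (ω : Env) :
    ∑ n ∈ range (m + 1), jumps γ n t 1 ω = ENNReal.ofReal (Real.exp (-(γ ω * t))) +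
      ∫⁻ u in Set.Ioc 0 t, ENNReal.ofReal (γ ω * Real.exp (-(γ ω * u))) *
        stepOp (fun w => ∑ n ∈ range m, jumps γ n (t - u) 1 w) ω := by
  rw [sum_range_succ', add_comm]
  congr 1
  · simp [jumps]
  · simp only [jumps]
    rw [← lintegral_finsetSum]
    · refine lintegral_congr fun u => ?_
      rw [← mul_sum]
      congr 1
      simp only [stepOp, mul_sum]
      exact sum_comm
    · intro n _
      refine Measurable.mul (by fun_prop) ?_
      exact Finset.measurable_sum _ fun i _ => (JN_meas h1 hγ n t _).const_mul _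

theorem JN_le (h1 : StJ1) {γ : Env → ℝ} (hγ : Measurable γ) (hpos : ∀ ω, 0 < γ ω) (m : ℕ) :
    ∀ t : ℝ, 0 ≤ t → ∀ ω, Good ω → ∑ n ∈ range m, jumps γ n t 1 ω ≤ 1 := by
  induction m with
  | zero => intro t _ ω _; simp
  | succ m ih =>
    intro t ht ω hω
    rw [JN_succ h1 hγ, ← JN_one (hpos ω) ht]
    refine add_le_add le_rfl (setLIntegral_mono' measurableSet_Ioc fun u hu => ?_)
    refine mul_le_of_le_one_right' ?_
    rw [← stepOp_const hω 1]
    exact stepOp_mono fun i => ih (t - u) (sub_nonneg.2 hu.2) _ (hω.shift _)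

theorem JN_ge (h1 : StJ1) {γ : Env → ℝ} (hγ : Measurable γ) (hpos : ∀ ω, 0 < γ ω) (m : ℕ) :
    ∀ t : ℝ, 0 ≤ t → ∀ ω, Good ω →
      1 ≤ ∑ n ∈ range m, jumps γ n t 1 ω + ENNReal.ofReal (Real.exp t) * zed γ m ω := by
  induction m with
  | zero =>
    intro t ht ω _
    simp only [range_zero, sum_empty, zed, mul_one, zero_add]
    exact ENNReal.one_le_ofReal.2 (Real.one_le_exp ht)
  | succ m ih =>
    intro t ht ω hω
    have hm : Measurable fun u : ℝ => ENNReal.ofReal (γ ω * Real.exp (-(γ ω * u))) *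
        ENNReal.ofReal (Real.exp (t - u)) := by fun_prop
    have h2 : ∫⁻ u in Set.Ioc 0 t, ENNReal.ofReal (γ ω * Real.exp (-(γ ω * u))) *
        ENNReal.ofReal (Real.exp (t - u)) * stepOp (zed γ m) ω ≤
        ENNReal.ofReal (Real.exp t) * zed γ (m + 1) ω := by
      rw [lintegral_mul_const _ hm, zed, ← mul_assoc]
      exact mul_le_mul_left (JN_two (hpos ω) ht) _
    rw [JN_succ h1 hγ, add_assoc]
    refine le_trans (JN_one (hpos ω) ht).ge (add_le_add le_rfl (le_trans ?_ (add_le_add le_rfl h2)))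
    rw [← lintegral_add_right _ (hm.mul_const _)]
    refine setLIntegral_mono' measurableSet_Ioc fun u hu => ?_
    rw [mul_assoc, ← mul_add, ← stepOp_const_mul, ← stepOp_add]
    refine le_mul_of_one_le_right' ?_
    rw [← stepOp_const hω 1]
    exact stepOp_mono fun i => ih (t - u) (sub_nonneg.2 hu.2) _ (hω.shift _)

theorem pf_JN (h1 : StJ1) : StJN := by
  intro γ hγ hpos t ht ω hω
  refine ⟨?_, fun m => ?_⟩
  · rw [accSemigroup, ENNReal.tsum_eq_iSup_nat]
    exact iSup_le fun m => JN_le h1 hγ hpos m t ht ω hω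
  · exact (JN_ge h1 hγ hpos m t ht ω hω).trans (add_le_add (ENNReal.sum_le_tsum _) le_rfl)

end DRW
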