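import Pool.Agent.P.MP_de05b4_pr.Basic2

/-! Lower bound for the mean weighted stationary mass, and approximate invariance on a strip. -/

namespace DRW

open MeasureTheory ProbabilityTheory Finset Filter
open scoped ENNReal Topology

theorem Low2_col {N : ℕ} [NeZero N] (x : T N) (k : ℕ) (h : col x + k < N) :
    col (x + k • dr N 0) = col x + k := by
  induction k with
  | zero => simp
  | succ k ih =>
    have h1 := ih (by omega)
    rw [succ_nsmul, ← add_assoc, col_add0 (by omega), h1, add_assoc]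

theorem Low2_om_dep {N : ℕ} {G G' : E N → ℝ} (e : E N) (h : ∀ i, G (e.1, i) = G' (e.1, i)) :
    om G e = om G' e := by
  unfold om Zs
  rw [sum_congr rfl fun i _ => h i]
  congr 1
  exact h e.2

theorem Low2_om (hO : StOm) {α : Fin 4 → ℝ} (hα : ∀ i, 0 < α i) (N : ℕ) [NeZero N] (e : E N) :
    ∫⁻ G, ENNReal.ofReal (om G e) ∂mu (al N α) = ENNReal.ofReal (α e.2 / ∑ i, α i) := by
  have h := hO N (al N α) (pos_al hα) e (fun _ => 1) measurable_const fun _ _ _ _ => rfl
  have := prob_mu (pos_bump (pos_al (N := N) hα) e)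
  simp only [mul_one, lintegral_const, measure_univ] at h
  rw [h, Zs_al]
  rfl

theorem pf_Low2 (hS : StStat) (hA : StA) (hI : StInd) (hIN : StIndN) (hO : StOm) : StLow2 := by
  intro α hα R
  have hA0 : 0 < ∑ i, α i := sum_pos (fun i _ => hα.1 i) univ_nonempty
  have hq : 0 < α 0 / ∑ i, α i := div_pos (hα.1 0) hA0
  have hd : 0 < α 0 - α 2 := sub_pos.2 hα.2
  refine ⟨(α 0 - α 2) * (α 0 / ∑ i, α i) ^ R, mul_pos hd (pow_pos hq R), ?_⟩
  intro N _ K hK x hx
  have hx' := mem_Wd.1 hx
  have hβ := pos_al (N := N) hα.1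
  have hcol : ∀ k < R, col (x + k • dr N 0) = col x + k := fun k hk =>
    Low2_col x k (by omega)
  have h1 : Ex (al N α) (fun G => FL 0 (col x) {x} G * pathP R x 0 G) ≤
      Ex (al N α) fun G => pii 0 K x G * SRt R x G := by
    refine Ex_mono hβ fun G hG => ?_
    have h := ((hS N K (by omega) G hG).1 x hx).2.2.2
    have h0 := FL_nonneg hG 0 (col x) {x}
    refine mul_le_mul h ?_ (pathP_pos hG R x 0).le (h0.trans h)
    exact single_le_sum (f := fun i => pathP R x i G) (fun i _ => (pathP_pos hG R x i).le)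
      (mem_univ 0)
  have h2 : Ex (al N α) (fun G => FL 0 (col x) {x} G * pathP R x 0 G) =
      ∫⁻ G, ENNReal.ofReal (FL 0 (col x) {x} G) *
        ∏ k ∈ range R, ENNReal.ofReal (om G (pe x 0 k)) ∂mu (al N α) := by
    refine lintegral_congr_ae ((ae_pos hβ).mono fun G hG => ?_)
    dsimp only
    rw [ENNReal.ofReal_mul (FL_nonneg hG 0 (col x) {x}), pathP,
      ENNReal.ofReal_prod_of_nonneg fun k _ => (om_pos hG _).le]
  have h3 := hI N (al N α) hβ {e | col e.1 < col x}
    (fun G => ENNReal.ofReal (FL 0 (col x) {x} G))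
    (fun G => ∏ k ∈ range R, ENNReal.ofReal (om G (pe x 0 k)))
    (measurable_FL 0 (col x) {x}).ennreal_ofReal
    (Finset.measurable_prod _ fun k _ => (measurable_om _).ennreal_ofReal)
    (fun G G' h => by
      dsimp only
      rw [FL_dep hx'.1 {x} fun e he => h e he])
    (fun G G' h => by
      refine prod_congr rfl fun k hk => ?_
      rw [Low2_om_dep (pe x 0 k) fun i => h _ ?_]
      have := hcol k (mem_range.1 hk)
      simp only [pe, Set.mem_compl_iff, Set.mem_setOf_eq, not_lt]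
      omega)
  have h4 := hIN N (al N α) hβ R (fun k => {e | e.1 = x + k • dr N 0})
    (fun k G => ENNReal.ofReal (om G (pe x 0 k))) (fun k => (measurable_om _).ennreal_ofReal)
    (fun k G G' h => by
      dsimp only
      rw [Low2_om_dep (pe x 0 k) fun i => h _ rfl])
    (fun k hk l hl hkl => by
      rw [Set.disjoint_left]
      intro e h1 h2
      have a1 := hcol k hk
      have a2 := hcol l hl
      simp only [Set.mem_setOf_eq] at h1 h2
      rw [← h1] at a1
      rw [← h2] at a2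
      omega)
  have h5 := ((hA α hα N).1 0 (col x) hx'.1 (by omega)).2.1 {x}
    (singleton_subset_iff.2 (mem_Col.2 rfl))
  have h6 := (hA α hα N).2.1 (col x - 0)
  refine le_trans ?_ h1
  rw [h2, h3, h4, prod_congr rfl fun k _ => Low2_om hO hα.1 N (pe x 0 k)]
  change _ ≤ Ex (al N α) (FL 0 (col x) {x}) * _
  rw [h5, ENNReal.ofReal_mul hd.le, ENNReal.ofReal_pow hq.le]
  simp only [pe, prod_const, card_range, card_singleton, Nat.cast_one, one_mul]
  exact mul_le_mul_left (ENNReal.ofReal_le_ofReal (by linarith)) _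

theorem pf_Test2 (hS : StStat) : StTest2 := by
  intro N _ K _ hK G hG φ h0 h1
  have hW := Wd_ne_univ (N := N) 0 K
  have hesc : ∀ x ∈ Wd N 0 K, 0 < esc 0 K x G := fun x hx => ((hS N K hK G hG).1 x hx).1
  set d : T N → ℝ := fun x => φ x - ∑ i, om G (x, i) * φ (x + dr N i) with hd
  have hdl : ∀ x, Zs G x * d x = -lap G φ x := fun x => by
    have hZ := Zs_pos hG x
    rw [lap_eq, hd]
    simp only [mul_sub, mul_sum, om]
    rw [sum_congr rfl fun i _ => show Zs G x * (G (x, i) / Zs G x * φ (x + dr N i)) =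
      G (x, i) * φ (x + dr N i) by field_simp]
    ring
  have hoff : ∀ z, z ∉ Wd N 0 K →
      ∑ x ∈ Wd N 0 K, d x / esc 0 K x G * gx 0 K x G z = φ z - har (Wd N 0 K) φ G z :=
    fun z hz => by
      rw [har_off hG hW φ hz, sub_self]
      exact sum_eq_zero fun x hx => by rw [gx_off hG hx hz, mul_zero]
  have key : ∀ z, ∑ x ∈ Wd N 0 K, d x / esc 0 K x G * gx 0 K x G z =
      φ z - har (Wd N 0 K) φ G z := fun z => by
    by_cases hz : z ∈ Wd N 0 K
    · refine eq_of_lap hG hW (f := fun z => ∑ x ∈ Wd N 0 K, d x / esc 0 K x G * gx 0 K x G z)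
        (g := fun z => φ z - har (Wd N 0 K) φ G z) (fun y hy => ?_)
        (fun y _ i hi => hoff _ hi) z hz
      rw [lap_sum, lap_sub, har_lap hG hW φ hy, sub_zero, sum_eq_single_of_mem y hy]
      · rw [lap_mul, gx_lap hG y hy, if_pos rfl]
        have := hesc y hy
        have h := hdl y
        field_simp
        linarith
      · intro x _ hxy
        rw [lap_mul, gx_lap hG x hy, if_neg hxy.symm, mul_zero]
    · exact hoff z hz
  have h3 : ∑ x ∈ Wd N 0 K, pii 0 K x G * d x =
      Fx G (Src N 0 K) fun z => φ z - har (Wd N 0 K) φ G z := by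
    rw [← Fx_congr G (S := Src N 0 K)
      (g := fun z => ∑ x ∈ Wd N 0 K, d x / esc 0 K x G * gx 0 K x G z) fun e _ => key _, Fx_sum]
    refine sum_congr rfl fun x _ => ?_
    rw [Fx_mul]
    unfold pii HH
    ring
  have a0 : ∀ z, 0 ≤ har (Wd N 0 K) φ G z := har_nonneg hG hW h0
  have a1 : ∀ z, har (Wd N 0 K) φ G z ≤ 1 := har_le hG hW fun x _ => h1 x
  have b1 : Fx G (Src N 0 K) (fun z => φ z - har (Wd N 0 K) φ G z) ≤ ∑ e ∈ Src N 0 K, G e :=
    Fx_le_sum hG fun e _ => by linarith [h1 (tg e), a0 (tg e)]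
  have b2 : Fx G (Src N 0 K) (fun z => har (Wd N 0 K) φ G z - φ z) ≤ ∑ e ∈ Src N 0 K, G e :=
    Fx_le_sum hG fun e _ => by linarith [h0 (tg e), a1 (tg e)]
  rw [Fx_sub] at b1 b2 h3
  have h4 : (∑ x ∈ Wd N 0 K, pii 0 K x G * ∑ i, om G (x, i) * φ (x + dr N i))
      - ∑ x ∈ Wd N 0 K, pii 0 K x G * φ x = -∑ x ∈ Wd N 0 K, pii 0 K x G * d x := by
    rw [← sum_sub_distrib, ← sum_neg_distrib]
    refine sum_congr rfl fun x _ => ?_
    rw [hd]
    ring
  rw [h4, h3, abs_le]
  constructor <;> linarith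

end DRW
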