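import Pool.Agent.P.MP_de05b4_pr.Basic2
import Pool.Agent.P.MP_de05b4_pr.R.Scale

/-! The cost of deepening a trap. -/

namespace DRW

open MeasureTheory ProbabilityTheory Finset Filter
open scoped ENNReal Topology

theorem N1_meas_dsite (j : Fin 4) (t : ℝ) : Measurable (dsite j t) := by
  unfold dsite
  refine measurable_nrm.comp (measurable_pi_lambda _ fun i => ?_)
  by_cases h : i = j
  · simp only [h, if_true]; exact measurable_pi_apply j
  · simp only [h, if_false]; fun_prop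

theorem N1_nrm_mul {c : ℝ} (hc : c ≠ 0) (g : Fin 4 → ℝ) : nrm (fun i => c * g i) = nrm g := by
  funext i
  unfold nrm
  rw [← mul_sum, mul_div_mul_left _ _ hc]

theorem N1_dsite_nrm (j : Fin 4) {t : ℝ} {g : Fin 4 → ℝ} (hg : ∀ i, 0 < g i) :
    dsite j t (nrm g) = nrm fun i => (if i = j then 1 else t⁻¹)⁻¹ * g i := by
  have hs : 0 < ∑ k, g k := sum_pos (fun k _ => hg k) univ_nonempty
  rw [← N1_nrm_mul (inv_pos.2 hs).ne' fun i => (if i = j then 1 else t⁻¹)⁻¹ * g i]
  unfold dsite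
  refine congrArg nrm (funext fun i => ?_)
  unfold nrm
  by_cases h : i = j
  · simp only [h, if_true, inv_one, one_mul]
    rw [div_eq_inv_mul]
  · simp only [h, if_false, inv_inv]
    rw [div_eq_inv_mul, mul_left_comm]

theorem N1_dens (α : Fin 4 → ℝ) (j : Fin 4) {t : ℝ} (ht : 0 < t) (ht1 : t ≤ 1)
    {g : Fin 4 → ℝ} (hg : ∀ i, 0 < g i) :
    ENNReal.ofReal (t ^ (∑ i, α i - α j)) *
      ∏ i, ENNReal.ofReal ((if i = j then 1 else t⁻¹) ^ α i *
        Real.exp (-((if i = j then 1 else t⁻¹) - 1) * g i)) ≤ 1 := by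
  have e1 : ∑ i, α i - α j = ∑ i, if i = j then 0 else α i := by
    have : ∀ i, (if i = j then 0 else α i) = α i - if i = j then α i else 0 := fun i => by
      split_ifs <;> simp
    simp only [this, sum_sub_distrib, sum_ite_eq', mem_univ, if_true]
  rw [e1, Real.rpow_sum_of_pos ht,
    ENNReal.ofReal_prod_of_nonneg fun i _ => Real.rpow_nonneg ht.le _, ← prod_mul_distrib]
  refine prod_le_one' fun i _ => ?_
  rw [← ENNReal.ofReal_mul (Real.rpow_nonneg ht.le _)]
  refine ENNReal.ofReal_le_one.2 ?_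
  by_cases h : i = j
  · simp [h]
  · simp only [h, if_false]
    have h1 : 1 ≤ t⁻¹ := (one_le_inv₀ ht).2 ht1
    rw [← mul_assoc, ← Real.mul_rpow ht.le (inv_pos.2 ht).le, mul_inv_cancel₀ ht.ne',
      Real.one_rpow, one_mul]
    refine Real.exp_le_one_iff.2 ?_
    have := hg i
    nlinarith

theorem pf_N1a : StN1a := by
  intro α hα j t ht ht1 ψ hψ
  have hk : ∀ i : Fin 4, 0 < (if i = j then 1 else t⁻¹) := fun i => by
    split_ifs <;> positivity
  have hφ : Measurable fun g => ψ (nrm g) := hψ.comp measurable_nrm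
  have h := congrArg (fun m => ∫⁻ G, ψ (nrm G) ∂m) (Scale_pi hα hk)
  have hd : Measurable fun G : Fin 4 → ℝ => ∏ i, ENNReal.ofReal ((if i = j then 1 else t⁻¹) ^ α i *
      Real.exp (-((if i = j then 1 else t⁻¹) - 1) * G i)) := by fun_prop
  rw [lintegral_withDensity_eq_lintegral_mul _ hd hφ, lintegral_map hφ (by fun_prop)] at h
  have hψ' : Measurable fun v => ψ (dsite j t v) := hψ.comp (N1_meas_dsite j t)
  rw [dirichlet_eq, lintegral_map hψ' measurable_nrm, lintegral_map hψ measurable_nrm]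
  have h1 : ∫⁻ g, ψ (dsite j t (nrm g)) ∂gam α =
      ∫⁻ g, ψ (nrm fun i => (if i = j then 1 else t⁻¹)⁻¹ * g i) ∂gam α :=
    lintegral_congr_ae ((gam_ae_pos hα).mono fun g hg => by
      simp only
      rw [N1_dsite_nrm j hg])
  have h2 := h1.trans h.symm
  refine le_trans (le_of_eq (congrArg (ENNReal.ofReal (t ^ (∑ i, α i - α j)) * ·) h2)) ?_
  rw [← lintegral_const_mul' _ _ ENNReal.ofReal_ne_top]
  refine lintegral_mono_ae ((gam_ae_pos hα).mono fun g hg => ?_)
  simp only [Pi.mul_apply]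
  rw [← mul_assoc]
  exact mul_le_of_le_one_left' (N1_dens α j ht ht1 hg)

theorem N1_meas_upd (x : ℤ × ℤ) {F : (Fin 4 → ℝ) → Fin 4 → ℝ} (hF : Measurable F) :
    Measurable fun ω : Env => Function.update ω x (F (ω x)) :=
  measurable_update'.comp (measurable_id.prodMk (hF.comp (measurable_pi_apply x)))

theorem N1_site (ha : StN1a) (hU : StUpd) {α : Fin 4 → ℝ} (hα : ∀ i, 0 < α i) (j : Fin 4)
    {t : ℝ} (ht : 0 < t) (ht1 : t ≤ 1) (x : ℤ × ℤ) {Ψ : Env → ℝ≥0∞} (hΨ : Measurable Ψ) :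
    ENNReal.ofReal (t ^ (∑ i, α i - α j)) *
      ∫⁻ ω, Ψ (Function.update ω x (dsite j t (ω x))) ∂law α ≤ ∫⁻ ω, Ψ ω ∂law α := by
  have := prob_dirichlet hα
  have h1 := hU (dirichlet α) x Ψ hΨ
  have h2 := hU (dirichlet α) x (fun ω => Ψ (Function.update ω x (dsite j t (ω x))))
    (hΨ.comp (N1_meas_upd x (N1_meas_dsite j t)))
  unfold law
  rw [h1, h2, ← lintegral_const_mul' _ _ ENNReal.ofReal_ne_top]
  refine lintegral_mono fun ω => ?_
  simp only [Function.update_idem, Function.update_self]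
  exact ha α hα j t ht ht1 (fun v => Ψ (Function.update ω x v)) (hΨ.comp (measurable_update ω))

theorem N1_Dt (t : ℝ) (ω : Env) :
    Dt t ω = Function.update (Function.update ω (0, 0) (dsite 0 t (ω (0, 0)))) (1, 0)
      (dsite 2 t (Function.update ω (0, 0) (dsite 0 t (ω (0, 0))) (1, 0))) := by
  have hne : ((1, 0) : ℤ × ℤ) ≠ (0, 0) := by decide
  funext x
  unfold Dt
  by_cases h0 : x = (0, 0)
  · subst h0
    rw [if_pos rfl, Function.update_of_ne hne.symm, Function.update_self]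
  · by_cases h1 : x = (1, 0)
    · subst h1
      rw [if_neg h0, if_pos rfl, Function.update_self, Function.update_of_ne hne]
    · rw [if_neg h0, if_neg h1, Function.update_of_ne h1, Function.update_of_ne h0]

theorem pf_N1 (ha : StN1a) (hU : StUpd) : StN1 := by
  intro α hα t ht ht1 Ψ hΨ
  have hΨ' : Measurable fun ω : Env => Ψ (Function.update ω (1, 0) (dsite 2 t (ω (1, 0)))) :=
    hΨ.comp (N1_meas_upd (1, 0) (N1_meas_dsite 2 t))
  have h1 := N1_site ha hU hα 2 ht ht1 (1, 0) hΨ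
  have h2 := N1_site ha hU hα 0 ht ht1 (0, 0) hΨ'
  have e : 2 * ∑ i, α i - (α 0 + α 2) = (∑ i, α i - α 2) + (∑ i, α i - α 0) := by ring
  rw [e, Real.rpow_add ht, ENNReal.ofReal_mul (Real.rpow_nonneg ht.le _), mul_assoc]
  simp only [N1_Dt]
  exact le_trans (mul_le_mul_right h2 _) h1

end DRW
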