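import Pool.Agent.P.MP_de05b4_pr.Basic2

/-! No absolutely continuous invariant probability when the trapping parameter is at most one. -/

namespace DRW

open MeasureTheory ProbabilityTheory Finset Filter
open scoped ENNReal Topology

theorem N10_cK_zero (ω : Env) {x : ℤ × ℤ} (hx : x ∉ NK) : cK ω x = 0 := by
  unfold cK
  split_ifs with h
  · rfl
  · refine sum_eq_zero fun i _ => if_neg fun hi => ?_
    obtain ⟨a, b⟩ := x
    simp only [NK, KK, mem_insert, mem_singleton, Prod.mk.injEq, not_or, not_and] at hx h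
    fin_cases i <;> simp [KK, dir] at hi <;> omega

theorem N10_InK (ω : Env) (π : ℤ × ℤ → ℝ≥0∞) : ∑' x, π x * cK ω x =
    (π (-1, 0) * ENNReal.ofReal (ω (-1, 0) 0) + π (0, -1) * ENNReal.ofReal (ω (0, -1) 1) +
      π (0, 1) * ENNReal.ofReal (ω (0, 1) 3)) +
    (π (1, -1) * ENNReal.ofReal (ω (1, -1) 1) + π (2, 0) * ENNReal.ofReal (ω (2, 0) 2) +
      π (1, 1) * ENNReal.ofReal (ω (1, 1) 3)) := by
  rw [tsum_eq_sum (s := NK) fun x hx => by rw [N10_cK_zero ω hx, mul_zero]]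
  have e1 : cK ω (-1, 0) = ENNReal.ofReal (ω (-1, 0) 0) := by
    simp [cK, KK, dir, Fin.sum_univ_four]
  have e2 : cK ω (0, 1) = ENNReal.ofReal (ω (0, 1) 3) := by
    simp [cK, KK, dir, Fin.sum_univ_four]
  have e3 : cK ω (0, -1) = ENNReal.ofReal (ω (0, -1) 1) := by
    simp [cK, KK, dir, Fin.sum_univ_four]
  have e4 : cK ω (2, 0) = ENNReal.ofReal (ω (2, 0) 2) := by
    simp [cK, KK, dir, Fin.sum_univ_four]
  have e5 : cK ω (1, 1) = ENNReal.ofReal (ω (1, 1) 3) := by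
    simp [cK, KK, dir, Fin.sum_univ_four]
  have e6 : cK ω (1, -1) = ENNReal.ofReal (ω (1, -1) 1) := by
    simp [cK, KK, dir, Fin.sum_univ_four]
  unfold NK
  rw [sum_insert (by decide), sum_insert (by decide), sum_insert (by decide),
    sum_insert (by decide), sum_insert (by decide), sum_singleton, e1, e2, e3, e4, e5, e6]
  ring

theorem N10_det {ω : Env} (hg : Good ω) {t : ℝ} (ht : 0 < t) (hs : ω ∈ Sh t)
    (π : ℤ × ℤ → ℝ≥0∞) (hfin : ∀ x, π x ≠ ⊤)
    (hsite : ∀ y, π y = ∑ i, π (y - dir i) * ENNReal.ofReal (ω (y - dir i) i)) :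
    ∑' x, π x * cK ω x ≤ ENNReal.ofReal (6 * t / 100) * (π (0, 0) + π (1, 0)) := by
  rw [N10_InK]
  have h0 := hsite (0, 0)
  have h1 := hsite (1, 0)
  simp only [Fin.sum_univ_four] at h0 h1
  have d0 : dir 0 = (1, 0) := rfl
  have d1 : dir 1 = (0, 1) := rfl
  have d2 : dir 2 = (-1, 0) := rfl
  have d3 : dir 3 = (0, -1) := rfl
  rw [d0, d1, d2, d3] at h0 h1
  simp only [Prod.mk_sub_mk, zero_sub, sub_zero, sub_self, sub_neg_eq_add, zero_add] at h0 h1
  have h11 : (1 : ℤ) + 1 = 2 := rfl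
  have h00 : (0 : ℤ × ℤ) = (0, 0) := rfl
  rw [h11, h00] at h1
  obtain ⟨s0, s1, -⟩ := hs
  have ha : 1 ≤ ω (0, 0) 0 + 6 * t / 100 := by
    have hsum := hg.sum (0, 0)
    rw [Fin.sum_univ_four] at hsum
    have a1 := (s0 1 (by decide)).2
    have a2 := (s0 2 (by decide)).2
    have a3 := (s0 3 (by decide)).2
    have a0 := hg.le_one (0, 0) 0
    nlinarith
  have hb : 1 ≤ ω (1, 0) 2 + 6 * t / 100 := by
    have hsum := hg.sum (1, 0)
    rw [Fin.sum_univ_four] at hsum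
    have a1 := (s1 0 (by decide)).2
    have a2 := (s1 1 (by decide)).2
    have a3 := (s1 3 (by decide)).2
    have a0 := hg.le_one (1, 0) 2
    nlinarith
  have he : (0 : ℝ) ≤ 6 * t / 100 := by positivity
  have ha' : (1 : ℝ≥0∞) ≤ ENNReal.ofReal (ω (0, 0) 0) + ENNReal.ofReal (6 * t / 100) := by
    rw [← ENNReal.ofReal_add (hg.pos _ _).le he, ← ENNReal.ofReal_one]
    exact ENNReal.ofReal_le_ofReal ha
  have hb' : (1 : ℝ≥0∞) ≤ ENNReal.ofReal (ω (1, 0) 2) + ENNReal.ofReal (6 * t / 100) := by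
    rw [← ENNReal.ofReal_add (hg.pos _ _).le he, ← ENNReal.ofReal_one]
    exact ENNReal.ofReal_le_ofReal hb
  have hF : π (0, 0) * ENNReal.ofReal (ω (0, 0) 0) + π (1, 0) * ENNReal.ofReal (ω (1, 0) 2) ≠ ⊤ :=
    ENNReal.add_ne_top.2 ⟨ENNReal.mul_ne_top (hfin _) ENNReal.ofReal_ne_top,
      ENNReal.mul_ne_top (hfin _) ENNReal.ofReal_ne_top⟩
  refine ENNReal.le_of_add_le_add_right hF ?_
  calc _ = π (0, 0) + π (1, 0) := by
        rw [congrArg₂ (· + ·) h0 h1]
        ring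
    _ = π (0, 0) * 1 + π (1, 0) * 1 := by rw [mul_one, mul_one]
    _ ≤ π (0, 0) * (ENNReal.ofReal (ω (0, 0) 0) + ENNReal.ofReal (6 * t / 100)) +
        π (1, 0) * (ENNReal.ofReal (ω (1, 0) 2) + ENNReal.ofReal (6 * t / 100)) := by
        gcongr
    _ = _ := by ring

theorem N10_disj {ω : Env} (hg : Good ω) {i j : ℕ} (hi : ω ∈ Sh ((1 / 2 : ℝ) ^ i))
    (hj : ω ∈ Sh ((1 / 2 : ℝ) ^ j)) : i = j := by
  have key : ∀ {i j : ℕ}, ω ∈ Sh ((1 / 2 : ℝ) ^ i) → ω ∈ Sh ((1 / 2 : ℝ) ^ j) → ¬ i < j := by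
    intro i j hi hj hlt
    have a := (hi.1 1 (by decide)).1
    have b := (hj.1 1 (by decide)).2
    have hp := hg.pos (0, 0) 0
    have hle : (1 / 2 : ℝ) ^ j ≤ (1 / 2 : ℝ) ^ (i + 1) :=
      pow_le_pow_of_le_one (by norm_num) (by norm_num) hlt
    rw [pow_succ] at hle
    nlinarith
  exact le_antisymm (not_lt.1 (key hj hi)) (not_lt.1 (key hi hj))

theorem N10_sum_ind {ω : Env} (hg : Good ω) (n : ℕ) :
    ∑ j ∈ range n, (Sh ((1 / 2 : ℝ) ^ j)).indicator (1 : Env → ℝ≥0∞) ω ≤ 1 := by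
  by_cases h : ∃ i, ω ∈ Sh ((1 / 2 : ℝ) ^ i)
  · obtain ⟨i, hi⟩ := h
    by_cases hin : i ∈ range n
    · rw [sum_eq_single_of_mem i hin fun j _ hji =>
        Set.indicator_of_notMem (fun hj => hji (N10_disj hg hj hi)) _, Set.indicator_of_mem hi]
      exact le_rfl
    · rw [sum_eq_zero fun j hj => Set.indicator_of_notMem
        (fun hj' => hin (N10_disj hg hj' hi ▸ hj)) _]
      exact zero_le_one
  · rw [sum_eq_zero fun j _ => Set.indicator_of_notMem (fun hj => h ⟨j, hj⟩) _]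
    exact zero_le_one

theorem pf_N10 (h7 : StN7) (h9 : StN9) (hm : StNMeas) : StN10 := by
  intro α hα hk hex
  obtain ⟨f, hf⟩ := h7 α hα hex
  obtain ⟨c, hc, hlow⟩ := h9 α hα f hf
  have hSh : ∀ t, MeasurableSet (Sh t) := (hm 1).2.2.2.2.1
  set p : Env → ℝ≥0∞ := fun ω => f (shift (0, 0) ω) + f (shift (1, 0) ω) with hp
  have hpm : Measurable p :=
    (hf.meas.comp (measurable_shift _)).add (hf.meas.comp (measurable_shift _))
  have hp2 : ∫⁻ ω, p ω ∂law α = 2 := by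
    simp only [hp]
    rw [lintegral_add_left (f := fun ω => f (shift (0, 0) ω))
      (hf.meas.comp (measurable_shift _)), lintegral_shift hα _ hf.meas,
      lintegral_shift hα _ hf.meas, hf.mass, one_add_one_eq_two]
  have him : ∀ t, Measurable fun ω => (Sh t).indicator (1 : Env → ℝ≥0∞) ω * p ω := fun t =>
    (measurable_one.indicator (hSh t)).mul hpm
  -- each shell carries a fixed mass
  have hterm : ∀ t : ℝ, 0 < t → t ≤ 1 → ENNReal.ofReal (100 * c / 6) ≤
      ∫⁻ ω, (Sh t).indicator 1 ω * p ω ∂law α := by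
    intro t ht ht1
    have h1 : ∫⁻ ω, (Sh t).indicator 1 ω * InK f ω ∂law α ≤
        ENNReal.ofReal (6 * t / 100) * ∫⁻ ω, (Sh t).indicator 1 ω * p ω ∂law α := by
      rw [← lintegral_const_mul _ (him t)]
      refine lintegral_mono_ae ?_
      filter_upwards [ae_good hα, hf.site] with ω hg hsite
      by_cases hω : ω ∈ Sh t
      · rw [Set.indicator_of_mem hω, Pi.one_apply, one_mul, one_mul]
        exact N10_det hg ht hω (fun x => f (shift x ω)) (fun x => hf.fin _) hsite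
      · rw [Set.indicator_of_notMem hω, zero_mul]
        exact zero_le
    have h2 : t ≤ t ^ (2 * ∑ i, α i - (α 0 + α 2)) := by
      have := Real.rpow_le_rpow_of_exponent_ge ht ht1 hk
      rwa [Real.rpow_one] at this
    have he : (0 : ℝ) < 6 * t / 100 := by positivity
    have h3 : ENNReal.ofReal (6 * t / 100) * ENNReal.ofReal (100 * c / 6) ≤
        ENNReal.ofReal (6 * t / 100) * ∫⁻ ω, (Sh t).indicator 1 ω * p ω ∂law α := by
      refine le_trans ?_ ((hlow t ht ht1).trans h1)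
      rw [← ENNReal.ofReal_mul he.le]
      refine ENNReal.ofReal_le_ofReal ?_
      have : 6 * t / 100 * (100 * c / 6) = c * t := by ring
      rw [this]
      exact mul_le_mul_of_nonneg_left h2 hc.le
    exact (ENNReal.mul_le_mul_iff_right (ENNReal.ofReal_pos.2 he).ne' ENNReal.ofReal_ne_top).1 h3
  have hsum : ∀ n : ℕ, (n : ℝ≥0∞) * ENNReal.ofReal (100 * c / 6) ≤ 2 := by
    intro n
    calc (n : ℝ≥0∞) * ENNReal.ofReal (100 * c / 6)
        = ∑ _j ∈ range n, ENNReal.ofReal (100 * c / 6) := by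
          rw [sum_const, card_range, nsmul_eq_mul]
      _ ≤ ∑ j ∈ range n, ∫⁻ ω, (Sh ((1 / 2 : ℝ) ^ j)).indicator 1 ω * p ω ∂law α :=
          sum_le_sum fun j _ => hterm _ (by positivity)
            (pow_le_one₀ (by norm_num) (by norm_num))
      _ = ∫⁻ ω, ∑ j ∈ range n, (Sh ((1 / 2 : ℝ) ^ j)).indicator 1 ω * p ω ∂law α :=
          (lintegral_finsetSum _ fun j _ => him _).symm
      _ ≤ ∫⁻ ω, p ω ∂law α := by
          refine lintegral_mono_ae ?_
          filter_upwards [ae_good hα] with ω hg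
          rw [← sum_mul]
          calc _ ≤ 1 * p ω := mul_le_mul_left (N10_sum_ind hg n) _
            _ = p ω := one_mul _
      _ = 2 := hp2
  have hd : (0 : ℝ) < 100 * c / 6 := by positivity
  obtain ⟨n, hn⟩ := exists_nat_gt (2 / (100 * c / 6))
  have h := hsum n
  rw [← ENNReal.ofReal_natCast, ← ENNReal.ofReal_mul (Nat.cast_nonneg n),
    ← ENNReal.ofReal_ofNat 2, ENNReal.ofReal_le_ofReal_iff (by norm_num)] at h
  rw [div_lt_iff₀ hd] at hn
  linarith

end DRW
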