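import Pool.Agent.P.MP_de05b4_pr.Basic2

/-! Comparison of the expected number of entrances for two depths of the trap. -/

namespace DRW

open MeasureTheory ProbabilityTheory Finset Filter
open scoped ENNReal Topology

theorem N2_half {a b A B t u U : ℝ} (ha : 0 < a) (hb : 0 < b) (hb1 : b ≤ 1) (ht : 0 < t)
    (ht1 : t ≤ 1) (hA : A ≤ a * (1 + U)) (hU : U * (a + b) ≤ A + B + t * a * b)
    (hu : u * (a + b + t * a * b) = A + B + t * b * A) :
    (A + B + b * A) / (a + b + a * b) ≤ u + 1 / 2 := by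
  have hD : 0 < a + b + t * a * b := by positivity
  have h1 : A - a * u ≤ a := by
    refine le_of_mul_le_mul_right ?_ hD
    have : A * (a + b) ≤ a * (1 + U) * (a + b) := mul_le_mul_of_nonneg_right hA (by positivity)
    have h2 : a * (U * (a + b)) ≤ a * (A + B + t * a * b) := mul_le_mul_of_nonneg_left hU ha.le
    have h3 : a * (u * (a + b + t * a * b)) = a * (A + B + t * b * A) := by rw [hu]
    nlinarith
  rw [div_le_iff₀ (by positivity)]
  have h4 : (1 - t) * b * (A - a * u) ≤ (1 - t) * b * a :=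
    mul_le_mul_of_nonneg_left h1 (mul_nonneg (by linarith) hb.le)
  have h5 : 0 ≤ t * b * a := by positivity
  have h6 : a * b ≤ a * 1 := mul_le_mul_of_nonneg_left hb1 ha.le
  nlinarith

theorem pf_N2a : StN2a := by
  intro a b A B t u₀ u₁ ha ha' hb hb' ht ht1 hA hB hAU hBU e0 e1
  have hD : 0 < a + b + a * b := by positivity
  have f0 : u₀ * (a + b + t * a * b) = A + B + t * b * A := by
    refine mul_left_cancel₀ ht.ne' ?_
    linear_combination (1 + t * b) * e0 + e1
  have f1 : u₁ * (b + a + t * b * a) = B + A + t * a * B := by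
    refine mul_left_cancel₀ ht.ne' ?_
    linear_combination (1 + t * a) * e1 + e0
  have hU : max u₀ u₁ * (a + b) ≤ A + B + t * a * b := by
    have k0 : t * b * A ≤ t * b * (a * (1 + max u₀ u₁)) :=
      mul_le_mul_of_nonneg_left hAU (by positivity)
    have k1 : t * a * B ≤ t * a * (b * (1 + max u₀ u₁)) :=
      mul_le_mul_of_nonneg_left hBU (by positivity)
    rcases le_total u₀ u₁ with h | h
    · rw [max_eq_right h] at *; nlinarith
    · rw [max_eq_left h] at *; nlinarith
  refine ⟨(A + B + b * A) / (a + b + a * b), (B + A + a * B) / (b + a + b * a), by positivity,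
    by positivity, ?_, ?_, N2_half ha hb (by linarith) ht ht1 hAU hU f0,
    N2_half hb ha (by linarith) ht ht1 hBU (by linarith) f1⟩
  · field_simp; ring
  · field_simp; ring

theorem N2_nrm {g : Fin 4 → ℝ} (hg : ∀ i, 0 < g i) : (∀ i, 0 < nrm g i) ∧ ∑ i, nrm g i = 1 := by
  have hs : 0 < ∑ i, g i := sum_pos (fun i _ => hg i) univ_nonempty
  exact ⟨fun i => div_pos (hg i) hs, by simp only [nrm]; rw [← sum_div, div_self hs.ne']⟩

theorem N2_sc_pos {g : Fin 4 → ℝ} (hg : ∀ i, 0 < g i) (j : Fin 4) {t : ℝ} (ht : 0 < t) (i : Fin 4) :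
    0 < if i = j then g i else t * g i := by
  split_ifs
  · exact hg i
  · exact mul_pos ht (hg i)

theorem N2_off (t : ℝ) (ω : Env) {x : ℤ × ℤ} (hx : x ∉ KK) : Dt t ω x = ω x := by
  simp only [KK, mem_insert, mem_singleton, not_or] at hx
  simp [Dt, hx.1, hx.2]

theorem N2_at0 (t : ℝ) (ω : Env) : Dt t ω (0, 0) = dsite 0 t (ω (0, 0)) := by simp [Dt]

theorem N2_at1 (t : ℝ) (ω : Env) : Dt t ω (1, 0) = dsite 2 t (ω (1, 0)) := by simp [Dt]

theorem N2_good {ω : Env} (hω : Good ω) {t : ℝ} (ht : 0 < t) : Good (Dt t ω) := by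
  intro x
  unfold Dt
  split_ifs
  · exact N2_nrm (N2_sc_pos (hω.pos x) 0 ht)
  · exact N2_nrm (N2_sc_pos (hω.pos x) 2 ht)
  · exact hω x

theorem N2_shell {g : Fin 4 → ℝ} (hg : ∀ i, 0 < g i) (j : Fin 4) {t : ℝ} (ht : 0 < t)
    (h : ∀ i, i ≠ j → 1 / 100 * g j ≤ g i ∧ g i < 2 * 1 / 100 * g j) (i : Fin 4) (hi : i ≠ j) :
    t / 100 * dsite j t g j ≤ dsite j t g i ∧ dsite j t g i < 2 * t / 100 * dsite j t g j := by
  have hs : 0 < ∑ i, (if i = j then g i else t * g i) :=
    sum_pos (fun i _ => N2_sc_pos hg j ht i) univ_nonempty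
  obtain ⟨h1, h2⟩ := h i hi
  simp only [dsite, nrm, if_true, if_neg hi, ← mul_div_assoc]
  refine ⟨div_le_div_of_nonneg_right ?_ hs.le, div_lt_div_of_pos_right ?_ hs⟩ <;> nlinarith

theorem N2_NK {x : ℤ × ℤ} (hx : x ∈ NK) : x ∉ KK := by
  revert x; decide

theorem N2_sh {ω : Env} (hω : Good ω) (hS : ω ∈ Sh 1) {t : ℝ} (ht : 0 < t) : Dt t ω ∈ Sh t := by
  obtain ⟨h0, h1, h2⟩ := hS
  refine ⟨?_, ?_, fun x hx i => ?_⟩
  · rw [N2_at0]; exact N2_shell (hω.pos _) 0 ht h0
  · rw [N2_at1]; exact N2_shell (hω.pos _) 2 ht h1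
  · rw [N2_off t ω (N2_NK hx)]; exact h2 x hx i

theorem N2_pOp {ω : Env} (hω : Good ω) {r : ℤ × ℤ → ℝ} (hr : ∀ y, 0 ≤ r y) (x : ℤ × ℤ) :
    pOp ω (fun y => ENNReal.ofReal (r y)) x = ENNReal.ofReal (∑ i, ω x i * r (x + dir i)) := by
  rw [ENNReal.ofReal_sum_of_nonneg fun i _ => mul_nonneg (hω.pos x i).le (hr _)]
  exact sum_congr rfl fun i _ => (ENNReal.ofReal_mul (hω.pos x i).le).symm

theorem N2_cK_in (ω : Env) {x : ℤ × ℤ} (hx : x ∈ KK) : cK ω x = 0 := if_pos hx

theorem N2_cK_off (ω : Env) {x : ℤ × ℤ} (hx : x ∉ KK) :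
    cK ω x = pOp ω (fun y => if y ∈ KK then 1 else 0) x := by
  rw [cK, if_neg hx]
  refine sum_congr rfl fun i _ => ?_
  split_ifs with h <;> simp [h]

theorem N2_kk {ω : Env} (hω : Good ω) {t : ℝ} (ht1 : t ≤ 1) (hS : ω ∈ Sh t) {x : ℤ × ℤ}
    (hx : x ∈ KK) : kk ω x = 0 := by
  obtain ⟨h0, h1, -⟩ := hS
  refine if_neg fun h => ?_
  simp only [KK, mem_insert, mem_singleton] at hx
  rcases hx with rfl | rfl
  · have s := hω.sum (0, 0)
    rw [Fin.sum_univ_four] at s
    have := hω.pos (0, 0) 0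
    nlinarith [(h0 1 (by decide)).2, (h0 2 (by decide)).2, (h0 3 (by decide)).2, h 0]
  · have s := hω.sum (1, 0)
    rw [Fin.sum_univ_four] at s
    have := hω.pos (1, 0) 2
    nlinarith [(h1 0 (by decide)).2, (h1 1 (by decide)).2, (h1 3 (by decide)).2, h 2]

/-- outside the trap one has to enter first -/
theorem N2_step1 (hM : StNM) {ω : Env} (hω : Good ω) {l : ℝ≥0∞} (hl : 0 < l) (hl1 : l ≤ 1)
    {y : ℤ × ℤ} (hy : y ∉ KK) :
    MM ω l (cK ω) y ≤ 1 + max (MM ω l (cK ω) (0, 0)) (MM ω l (cK ω) (1, 0)) := by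
  obtain ⟨h1, h2, -⟩ := hM ω hω l hl hl1
  set M := MM ω l (cK ω) with hMd
  set U := max (M (0, 0)) (M (1, 0)) with hU
  have key := h2 (cK ω) (fun z => if z ∈ KK then M z else min (M z) (1 + U)) (fun x => ?_) y
  · rw [if_neg hy] at key
    exact key.trans (min_le_right _ _)
  have a1 : cK ω x + (1 - l * kk ω x) *
      pOp ω (fun z => if z ∈ KK then M z else min (M z) (1 + U)) x ≤ M x := by
    rw [hMd, h1 (cK ω) x]
    refine add_le_add_right (mul_le_mul_right (pOp_mono ω fun i => ?_) _) _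
    split_ifs
    · exact le_rfl
    · exact min_le_left _ _
  split_ifs with hx
  · exact a1
  refine le_min a1 ?_
  calc _ ≤ cK ω x + pOp ω (fun z => if z ∈ KK then M z else min (M z) (1 + U)) x :=
        add_le_add_right (mul_le_of_le_one_left (zero_le) tsub_le_self) _
    _ ≤ 1 + U := by
        rw [N2_cK_off ω hx, ← pOp_add]
        refine pOp_le hω fun i => ?_
        split_ifs with h
        · refine add_le_add_right ?_ _
          simp only [KK, mem_insert, mem_singleton] at h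
          rcases h with h | h <;> rw [h]
          · exact le_max_left _ _
          · exact le_max_right _ _
        · rw [zero_add]; exact min_le_right _ _

theorem pf_N2 (hM : StNM) (ha : StN2a) (h5 : StN5a) : StN2 := by
  intro ω hω hS t ht ht1
  have hω' := N2_good hω ht
  have hS' := N2_sh hω hS ht
  refine ⟨hω', hS', fun l hl hl1 x hx => ?_⟩
  obtain ⟨e1, -, e3, -⟩ := hM _ hω' l hl hl1
  obtain ⟨-, e2, -⟩ := hM _ hω l hl hl1
  have hst := fun y hy => N2_step1 hM hω' hl hl1 (y := y) hy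
  have hfin : ∀ y, MM (Dt t ω) l (cK (Dt t ω)) y ≠ ⊤ := fun y =>
    ne_top_of_le_ne_top (ENNReal.inv_ne_top.2 hl.ne')
      (e3 _ ((h5 _ hω' t ht ht1 l hl hl1).2.1 hS') y)
  have e1' := e1 (cK (Dt t ω))
  set M := MM (Dt t ω) l (cK (Dt t ω)) with hMd
  obtain ⟨m, hm0, hm⟩ : ∃ m : ℤ × ℤ → ℝ, (∀ y, 0 ≤ m y) ∧ M = fun y => ENNReal.ofReal (m y) :=
    ⟨fun y => (M y).toReal, fun y => ENNReal.toReal_nonneg,
      funext fun y => (ENNReal.ofReal_toReal (hfin y)).symm⟩
  have hin : ∀ z ∈ KK, m z = ∑ i, Dt t ω z i * m (z + dir i) := fun z hz => by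
    have := e1' z
    rw [N2_cK_in _ hz, N2_kk hω' ht1 hS' hz, hm, N2_pOp hω' hm0] at this
    simp only [zero_add, mul_zero, tsub_zero, one_mul] at this
    exact (ENNReal.ofReal_eq_ofReal_iff (hm0 _)
      (sum_nonneg fun i _ => mul_nonneg (hω'.pos _ _).le (hm0 _))).1 this
  have hout : ∀ y, y ∉ KK → m y ≤ 1 + max (m (0, 0)) (m (1, 0)) := fun y hy => by
    have := hst y hy
    rw [hm] at this
    dsimp only at this
    rw [← ENNReal.ofReal_max, ← ENNReal.ofReal_one,
      ← ENNReal.ofReal_add zero_le_one (le_max_of_le_left (hm0 _))] at this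
    exact (ENNReal.ofReal_le_ofReal_iff
      (add_nonneg zero_le_one (le_max_of_le_left (hm0 _)))).1 this
  obtain ⟨s0, s1, -⟩ := id hS
  have p := hω.pos (0, 0)
  have q := hω.pos (1, 0)
  have ps := hω.sum (0, 0)
  have qs := hω.sum (1, 0)
  rw [Fin.sum_univ_four] at ps qs
  have i0 := hin (0, 0) (by decide)
  have i1 := hin (1, 0) (by decide)
  rw [N2_at0] at i0
  rw [N2_at1] at i1
  simp only [dsite, nrm, Fin.sum_univ_four, dir] at i0 i1
  simp at i0 i1
  have p0 := p 0; have p1 := p 1; have p2 := p 2; have p3 := p 3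
  have q0 := q 0; have q1 := q 1; have q2 := q 2; have q3 := q 3
  have o1 := hout (0, 1) (by decide); have o2 := hout (-1, 0) (by decide)
  have o3 := hout (0, -1) (by decide); have o4 := hout (2, 0) (by decide)
  have o5 := hout (1, 1) (by decide); have o6 := hout (1, -1) (by decide)
  have n1 := hm0 (0, 1); have n2 := hm0 (-1, 0); have n3 := hm0 (0, -1)
  have n4 := hm0 (2, 0); have n5 := hm0 (1, 1); have n6 := hm0 (1, -1)
  obtain ⟨v₀, v₁, hv0, hv1, f0, f1, b0, b1⟩ := ha
    ((ω (0, 0) 1 + ω (0, 0) 2 + ω (0, 0) 3) / ω (0, 0) 0)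
    ((ω (1, 0) 0 + ω (1, 0) 1 + ω (1, 0) 3) / ω (1, 0) 2)
    ((ω (0, 0) 1 * m (0, 1) + ω (0, 0) 2 * m (-1, 0) + ω (0, 0) 3 * m (0, -1)) / ω (0, 0) 0)
    ((ω (1, 0) 0 * m (2, 0) + ω (1, 0) 1 * m (1, 1) + ω (1, 0) 3 * m (1, -1)) / ω (1, 0) 2)
    t (m (0, 0)) (m (1, 0)) (by positivity)
    (by rw [div_le_iff₀ p0]
        linarith [(s0 1 (by decide)).2, (s0 2 (by decide)).2, (s0 3 (by decide)).2])
    (by positivity)
    (by rw [div_le_iff₀ q2]
        linarith [(s1 0 (by decide)).2, (s1 1 (by decide)).2, (s1 3 (by decide)).2])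
    ht ht1 (by positivity) (by positivity)
    (by rw [div_mul_eq_mul_div]
        refine div_le_div_of_nonneg_right ?_ p0.le
        nlinarith [mul_le_mul_of_nonneg_left o1 p1.le, mul_le_mul_of_nonneg_left o2 p2.le,
          mul_le_mul_of_nonneg_left o3 p3.le])
    (by rw [div_mul_eq_mul_div]
        refine div_le_div_of_nonneg_right ?_ q2.le
        nlinarith [mul_le_mul_of_nonneg_left o4 q0.le, mul_le_mul_of_nonneg_left o5 q1.le,
          mul_le_mul_of_nonneg_left o6 q3.le])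
    (by rw [i0]; field_simp; ring) (by rw [i1]; field_simp; ring)
  set r : ℤ × ℤ → ℝ := fun y => if y = (0, 0) then 2 * v₀ else if y = (1, 0) then 2 * v₁
    else 2 * m y with hr
  have hr0 : ∀ y, 0 ≤ r y := fun y => by
    have := hm0 y
    simp only [hr]; split_ifs <;> positivity
  have hroff : ∀ y, y ∉ KK → ENNReal.ofReal (r y) = 2 * M y := fun y hy => by
    simp only [KK, mem_insert, mem_singleton, not_or] at hy
    simp only [hr, hm, if_neg hy.1, if_neg hy.2]
    rw [ENNReal.ofReal_mul zero_le_two, ENNReal.ofReal_ofNat]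
  have hrle : ∀ y, ENNReal.ofReal (r y) ≤ 2 * M y + if y ∈ KK then 1 else 0 := fun y => by
    split_ifs with hy
    · have : r y ≤ 2 * m y + 1 := by
        simp only [KK, mem_insert, mem_singleton] at hy
        rcases hy with rfl | rfl
        · simp only [hr, if_true]; linarith
        · have : ((1, 0) : ℤ × ℤ) ≠ (0, 0) := by decide
          simp only [hr, if_neg this, if_true]; linarith
      refine (ENNReal.ofReal_le_ofReal this).trans ?_
      rw [ENNReal.ofReal_add (mul_nonneg zero_le_two (hm0 _)) zero_le_one,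
        ENNReal.ofReal_mul zero_le_two, ENNReal.ofReal_ofNat, ENNReal.ofReal_one, hm]
    · rw [hroff y hy, add_zero]
  have hpo : ∀ y, y ∉ KK → ∀ F, pOp (Dt t ω) F y = pOp ω F y := fun y hy F => by
    simp only [pOp, N2_off t ω hy]
  have hkk : ∀ y, y ∉ KK → kk (Dt t ω) y = kk ω y := fun y hy => by
    simp only [kk, N2_off t ω hy]
  have key := e2 (cK ω) (fun y => ENNReal.ofReal (r y)) fun y => by
    by_cases hy : y ∈ KK
    · rw [N2_cK_in _ hy, zero_add]
      refine (mul_le_of_le_one_left (zero_le) tsub_le_self).trans ?_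
      rw [N2_pOp hω hr0]
      refine ENNReal.ofReal_le_ofReal (le_of_eq ?_)
      simp only [KK, mem_insert, mem_singleton] at hy
      rcases hy with rfl | rfl
      · simp [hr, Fin.sum_univ_four, dir]
        field_simp at f0
        linear_combination (-2) * f0 + 2 * v₀ * ps
      · simp [hr, Fin.sum_univ_four, dir]
        field_simp at f1
        linear_combination (-2) * f1 + 2 * v₁ * qs
    · have hc : cK (Dt t ω) y = cK ω y := by rw [N2_cK_off _ hy, N2_cK_off _ hy, hpo y hy]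
      rw [hroff y hy, e1' y, hc, hkk y hy, hpo y hy]
      have h1 : pOp ω (fun y => ENNReal.ofReal (r y)) y ≤ 2 * pOp ω M y + cK ω y := by
        rw [N2_cK_off _ hy, ← pOp_const_mul, ← pOp_add]
        exact pOp_mono ω fun i => hrle _
      calc _ ≤ cK ω y + (1 - l * kk ω y) * (2 * pOp ω M y + cK ω y) :=
            add_le_add_right (mul_le_mul_right h1 _) _
        _ ≤ cK ω y + ((1 - l * kk ω y) * (2 * pOp ω M y) + cK ω y) := by
            rw [mul_add]
            exact add_le_add_right (add_le_add_right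
              (mul_le_of_le_one_left (zero_le) tsub_le_self) _) _
        _ = _ := by ring
  have hxK : x ∉ KK := by
    simp only [KK, mem_insert, mem_singleton]
    rintro (rfl | rfl) <;> simp [nm] at hx
  have hnb : ∀ i, x + dir i ∉ KK := fun i => by
    obtain ⟨a, b⟩ := x
    simp only [nm, le_max_iff, le_abs] at hx
    simp only [KK, mem_insert, mem_singleton]
    fin_cases i <;> simp [dir] <;> omega
  unfold LL
  rw [hkk x hxK, hpo x hxK, ← hMd, mul_left_comm 2, ← pOp_const_mul ω 2]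
  exact mul_le_mul_right (pOp_mono ω fun i => (key _).trans (hroff _ (hnb i)).le) _

end DRW
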