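import Pool.Agent.P.MP_de05b4_pr.Basic2

namespace DRW

open MeasureTheory ProbabilityTheory Finset Filter
open scoped ENNReal Topology

/-- mass transport -/
theorem N5_trans {α : Fin 4 → ℝ} (hα : ∀ i, 0 < α i) {s g : Env → ℝ≥0∞} (hs : Measurable s)
    (hg : Measurable g) {h : Env → ℤ × ℤ → ℝ≥0∞} (hh : ∀ x, Measurable fun ω => h ω x) :
    ∫⁻ ω, s ω * ∑' x, g (shift x ω) * h ω x ∂law α =
      ∫⁻ ω, g ω * ∑' x, s (shift (-x) ω) * h (shift (-x) ω) x ∂law α := by
  have m1 : ∀ x, Measurable fun ω => s ω * (g (shift x ω) * h ω x) := fun x =>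
    hs.fun_mul ((hg.comp (measurable_shift x)).fun_mul (hh x))
  have m2 : ∀ x, Measurable fun ω => g ω * (s (shift (-x) ω) * h (shift (-x) ω) x) := fun x =>
    hg.fun_mul ((hs.comp (measurable_shift (-x))).fun_mul ((hh x).comp (measurable_shift (-x))))
  simp only [← ENNReal.tsum_mul_left]
  rw [lintegral_tsum fun x => (m1 x).aemeasurable, lintegral_tsum fun x => (m2 x).aemeasurable]
  refine tsum_congr fun x => ?_
  rw [← lintegral_shift hα (-x) (m1 x)]
  refine lintegral_congr fun ω => ?_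
  rw [shift_shift, neg_add_cancel, shift_zero, mul_left_comm]

theorem N5_CC0 (t : ℝ) (ω : Env) :
    ∑' x : ℤ × ℤ, (Sh t).indicator 1 (shift (-x) ω) * cK (shift (-x) ω) x = CC t ω 0 := by
  unfold CC
  rw [← (Equiv.neg (ℤ × ℤ)).tsum_eq]
  refine tsum_congr fun x => ?_
  simp only [Equiv.neg_apply, neg_neg, zero_sub]

theorem N5_CC_shift (t : ℝ) (e y : ℤ × ℤ) (ω : Env) : CC t (shift e ω) (y - e) = CC t ω y := by
  unfold CC
  rw [← (Equiv.addLeft e).tsum_eq fun z =>
    (Sh t).indicator 1 (shift z ω) * cK (shift z ω) (y - z)]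
  refine tsum_congr fun z => ?_
  simp only [Equiv.coe_addLeft, shift_shift, sub_sub]

theorem N5_step (hM : StNM) {ω : Env} (h : Good ω) (t : ℝ) {l : ℝ≥0∞} (h0 : 0 < l) (h1 : l ≤ 1) :
    stepOp (fun w => MM w l (CC t w) 0) ω = pOp ω (MM ω l (CC t ω)) 0 := by
  have e : (fun y => MM (shift y ω) l (CC t (shift y ω)) 0) = MM ω l (CC t ω) := by
    funext y
    rw [(hM ω h l h0 h1).2.2.2.2.2]
    simp only [N5_CC_shift, add_zero]
  have := stepOp_shift (fun w => MM w l (CC t w) 0) 0 ω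
  rw [shift_zero] at this
  rw [this, e]

theorem pf_N5 (hM : StNM) (hm : StNMeas) (h5 : StN5a) : StN5 := by
  intro α hα t t0 t1 l l0 l1
  obtain ⟨q1, q2, q3, q4, q5, q6, -⟩ := hm l
  have hs : Measurable ((Sh t).indicator (1 : Env → ℝ≥0∞)) := measurable_one.indicator (q5 t)
  have hl : l ≠ ⊤ := ne_top_of_le_ne_top ENNReal.one_ne_top l1
  have hb : ∀ ω, Good ω → pOp ω (MM ω l (CC t ω)) 0 ≤ l⁻¹ := fun ω h =>
    pOp_le h fun i => (hM ω h l l0 l1).2.2.1 _ (h5 ω h t t0 t1 l l0 l1).1 _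
  have hk : ∀ ω, l * kk ω 0 ≤ 1 := fun ω => mul_le_one' l1 (kk_le_one ω 0)
  constructor
  · intro g hg
    rw [N5_trans hα hs hg q4]
    refine lintegral_mono_ae ((ae_good hα).mono fun ω h => ?_)
    rw [(h5 ω h t t0 t1 l l0 l1).2.2]
    have : l * kk ω 0 * pOp ω (MM ω l (CC t ω)) 0 ≤ 1 := by
      calc l * kk ω 0 * pOp ω (MM ω l (CC t ω)) 0 ≤ l * 1 * l⁻¹ :=
            mul_le_mul' (mul_le_mul_right (kk_le_one ω 0) _) (hb ω h)
        _ = 1 := by rw [mul_one, ENNReal.mul_inv_cancel l0.ne' hl]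
    exact mul_le_of_le_one_right' this
  · intro f hf
    unfold InK
    rw [N5_trans hα hs hf.meas q2, N5_trans hα hs hf.meas q4]
    simp only [N5_CC0]
    have hmm : Measurable fun w => MM w l (CC t w) 0 := q1 _ (q6 t) 0
    have hst := measurable_stepOp hmm
    have hinv := hf.inv _ hmm
    have mA : Measurable fun ω => f ω * CC t ω 0 := hf.meas.fun_mul (q6 t 0)
    have mB : Measurable fun ω =>
        f ω * ((1 - l * kk ω 0) * stepOp (fun w => MM w l (CC t w) 0) ω) :=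
      hf.meas.fun_mul ((measurable_const.sub ((q3 0).const_mul l)).fun_mul hst)
    have e1 : ∫⁻ ω, f ω * MM ω l (CC t ω) 0 ∂law α = ∫⁻ ω, f ω * CC t ω 0 ∂law α +
        ∫⁻ ω, f ω * ((1 - l * kk ω 0) * stepOp (fun w => MM w l (CC t w) 0) ω) ∂law α := by
      rw [← lintegral_add_left mA]
      refine lintegral_congr_ae ((ae_good hα).mono fun ω h => ?_)
      simp only
      rw [N5_step hM h t l0 l1, ← mul_add, ← (hM ω h l l0 l1).1]
    have e2 : ∫⁻ ω, f ω * stepOp (fun w => MM w l (CC t w) 0) ω ∂law α =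
        ∫⁻ ω, f ω * ((1 - l * kk ω 0) * stepOp (fun w => MM w l (CC t w) 0) ω) ∂law α +
        ∫⁻ ω, f ω * (l * kk ω 0 * stepOp (fun w => MM w l (CC t w) 0) ω) ∂law α := by
      rw [← lintegral_add_left mB]
      refine lintegral_congr fun ω => ?_
      rw [← mul_add, ← add_mul, tsub_add_cancel_of_le (hk ω), one_mul]
    have e3 : ∫⁻ ω, f ω * ((1 - l * kk ω 0) * stepOp (fun w => MM w l (CC t w) 0) ω) ∂law α ≠ ⊤ := by
      have : ∫⁻ ω, f ω * ((1 - l * kk ω 0) * stepOp (fun w => MM w l (CC t w) 0) ω) ∂law α ≤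
          ∫⁻ ω, f ω * l⁻¹ ∂law α := by
        refine lintegral_mono_ae ((ae_good hα).mono fun ω h => ?_)
        refine mul_le_mul_right ?_ _
        rw [N5_step hM h t l0 l1]
        exact (mul_le_of_le_one_left' tsub_le_self).trans (hb ω h)
      rw [lintegral_mul_const _ hf.meas, hf.mass, one_mul] at this
      exact ne_top_of_le_ne_top (ENNReal.inv_ne_top.2 l0.ne') this
    rw [e1, e2, add_comm] at hinv
    rw [(ENNReal.add_right_inj e3).1 hinv]
    refine lintegral_congr_ae ((ae_good hα).mono fun ω h => ?_)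
    simp only
    rw [(h5 ω h t t0 t1 l l0 l1).2.2, N5_step hM h t l0 l1]

end DRW
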