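import Pool.Agent.P.MP_de05b4_pr.Basic2

/-! The total entrance rate in the traps, and the deterministic part of the mass transport. -/

namespace DRW

open MeasureTheory ProbabilityTheory Finset Filter
open scoped ENNReal Topology

theorem N5a_half {ω : Env} (h : Good ω) {t : ℝ} (ht : t ≤ 1) (hS : ω ∈ Sh t) :
    1 / 2 < ω (0, 0) 0 ∧ 1 / 2 < ω (1, 0) 2 := by
  obtain ⟨h1, h2, -⟩ := hS
  constructor
  · have e := h.sum (0, 0)
    rw [Fin.sum_univ_four] at e
    have a1 := (h1 1 (by decide)).2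
    have a2 := (h1 2 (by decide)).2
    have a3 := (h1 3 (by decide)).2
    have p := h.pos (0, 0) 0
    have q : t * ω (0, 0) 0 ≤ ω (0, 0) 0 := mul_le_of_le_one_left p.le ht
    nlinarith
  · have e := h.sum (1, 0)
    rw [Fin.sum_univ_four] at e
    have a1 := (h2 0 (by decide)).2
    have a2 := (h2 1 (by decide)).2
    have a3 := (h2 3 (by decide)).2
    have p := h.pos (1, 0) 2
    have q : t * ω (1, 0) 2 ≤ ω (1, 0) 2 := mul_le_of_le_one_left p.le ht
    nlinarith

theorem N5a_mem {y : ℤ × ℤ} {i : Fin 4} (h1 : y ∉ KK) (h2 : y + dir i ∈ KK) : y ∈ NK := by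
  obtain ⟨a, b⟩ := y
  fin_cases i <;>
    simp only [KK, NK, dir, mem_insert, mem_singleton, Prod.mk.injEq, Prod.mk_add_mk,
      Fin.zero_eta, Fin.mk_one, Fin.reduceFinMk, Matrix.cons_val_zero, Matrix.cons_val_one,
      Matrix.cons_val] at h1 h2 ⊢ <;> omega

theorem N5a_le_one {ω : Env} (h : Good ω) (y : ℤ × ℤ) : cK ω y ≤ 1 := by
  unfold cK
  split_ifs
  · exact zero_le_one
  · rw [← h.sum_ofReal y]
    exact sum_le_sum fun i _ => by split_ifs <;> simp

theorem N5a_cK {ω : Env} (h : Good ω) {t : ℝ} (hS : ω ∈ Sh t) (y : ℤ × ℤ) :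
    cK ω y ≤ kk ω y := by
  by_cases h1 : y ∈ NK
  · have : kk ω y = 1 := if_pos (hS.2.2 y h1)
    rw [this]
    exact N5a_le_one h y
  · refine le_of_eq_of_le ?_ bot_le
    unfold cK
    split_ifs with h2
    · rfl
    · exact sum_eq_zero fun i _ => if_neg fun h3 => h1 (N5a_mem h2 h3)

theorem N5a_single {ω : Env} (h : Good ω) {t : ℝ} (ht : t ≤ 1) (v : ℤ × ℤ) :
    ∑' z : ℤ × ℤ, (Sh t).indicator (1 : Env → ℝ≥0∞) (shift z ω) *
      (if v - z ∈ KK then 1 else 0) ≤ 1 := by
  have key : ∃ z₀ : ℤ × ℤ, ∀ z, z ≠ z₀ → shift z ω ∈ Sh t → v - z ∉ KK := by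
    have hK : ∀ z : ℤ × ℤ, v - z ∈ KK → z = v ∨ z = v - (1, 0) := by
      intro z hz
      simp only [KK, mem_insert, mem_singleton] at hz
      rcases hz with hz | hz
      · exact Or.inl (sub_eq_zero.1 hz).symm
      · exact Or.inr (by rw [← hz]; abel)
    by_cases h0 : shift v ω ∈ Sh t
    · refine ⟨v, fun z hz h1 h2 => ?_⟩
      obtain rfl : z = v - (1, 0) := (hK z h2).resolve_left hz
      have a1 := (N5a_half (h.shift _) ht h0).1
      have a2 := (N5a_half (h.shift _) ht h1).2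
      rw [shift_apply] at a1 a2
      rw [sub_add_cancel] at a2
      rw [show v + (0, 0) = v from add_zero v] at a1
      have e := h.sum v
      rw [Fin.sum_univ_four] at e
      have := h.pos v 1
      have := h.pos v 3
      linarith
    · refine ⟨v - (1, 0), fun z hz h1 h2 => ?_⟩
      obtain rfl : z = v := (hK z h2).resolve_right hz
      exact h0 h1
  obtain ⟨z₀, hz⟩ := key
  rw [tsum_eq_single z₀]
  · refine mul_le_one' ?_ ?_
    · by_cases h1 : shift z₀ ω ∈ Sh t <;> simp [h1]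
    · split_ifs <;> simp
  · intro z h1
    by_cases h2 : shift z ω ∈ Sh t
    · rw [if_neg (hz z h1 h2), mul_zero]
    · rw [Set.indicator_of_notMem h2, zero_mul]

theorem N5a_CC {ω : Env} (h : Good ω) {t : ℝ} (ht : t ≤ 1) (y : ℤ × ℤ) : CC t ω y ≤ kk ω y := by
  by_cases h0 : ∀ i, ω y i ≤ 1 / 2
  · have e : kk ω y = 1 := if_pos h0
    rw [e]
    have h1 : ∀ z : ℤ × ℤ, (Sh t).indicator (1 : Env → ℝ≥0∞) (shift z ω) * cK (shift z ω) (y - z) ≤
        ∑ i, ENNReal.ofReal (ω y i) * ((Sh t).indicator (1 : Env → ℝ≥0∞) (shift z ω) *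
          (if y + dir i - z ∈ KK then 1 else 0)) := by
      intro z
      unfold cK
      split_ifs
      · simp
      · rw [mul_sum]
        refine sum_le_sum fun i _ => le_of_eq ?_
        rw [shift_apply, add_sub_cancel, show y - z + dir i = y + dir i - z by abel]
        split_ifs <;> simp [mul_comm]
    refine (ENNReal.tsum_le_tsum h1).trans ?_
    rw [Summable.tsum_finsetSum fun _ _ => ENNReal.summable]
    refine le_of_le_of_eq (sum_le_sum fun i _ => ?_) (h.sum_ofReal y)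
    rw [ENNReal.tsum_mul_left]
    exact mul_le_of_le_one_right' (N5a_single h ht _)
  · refine le_of_eq_of_le ?_ bot_le
    refine ENNReal.tsum_eq_zero.2 fun z => ?_
    by_cases h2 : shift z ω ∈ Sh t
    · have h3 := N5a_cK (h.shift z) h2 (y - z)
      rw [kk_shift, add_sub_cancel, show kk ω y = 0 from if_neg h0] at h3
      rw [le_antisymm h3 bot_le, mul_zero]
    · rw [Set.indicator_of_notMem h2, zero_mul]

theorem pf_N5a (hM : StNM) : StN5a := by
  intro ω h t _ ht l hl hl1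
  obtain ⟨-, -, -, m4, m5, m6⟩ := hM ω h l hl hl1
  refine ⟨N5a_CC h ht, fun hS => N5a_cK h hS, ?_⟩
  set c : ℤ × ℤ → ℤ × ℤ → ℝ≥0∞ := fun z y =>
    (Sh t).indicator (1 : Env → ℝ≥0∞) (shift z ω) * cK (shift z ω) (y - z) with hc
  have h1 : ∀ x : ℤ × ℤ, (Sh t).indicator 1 (shift (-x) ω) * LL (shift (-x) ω) l x =
      l * kk ω 0 * pOp ω (MM ω l (c (-x))) 0 := by
    intro x
    have e : MM ω l (c (-x)) = fun y => (Sh t).indicator (1 : Env → ℝ≥0∞) (shift (-x) ω) *
        MM ω l (fun y => cK (shift (-x) ω) (y - -x)) y := funext fun y => m5 _ _ y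
    rw [e, pOp_const_mul, LL, kk_shift, neg_add_cancel, mul_left_comm]
    congr 2
    unfold pOp
    refine sum_congr rfl fun i _ => ?_
    rw [m6, shift_apply, neg_add_cancel, neg_add_cancel_left, zero_add]
  rw [tsum_congr h1, ENNReal.tsum_mul_left, ← pOp_tsum]
  congr 2
  funext y
  exact ((Equiv.neg (ℤ × ℤ)).tsum_eq fun z => MM ω l (c z) y).trans (m4 c y).symm

end DRW
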