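import Pool.Agent.P.MP_de05b4_pr.Basic2
import Pool.Agent.P.MP_de05b4_pr.R.TR2

/-! The density of an absolutely continuous invariant probability, and approximation by local
events. -/

namespace DRW

open MeasureTheory ProbabilityTheory Finset Filter
open scoped ENNReal Topology

theorem N7_rec {X : Type*} [MeasurableSpace X] {μ : Measure X} [IsProbabilityMeasure μ]
    {T : X → X} (hT : Ergodic T μ) {B : Set X} (hB : MeasurableSet B) (h0 : μ B ≠ 0) :
    ∀ᵐ x ∂μ, ∃ᶠ n in atTop, T^[n] x ∈ B := by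
  have hm : Measurable T := hT.toMeasurePreserving.measurable
  set I : Set X := {x | ∃ᶠ n in atTop, T^[n] x ∈ B} with hI
  have hIm : MeasurableSet I := by
    have : I = ⋂ m : ℕ, ⋃ n : ℕ, ⋃ _ : m ≤ n, (T^[n]) ⁻¹' B := by
      ext x
      simp [hI, frequently_atTop]
    rw [this]
    exact MeasurableSet.iInter fun m => MeasurableSet.iUnion fun n =>
      MeasurableSet.iUnion fun _ => (hm.iterate n) hB
  have hsub : I ≤ᵐ[μ] T ⁻¹' I := by
    refine Eventually.of_forall fun x hx => ?_
    have hx' : ∃ᶠ n in atTop, T^[n] x ∈ B := hx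
    change ∃ᶠ n in atTop, T^[n] (T x) ∈ B
    rw [frequently_atTop] at hx' ⊢
    intro m
    obtain ⟨n, hn, hb⟩ := hx' (m + 1)
    obtain ⟨k, rfl⟩ : ∃ k, n = k + 1 := ⟨n - 1, by omega⟩
    exact ⟨k, by omega, by rwa [Function.iterate_succ_apply] at hb⟩
  have hc := hT.toMeasurePreserving.conservative.ae_mem_imp_frequently_image_mem
    hB.nullMeasurableSet
  rcases hT.ae_empty_or_univ_of_ae_le_preimage hIm.nullMeasurableSet hsub with h | h
  · exfalso
    apply h0
    rw [measure_eq_zero_iff_ae_notMem]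
    filter_upwards [h, hc] with x h1 h2 hx
    have : I x := h2 hx
    rw [h1] at this
    exact this
  · filter_upwards [h] with x h1
    have : I x := by rw [h1]; exact Set.mem_univ x
    exact this

theorem N7_iter (k : ℕ) (ω : Env) : (shift (dir 0))^[k] ω = shift ((k : ℤ), 0) ω := by
  induction k with
  | zero => exact (shift_zero ω).symm
  | succ k ih =>
    rw [Function.iterate_succ_apply', ih, shift_shift]
    have : (((k : ℤ), (0 : ℤ)) + dir 0) = (((k + 1 : ℕ) : ℤ), 0) := by simp [dir]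
    rw [this]

theorem N7_meas_kk : Measurable fun ω : Env => kk ω 0 := by
  unfold kk
  refine Measurable.ite ?_ measurable_const measurable_const
  have : {ω : Env | ∀ i, ω 0 i ≤ 1 / 2} = ⋂ i, {ω : Env | ω 0 i ≤ 1 / 2} := by
    ext ω; simp
  rw [this]
  exact MeasurableSet.iInter fun i => measurableSet_le (measurable_coord 0 i) measurable_const

theorem N7_pos {α : Fin 4 → ℝ} (hα : ∀ i, 0 < α i) {f : Env → ℝ≥0∞} (hf : Measurable f)
    (h1 : ∫⁻ ω, f ω ∂law α = 1)
    (hinv : ∀ φ : Env → ℝ≥0∞, Measurable φ →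
      ∫⁻ ω, f ω * φ ω ∂law α = ∫⁻ ω, f ω * stepOp φ ω ∂law α) :
    ∀ᵐ ω ∂law α, 0 < f ω := by
  have hP := prob_law hα
  set D : Set Env := {ω | f ω = 0} with hD
  have hDm : MeasurableSet D := hf (measurableSet_singleton 0)
  have hi : Measurable (D.indicator (1 : Env → ℝ≥0∞)) := measurable_one.indicator hDm
  have hz : ∫⁻ ω, f ω * stepOp (D.indicator 1) ω ∂law α = 0 := by
    rw [← hinv _ hi]
    have : (fun ω => f ω * D.indicator (1 : Env → ℝ≥0∞) ω) = fun _ => 0 := by
      funext ω
      by_cases h : ω ∈ D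
      · have h' : f ω = 0 := h
        rw [h', zero_mul]
      · rw [Set.indicator_of_notMem h, mul_zero]
    rw [this, lintegral_zero]
  rw [lintegral_eq_zero_iff (hf.fun_mul (measurable_stepOp hi))] at hz
  have hsub : Dᶜ ≤ᵐ[law α] shift (dir 0) ⁻¹' Dᶜ := by
    filter_upwards [hz, ae_good hα] with ω h0 hω hc
    have hne : f ω ≠ 0 := hc
    have hk0 : stepOp (D.indicator 1) ω = 0 := (mul_eq_zero.1 h0).resolve_left hne
    intro hm
    unfold stepOp at hk0
    rw [Finset.sum_eq_zero_iff] at hk0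
    have h2 := hk0 0 (mem_univ _)
    rw [Set.indicator_of_mem hm] at h2
    simp only [Pi.one_apply, mul_one, ENNReal.ofReal_eq_zero] at h2
    exact absurd (hω.pos 0 0) (not_lt.2 h2)
  rcases (erg_shift hα).ae_empty_or_univ_of_ae_le_preimage hDm.compl.nullMeasurableSet hsub with
    h | h
  · exfalso
    have h0 : f =ᵐ[law α] 0 := by
      filter_upwards [h] with ω hω
      by_contra hc
      have : Dᶜ ω := hc
      rw [hω] at this
      exact this
    rw [(lintegral_eq_zero_iff hf).2 h0] at h1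
    exact zero_ne_one h1
  · filter_upwards [h] with ω hω
    have : Dᶜ ω := by rw [hω]; exact Set.mem_univ ω
    exact pos_iff_ne_zero.2 this

theorem N7_site {α : Fin 4 → ℝ} (hα : ∀ i, 0 < α i) {f : Env → ℝ≥0∞} (hf : Measurable f)
    (hinv : ∀ φ : Env → ℝ≥0∞, Measurable φ →
      ∫⁻ ω, f ω * φ ω ∂law α = ∫⁻ ω, f ω * stepOp φ ω ∂law α) :
    ∀ᵐ ω ∂law α, f ω = ∑ i, f (shift (-dir i) ω) * ENNReal.ofReal (ω (-dir i) i) := by
  have hP := prob_law hα
  have hm : ∀ i, Measurable fun ω : Env =>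
      f (shift (-dir i) ω) * ENNReal.ofReal (ω (-dir i) i) := fun i =>
    (hf.comp (measurable_shift _)).fun_mul (measurable_coord _ i).ennreal_ofReal
  refine ae_eq_of_forall_setLIntegral_eq_of_sigmaFinite hf
    (Finset.measurable_sum _ fun i _ => hm i) fun A hA _ => ?_
  have hi : Measurable (A.indicator (1 : Env → ℝ≥0∞)) := measurable_one.indicator hA
  have e : ∀ g : Env → ℝ≥0∞, ∫⁻ ω in A, g ω ∂law α = ∫⁻ ω, g ω * A.indicator 1 ω ∂law α := by
    intro g
    rw [← lintegral_indicator hA]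
    refine lintegral_congr fun ω => ?_
    by_cases h : ω ∈ A
    · simp [Set.indicator_of_mem h]
    · simp [Set.indicator_of_notMem h]
  rw [e, e, hinv _ hi]
  simp only [stepOp, mul_sum, sum_mul]
  have hm2 : ∀ i, Measurable fun ω : Env => f ω * (ENNReal.ofReal (ω 0 i) *
      A.indicator (1 : Env → ℝ≥0∞) (shift (dir i) ω)) := fun i => hf.fun_mul
      ((measurable_coord 0 i).ennreal_ofReal.fun_mul (hi.comp (measurable_shift (dir i))))
  rw [lintegral_finsetSum _ fun i _ => hm2 i,
    lintegral_finsetSum _ fun i _ => (hm i).fun_mul hi]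
  refine sum_congr rfl fun i _ => ?_
  rw [← lintegral_shift hα (dir i) ((hm i).fun_mul hi)]
  refine lintegral_congr fun ω => ?_
  rw [shift_shift, shift_apply, add_neg_cancel, shift_zero, mul_assoc]

theorem N7_inf (hG : StGood) {α : Fin 4 → ℝ} (hα : ∀ i, 0 < α i) {f : Env → ℝ≥0∞}
    (hf : Measurable f) (hp : ∀ᵐ ω ∂law α, 0 < f ω) :
    ∀ᵐ ω ∂law α, ∑' x, f (shift x ω) * kk ω x = ⊤ := by
  have hP := prob_law hα
  set B : ℕ → Set Env := fun n => {ω | ((n : ℝ≥0∞))⁻¹ < f ω ∧ kk ω 0 = 1} with hB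
  have hBm : ∀ n, MeasurableSet (B n) := fun n =>
    (measurableSet_lt measurable_const hf).inter (N7_meas_kk (measurableSet_singleton 1))
  obtain ⟨n, hn⟩ : ∃ n, law α (B n) ≠ 0 := by
    by_contra hc
    have hc' : ∀ n, law α (B n) = 0 := fun n => by
      by_contra h
      exact hc ⟨n, h⟩
    have h0 : law α (⋃ n, B n) = 0 := measure_iUnion_null hc'
    have h1 : law α {ω | kk ω 0 = 1} ≤ law α (⋃ n, B n) := by
      refine measure_mono_ae ?_
      filter_upwards [hp] with ω hω hk
      obtain ⟨n, hn⟩ := ENNReal.exists_inv_nat_lt hω.ne'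
      exact Set.mem_iUnion.2 ⟨n, hn, hk⟩
    rw [h0] at h1
    exact absurd (hG α hα).2 (not_lt.2 h1)
  filter_upwards [N7_rec (erg_shift hα) (hBm n) hn] with ω hω
  by_contra hc
  have ht := ENNReal.tendsto_cofinite_zero_of_tsum_ne_top hc
  have hinj : Function.Injective fun k : ℕ => (((k : ℤ), 0) : ℤ × ℤ) := by
    intro a b h
    have := congrArg Prod.fst h
    simpa using this
  have ht2 := ht.comp hinj.tendsto_cofinite
  rw [Nat.cofinite_eq_atTop] at ht2
  have hpos : (0 : ℝ≥0∞) < ((n : ℝ≥0∞))⁻¹ := ENNReal.inv_pos.2 (ENNReal.natCast_ne_top n)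
  have hev := ht2.eventually (gt_mem_nhds hpos)
  obtain ⟨k, hk1, hk2⟩ := (hω.and_eventually hev).exists
  rw [N7_iter] at hk1
  obtain ⟨h1, h2⟩ := hk1
  rw [kk_shift, add_zero] at h2
  simp only [Function.comp_apply, h2, mul_one] at hk2
  exact lt_asymm h1 hk2

theorem pf_N7 (hG : StGood) : StN7 := by
  rintro α hα ⟨Q, hQ, hac, hI⟩
  have hP := prob_law hα
  set f : Env → ℝ≥0∞ := fun ω => if Q.rnDeriv (law α) ω = ⊤ then 0 else Q.rnDeriv (law α) ω
    with hfdef
  have hr : Measurable (Q.rnDeriv (law α)) := Measure.measurable_rnDeriv _ _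
  have hf : Measurable f := Measurable.ite (hr (measurableSet_singleton ⊤)) measurable_const hr
  have hae : f =ᵐ[law α] Q.rnDeriv (law α) := by
    filter_upwards [Measure.rnDeriv_ne_top Q (law α)] with ω hω
    exact if_neg hω
  have e : (law α).withDensity f = Q := by
    rw [withDensity_congr_ae hae, Measure.withDensity_rnDeriv_eq _ _ hac]
  have h1 : ∫⁻ ω, f ω ∂law α = 1 := by
    rw [← setLIntegral_univ, ← withDensity_apply _ MeasurableSet.univ, e, measure_univ]
  have hinv : ∀ φ : Env → ℝ≥0∞, Measurable φ →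
      ∫⁻ ω, f ω * φ ω ∂law α = ∫⁻ ω, f ω * stepOp φ ω ∂law α := by
    intro φ hφ
    refine inv_fun hf (fun A hA => ?_) hφ
    have hi : Measurable (A.indicator (1 : Env → ℝ≥0∞)) := measurable_one.indicator hA
    have a1 := lintegral_withDensity_eq_lintegral_mul (law α) hf hi
    have a2 := lintegral_withDensity_eq_lintegral_mul (law α) hf (measurable_stepOp hi)
    rw [e] at a1 a2
    rw [lintegral_indicator_one hA] at a1
    exact a1.symm.trans ((hI A hA).trans a2)
  have hp := N7_pos hα hf h1 hinv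
  refine ⟨f, hf, fun ω => ?_, h1, hinv, ae_shift hα hp, ?_, N7_inf hG hα hf hp⟩
  · simp only [hfdef]
    split_ifs with h
    · exact ENNReal.zero_ne_top
    · exact h
  · filter_upwards [ae_shift hα (N7_site hα hf hinv)] with ω hω y
    rw [hω y]
    refine sum_congr rfl fun i _ => ?_
    rw [shift_shift, shift_apply, ← sub_eq_add_neg]

theorem pf_N8 : StN8 := by
  intro α hα D hD η hη
  have hP := prob_law hα
  have hm : min η 1 ≠ ⊤ := ne_top_of_le_ne_top ENNReal.one_ne_top (min_le_right _ _)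
  have hε : 0 < (min η 1).toReal := ENNReal.toReal_pos (lt_min hη one_pos).ne' hm
  obtain ⟨B, hB, hAB⟩ := (Measure.MeasureDense.of_generateFrom_isSetAlgebra_finite (law α)
    (⟨empty_mem_measurableCylinders _, fun _ h => compl_mem_measurableCylinders h,
      fun _ _ h h' => union_mem_measurableCylinders h h'⟩ :
        IsSetAlgebra (measurableCylinders fun _ : ℤ × ℤ => Fin 4 → ℝ))
    generateFrom_measurableCylinders.symm).approx D hD (measure_ne_top _ _) _ hε
  rw [ENNReal.ofReal_toReal hm] at hAB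
  obtain ⟨R, hR⟩ := TR2_loc hB
  have h2 : law α (symmDiff D B) ≤ η := hAB.le.trans (min_le_left _ _)
  refine ⟨R, B, MeasurableSet.of_mem_measurableCylinders hB, hR R le_rfl,
    (measure_mono fun x hx => ?_).trans h2, (measure_mono fun x hx => ?_).trans h2⟩
  · exact Set.mem_symmDiff.2 (Or.inl hx)
  · exact Set.mem_symmDiff.2 (Or.inr hx)

end DRW
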