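import Pool.Agent.P.MP_de05b4_pr.Basic2

/-! Lower bound for the rate of entrance in a deep trap. -/

namespace DRW

open MeasureTheory ProbabilityTheory Finset Filter
open scoped ENNReal Topology

noncomputable def N9_J (α : Fin 4 → ℝ) (s : ℝ) (l : ℝ≥0∞) (g : ℤ × ℤ → Env → ℝ≥0∞) : ℝ≥0∞ :=
  ∫⁻ ω, (Sh s).indicator 1 ω * ∑' x, g x ω * LL ω l x ∂law α

theorem N9_meas (hm : StNMeas) (s : ℝ) (l : ℝ≥0∞) {g : ℤ × ℤ → Env → ℝ≥0∞}
    (hg : ∀ x, Measurable (g x)) :
    Measurable fun ω => (Sh s).indicator (1 : Env → ℝ≥0∞) ω * ∑' x, g x ω * LL ω l x :=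
  (measurable_one.indicator ((hm l).2.2.2.2.1 s)).fun_mul
    (Measurable.tsum fun x => (hg x).fun_mul ((hm l).2.2.2.1 x))

theorem N9_le (hm : StNMeas) (α : Fin 4 → ℝ) (s : ℝ) (l a : ℝ≥0∞)
    {g g₁ g₂ : ℤ × ℤ → Env → ℝ≥0∞} (h₁ : ∀ x, Measurable (g₁ x)) (h₂ : ∀ x, Measurable (g₂ x))
    (h : ∀ x ω, g x ω ≤ a * g₁ x ω + g₂ x ω) :
    N9_J α s l g ≤ a * N9_J α s l g₁ + N9_J α s l g₂ := by
  unfold N9_J
  rw [← lintegral_const_mul _ (N9_meas hm s l h₁),
    ← lintegral_add_right _ (N9_meas hm s l h₂)]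
  refine lintegral_mono fun ω => ?_
  rw [mul_left_comm, ← mul_add]
  refine mul_le_mul_right ?_ _
  rw [← ENNReal.tsum_mul_left, ← ENNReal.tsum_add]
  refine ENNReal.tsum_le_tsum fun x => ?_
  rw [← mul_assoc, ← add_mul]
  exact mul_le_mul_left (h x ω) _

theorem N9_pos (hG : StGood) (hm : StNMeas) {α : Fin 4 → ℝ} (hα : ∀ i, 0 < α i)
    {f : Env → ℝ≥0∞} (hf : Dens α f) :
    ∫⁻ ω, (Sh 1).indicator 1 ω * InK f ω ∂law α ≠ 0 := by
  intro h
  have mI : Measurable (InK f) := Measurable.tsum fun x =>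
    (hf.meas.comp (measurable_shift x)).fun_mul ((hm 1).2.1 x)
  rw [lintegral_eq_zero_iff
    ((measurable_one.indicator ((hm 1).2.2.2.2.1 1)).fun_mul mI)] at h
  refine (hG α hα).1.ne' (measure_eq_zero_iff_ae_notMem.mpr ?_)
  filter_upwards [h, hf.pos, ae_good hα] with ω h1 h2 h3 hω
  have a : ENNReal.ofReal (ω (-1, 0) 0) ≤ cK ω (-1, 0) := by
    unfold cK
    rw [if_neg (by decide)]
    refine le_trans (le_of_eq ?_) (single_le_sum
      (f := fun i => if ((-1, 0) : ℤ × ℤ) + dir i ∈ KK then ENNReal.ofReal (ω (-1, 0) i) else 0)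
      (fun _ _ => bot_le) (mem_univ 0))
    rw [if_pos (by decide)]
  have b : 0 < f (shift (-1, 0) ω) * cK ω (-1, 0) :=
    ENNReal.mul_pos (h2 _).ne' ((ENNReal.ofReal_pos.mpr (h3.pos _ _)).trans_le a).ne'
  have c : 0 < InK f ω := b.trans_le (ENNReal.le_tsum (f := fun x => f (shift x ω) * cK ω x) _)
  simp only [Set.indicator_of_mem hω, Pi.one_apply, one_mul, Pi.zero_apply] at h1
  exact c.ne' h1

theorem N9_cut {α : Fin 4 → ℝ} {f : Env → ℝ≥0∞} (hf : Dens α f) {ε : ℝ≥0∞} (hε : 0 < ε) :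
    ∃ n : ℕ, ∫⁻ ω, {ω | ((n : ℝ≥0∞) + 1)⁻¹ ≤ f ω ∧ f ω ≤ n + 1}ᶜ.indicator f ω ∂law α ≤ ε := by
  have ms : ∀ n : ℕ, MeasurableSet {ω | ((n : ℝ≥0∞) + 1)⁻¹ ≤ f ω ∧ f ω ≤ n + 1} := fun n =>
    (measurableSet_le measurable_const hf.meas).inter (measurableSet_le hf.meas measurable_const)
  have := tendsto_lintegral_of_dominated_convergence (μ := law α)
    (F := fun (n : ℕ) ω =>
      {ω | ((n : ℝ≥0∞) + 1)⁻¹ ≤ f ω ∧ f ω ≤ n + 1}ᶜ.indicator f ω) (f := fun _ => 0) f
    (fun n => hf.meas.indicator (ms n).compl)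
    (fun n => ae_of_all _ fun ω => Set.indicator_le_self _ _ ω) (by rw [hf.mass]; simp)
    (ae_of_all _ fun ω => by
      rcases eq_or_ne (f ω) 0 with h0 | h0
      · refine tendsto_const_nhds.congr fun n => ?_
        exact (le_antisymm ((Set.indicator_le_self _ _ ω).trans h0.le) bot_le).symm
      · obtain ⟨a, ha⟩ := ENNReal.exists_nat_gt (hf.fin ω)
        obtain ⟨b, hb⟩ := ENNReal.exists_inv_nat_lt h0
        refine tendsto_const_nhds.congr' ?_
        filter_upwards [eventually_ge_atTop a, eventually_ge_atTop b] with n h1 h2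
        rw [Set.indicator_of_notMem]
        refine Set.notMem_compl_iff.mpr ⟨le_trans ?_ hb.le, ha.le.trans ?_⟩
        · exact ENNReal.inv_le_inv.mpr (le_trans (by exact_mod_cast h2) le_self_add)
        · exact le_trans (by exact_mod_cast h1) le_self_add)
  rw [lintegral_zero] at this
  exact (this.eventually (eventually_le_nhds hε)).exists

theorem pf_N9 (h5 : StN5) (h8 : StN8) (ha : StN9a) (hb : StN9b) (hG : StGood) (hm : StNMeas) :
    StN9 := by
  intro α hα f hf
  set c0 := ∫⁻ ω, (Sh 1).indicator 1 ω * InK f ω ∂law α with hc0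
  have p0 : c0 ≠ 0 := N9_pos hG hm hα hf
  have f0 : c0 ≠ ⊤ := by
    have := h5 α hα 1 one_pos le_rfl 1 one_pos le_rfl
    rw [hc0, this.2 f hf]
    refine ne_top_of_le_ne_top ?_ (this.1 f hf.meas)
    rw [hf.mass]; simp
  obtain ⟨n, hn⟩ := N9_cut hf (ε := c0 / 2) (ENNReal.half_pos p0)
  set N : ℝ≥0∞ := (n : ℝ≥0∞) + 1 with hN
  have N0 : N ≠ 0 := by simp [hN]
  have N1 : N ≠ ⊤ := by simp [hN]
  set D : Set Env := {ω | N⁻¹ ≤ f ω ∧ f ω ≤ N} with hD
  have mD : MeasurableSet D :=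
    (measurableSet_le measurable_const hf.meas).inter (measurableSet_le hf.meas measurable_const)
  have mi : ∀ {A : Set Env}, MeasurableSet A → ∀ x : ℤ × ℤ,
      Measurable fun ω => A.indicator (1 : Env → ℝ≥0∞) (shift x ω) := fun hA x =>
    (measurable_one.indicator hA).comp (measurable_shift x)
  have sw : ∀ {A B : Set Env}, MeasurableSet A → MeasurableSet B → ∀ s : ℝ, 0 < s → s ≤ 1 →
      ∀ l : ℝ≥0∞, 0 < l → l ≤ 1 → N9_J α s l (fun x ω => A.indicator 1 (shift x ω)) ≤
        N9_J α s l (fun x ω => B.indicator 1 (shift x ω)) + law α (A \ B) := by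
    intro A B hA hB s s0 s1 l l0 l1
    refine (N9_le hm α s l 1 (mi hB) (mi (hA.diff hB)) fun x ω => ?_).trans ?_
    · by_cases h1 : shift x ω ∈ A <;> by_cases h2 : shift x ω ∈ B <;> simp [h1, h2]
    · rw [one_mul]
      refine add_le_add_right ?_ _
      refine ((h5 α hα s s0 s1 l l0 l1).1 _ (measurable_one.indicator (hA.diff hB))).trans ?_
      rw [lintegral_indicator_one (hA.diff hB)]
  refine ⟨(c0 / (4 * N ^ 2)).toReal, ENNReal.toReal_pos ?_ ?_, fun t t0 t1 => ?_⟩
  · exact (ENNReal.div_pos p0 (by finiteness)).ne'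
  · exact ENNReal.div_ne_top f0 (by positivity)
  set I := ∫⁻ ω, (Sh t).indicator 1 ω * InK f ω ∂law α with hI
  set τ := ENNReal.ofReal (t ^ (2 * ∑ i, α i - (α 0 + α 2))) with hτ
  have τ1 : τ ≤ 1 := by
    refine ENNReal.ofReal_le_one.mpr (Real.rpow_le_one t0.le t1 ?_)
    rw [Fin.sum_univ_four]
    linarith [hα 0, hα 1, hα 2, hα 3]
  have key : τ * (c0 / 2) ≤ 2 * N ^ 2 * I := by
    refine ENNReal.le_of_forall_pos_le_add fun ε ε0 _ => ?_
    set η : ℝ≥0∞ := ε / (3 * N) with hη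
    have η0 : 0 < η := ENNReal.div_pos (by exact_mod_cast ε0.ne') (by finiteness)
    have e1 : 3 * N * η = ε := ENNReal.mul_div_cancel (by positivity) (by finiteness)
    obtain ⟨R, D', mD', lD', d1, d2⟩ := h8 α hα D mD η η0
    have lim := ENNReal.Tendsto.const_mul (a := N)
      ((hb α hα f hf ((R : ℤ) + 3)).const_add (2 * (N * I + η) + η)) (Or.inr N1)
    have e2 : N * (2 * (N * I + η) + η + 0) = 2 * N ^ 2 * I + ε := by
      rw [← e1]; ring
    rw [e2] at lim
    refine ge_of_tendsto' lim fun j => ?_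
    set l : ℝ≥0∞ := ((j : ℝ≥0∞) + 1)⁻¹ with hl
    have l0 : 0 < l := ENNReal.inv_pos.mpr (by simp)
    have l1 : l ≤ 1 := ENNReal.inv_le_one.mpr le_add_self
    have a1 : c0 / 2 ≤ N * N9_J α 1 l (fun x ω => D.indicator 1 (shift x ω)) := by
      have b := h5 α hα 1 one_pos le_rfl l l0 l1
      have c := N9_le hm α 1 l N (g := fun x ω => f (shift x ω)) (mi mD)
        (g₂ := fun x ω => Dᶜ.indicator f (shift x ω))
        (fun x => (hf.meas.indicator mD.compl).comp (measurable_shift x)) fun x ω => by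
          by_cases h1 : shift x ω ∈ D
          · simpa [h1] using h1.2
          · simp [h1]
      have d : c0 ≤ N * N9_J α 1 l (fun x ω => D.indicator 1 (shift x ω)) + c0 / 2 := by
        refine le_trans (le_of_eq (b.2 f hf)) (c.trans (add_le_add_right ?_ _))
        exact (b.1 _ (hf.meas.indicator mD.compl)).trans hn
      nth_rw 1 [← ENNReal.add_halves c0] at d
      exact ENNReal.le_of_add_le_add_right (ENNReal.div_ne_top f0 two_ne_zero) d
    have a2 := sw mD mD' 1 one_pos le_rfl l l0 l1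
    have a3 := N9_le hm α 1 l 1 (g := fun x ω => D'.indicator 1 (shift x ω))
      (g₁ := fun x ω => if (R : ℤ) + 3 ≤ nm x then D'.indicator 1 (shift x ω) else 0)
      (g₂ := fun x _ => if nm x < (R : ℤ) + 3 then 1 else 0)
      (fun x => by
        split_ifs
        · exact mi mD' x
        · exact measurable_const) (fun _ => measurable_const) fun x ω => by
        by_cases h1 : nm x < (R : ℤ) + 3
        · rw [if_pos h1]
          exact le_add_left (Set.indicator_le_self' (fun _ _ => bot_le) _)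
        · rw [if_pos (not_lt.mp h1), one_mul]
          exact le_self_add
    have a4 := ha α hα t t0 t1 l l0 l1 R D' mD' lD'
    have a5 := sw mD' mD t t0 t1 l l0 l1
    have a6 : N9_J α t l (fun x ω => D.indicator 1 (shift x ω)) ≤ N * I := by
      have c := N9_le hm α t l N (g := fun x ω => D.indicator 1 (shift x ω))
        (g₁ := fun x ω => f (shift x ω)) (g₂ := fun _ _ => 0)
        (fun x => hf.meas.comp (measurable_shift x)) (fun _ => measurable_const) fun x ω => by
          by_cases h1 : shift x ω ∈ D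
          · rw [Set.indicator_of_mem h1, add_zero, Pi.one_apply, ← ENNReal.mul_inv_cancel N0 N1]
            exact mul_le_mul_right h1.1 _
          · rw [Set.indicator_of_notMem h1]
            exact bot_le
      refine c.trans (le_of_eq ?_)
      rw [hI, (h5 α hα t t0 t1 l l0 l1).2 f hf]
      simp [N9_J]
    rw [one_mul] at a3
    unfold N9_J at a3
    simp only [ite_mul, zero_mul, one_mul] at a3
    set far := ∫⁻ ω, (Sh 1).indicator 1 ω * ∑' x : ℤ × ℤ,
      (if (R : ℤ) + 3 ≤ nm x then D'.indicator 1 (shift x ω) * LL ω l x else 0) ∂law α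
    set near := ∫⁻ ω, (Sh 1).indicator 1 ω * ∑' x : ℤ × ℤ,
      (if nm x < (R : ℤ) + 3 then LL ω l x else 0) ∂law α
    have b1 : τ * far ≤ 2 * (N * I + η) :=
      a4.trans (mul_le_mul_right (a5.trans (add_le_add a6 d2)) _)
    have b2 : c0 / 2 ≤ N * (far + near + η) :=
      a1.trans (mul_le_mul_right (a2.trans (add_le_add a3 d1)) _)
    calc τ * (c0 / 2) ≤ τ * (N * (far + near + η)) := mul_le_mul_right b2 _
      _ = N * (τ * far + τ * η + τ * near) := by ring
      _ ≤ N * (2 * (N * I + η) + η + near) :=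
        mul_le_mul_right (add_le_add (add_le_add b1 (mul_le_of_le_one_left' τ1))
          (mul_le_of_le_one_left' τ1)) _
  rw [ENNReal.ofReal_mul ENNReal.toReal_nonneg,
    ENNReal.ofReal_toReal (ENNReal.div_ne_top f0 (by positivity)), ← hτ, mul_comm,
    ← mul_div_assoc]
  refine ENNReal.div_le_of_le_mul ?_
  calc τ * c0 = 2 * (τ * (c0 / 2)) := by
        rw [mul_left_comm, ENNReal.mul_div_cancel two_ne_zero (by simp)]
    _ ≤ 2 * (2 * N ^ 2 * I) := mul_le_mul_right key _
    _ = I * (4 * N ^ 2) := by ring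

end DRW
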