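import Pool.Agent.P.MP_de05b4_pr.Basic2

/-! The far sources feel the depth of the trap through a bounded factor, and the near sources
vanish in the limit of small killing. -/

namespace DRW

open MeasureTheory ProbabilityTheory Finset Filter
open scoped ENNReal Topology

theorem N9a_loc {R : ℕ} {D : Set Env} (hD : Loc R D) (t : ℝ) (ω : Env) {x : ℤ × ℤ}
    (hx : (R : ℤ) + 3 ≤ nm x) : shift x (Dt t ω) ∈ D ↔ shift x ω ∈ D := by
  refine hD _ _ fun w h1 h2 => ?_
  obtain ⟨a, b⟩ := x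
  obtain ⟨c, d⟩ := w
  simp only [nm, le_max_iff, le_abs] at hx
  simp only [abs_le] at h1 h2
  have h0 : (a, b) + (c, d) ≠ ((0, 0) : ℤ × ℤ) := by
    simp only [Prod.mk_add_mk, ne_eq, Prod.mk.injEq]; omega
  have h1 : (a, b) + (c, d) ≠ ((1, 0) : ℤ × ℤ) := by
    simp only [Prod.mk_add_mk, ne_eq, Prod.mk.injEq]; omega
  simp only [shift, Dt, if_neg h0, if_neg h1]

theorem pf_N9a (h1 : StN1) (h2 : StN2) (hm : StNMeas) : StN9a := by
  intro α hα t ht ht1 l hl hl1 R D hD hloc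
  obtain ⟨-, -, -, mLL, mSh, -, mDt⟩ := hm l
  have mD : ∀ x, Measurable fun ω : Env => D.indicator (1 : Env → ℝ≥0∞) (shift x ω) :=
    fun x => (measurable_one.indicator hD).comp (measurable_shift x)
  set Ψ : Env → ℝ≥0∞ := fun ω => (Sh t).indicator 1 ω * ∑' x : ℤ × ℤ,
    (if (R : ℤ) + 3 ≤ nm x then D.indicator 1 (shift x ω) * LL ω l x else 0) with hΨ
  have mΨ : Measurable Ψ := by
    refine (measurable_one.indicator (mSh t)).mul (Measurable.tsum fun x => ?_)
    split_ifs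
    · exact (mD x).mul (mLL x)
    · exact measurable_const
  have key : ∀ ω, Good ω → (Sh 1).indicator 1 ω * ∑' x : ℤ × ℤ,
      (if (R : ℤ) + 3 ≤ nm x then D.indicator 1 (shift x ω) * LL ω l x else 0) ≤
      2 * Ψ (Dt t ω) := by
    intro ω hω
    by_cases hs : ω ∈ Sh 1
    · obtain ⟨-, hs', hL⟩ := h2 ω hω hs t ht ht1
      simp only [hΨ, Set.indicator_of_mem hs, Set.indicator_of_mem hs', Pi.one_apply, one_mul]
      rw [← ENNReal.tsum_mul_left]
      refine ENNReal.tsum_le_tsum fun x => ?_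
      split_ifs with hx
      · have e : D.indicator (1 : Env → ℝ≥0∞) (shift x (Dt t ω)) = D.indicator 1 (shift x ω) := by
          by_cases hx' : shift x ω ∈ D
          · rw [Set.indicator_of_mem hx', Set.indicator_of_mem ((N9a_loc hloc t ω hx).2 hx')]
            rfl
          · rw [Set.indicator_of_notMem hx',
              Set.indicator_of_notMem fun h => hx' ((N9a_loc hloc t ω hx).1 h)]
        rw [e, mul_left_comm]
        refine mul_le_mul_right (hL l hl hl1 x ?_) _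
        have : (0 : ℤ) ≤ R := Int.natCast_nonneg R
        omega
      · exact zero_le
    · rw [Set.indicator_of_notMem hs, zero_mul]; exact zero_le
  calc _ ≤ ENNReal.ofReal (t ^ (2 * ∑ i, α i - (α 0 + α 2))) *
        ∫⁻ ω, 2 * Ψ (Dt t ω) ∂law α :=
        mul_le_mul_right (lintegral_mono_ae ((ae_good hα).mono key)) _
    _ = 2 * (ENNReal.ofReal (t ^ (2 * ∑ i, α i - (α 0 + α 2))) * ∫⁻ ω, Ψ (Dt t ω) ∂law α) := by
        rw [lintegral_const_mul' _ _ (by norm_num), mul_left_comm]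
    _ ≤ 2 * ∫⁻ ω, Ψ ω ∂law α := mul_le_mul_right (h1 α hα t ht ht1 Ψ mΨ) _
    _ ≤ _ := by
        refine mul_le_mul_right (lintegral_mono fun ω => ?_) _
        refine mul_le_mul_right (ENNReal.tsum_le_tsum fun x => ?_) _
        split_ifs
        · exact le_rfl
        · exact zero_le

theorem N9a_LL_le (hM : StNM) (h5 : StN5a) {ω : Env} (hω : Good ω) (hs : ω ∈ Sh 1) {l : ℝ≥0∞}
    (hl : 0 < l) (hl1 : l ≤ 1) (x : ℤ × ℤ) : LL ω l x ≤ 1 := by
  have hc := (h5 ω hω 1 one_pos le_rfl l hl hl1).2.1 hs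
  have hb := (hM ω hω l hl hl1).2.2.1 _ hc
  calc LL ω l x ≤ l * 1 * l⁻¹ :=
        mul_le_mul' (mul_le_mul_right (kk_le_one ω x) _) (pOp_le hω fun i => hb _)
    _ = 1 := by
        rw [mul_one, ENNReal.mul_inv_cancel hl.ne' (ne_top_of_le_ne_top ENNReal.one_ne_top hl1)]

theorem pf_N9b (h4 : StN4) (hM : StNM) (h5 : StN5a) (hm : StNMeas) : StN9b := by
  intro α hα f hf ρ
  have := prob_law hα
  set S : Finset (ℤ × ℤ) := Finset.Icc (-ρ) ρ ×ˢ Finset.Icc (-ρ) ρ with hS
  have hsum : ∀ (ω : Env) (l : ℝ≥0∞), ∑' x : ℤ × ℤ, (if nm x < ρ then LL ω l x else 0) =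
      ∑ x ∈ S, (if nm x < ρ then LL ω l x else 0) := by
    intro ω l
    refine tsum_eq_sum fun x hx => if_neg fun h => hx ?_
    simp only [nm, max_lt_iff, abs_lt] at h
    simp only [hS, Finset.mem_product, Finset.mem_Icc]
    omega
  simp only [hsum]
  have hl0 : ∀ n : ℕ, 0 < ((n : ℝ≥0∞) + 1)⁻¹ := fun n => ENNReal.inv_pos.2 (by simp)
  have hl1 : ∀ n : ℕ, ((n : ℝ≥0∞) + 1)⁻¹ ≤ 1 := fun n => ENNReal.inv_le_one.2 le_add_self
  suffices h : Tendsto (fun n : ℕ => ∫⁻ ω, (Sh 1).indicator 1 ω *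
      ∑ x ∈ S, (if nm x < ρ then LL ω ((n : ℝ≥0∞) + 1)⁻¹ x else 0) ∂law α) atTop
      (𝓝 (∫⁻ _, 0 ∂law α)) by
    rwa [lintegral_zero] at h
  refine tendsto_lintegral_of_dominated_convergence (fun _ => (S.card : ℝ≥0∞)) ?_ ?_ ?_ ?_
  · intro n
    obtain ⟨-, -, -, mLL, mSh, -, -⟩ := hm ((n : ℝ≥0∞) + 1)⁻¹
    refine (measurable_one.indicator (mSh 1)).mul (Finset.measurable_sum _ fun x _ => ?_)
    split_ifs
    · exact mLL x
    · exact measurable_const
  · intro n
    filter_upwards [ae_good hα] with ω hω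
    by_cases hs : ω ∈ Sh 1
    · rw [Set.indicator_of_mem hs, Pi.one_apply, one_mul]
      refine (Finset.sum_le_card_nsmul S _ 1 fun x _ => ?_).trans (by simp)
      split_ifs
      · exact N9a_LL_le hM h5 hω hs (hl0 n) (hl1 n) x
      · exact zero_le
    · rw [Set.indicator_of_notMem hs, zero_mul]; exact zero_le
  · simp
  · filter_upwards [ae_good hα, hf.site, hf.inf] with ω hω hsite hinf
    by_cases hs : ω ∈ Sh 1
    · simp only [Set.indicator_of_mem hs, Pi.one_apply, one_mul]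
      suffices h : Tendsto (fun n : ℕ =>
          ∑ x ∈ S, (if nm x < ρ then LL ω ((n : ℝ≥0∞) + 1)⁻¹ x else 0)) atTop
          (𝓝 (∑ _x ∈ S, 0)) by
        rwa [Finset.sum_const_zero] at h
      refine tendsto_finsetSum _ fun x _ => ?_
      split_ifs
      · exact h4 ω hω hs (fun x => f (shift x ω)) (fun x => hf.fin _) hsite hinf x
      · exact tendsto_const_nhds
    · simp only [Set.indicator_of_notMem hs, zero_mul]
      exact tendsto_const_nhds

end DRW
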