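import Pool.Agent.P.MP_de05b4_pr.Basic2

/-! No explosion: the iterated exit bound and the essential supremum argument. -/

namespace DRW

open MeasureTheory ProbabilityTheory Finset Filter
open scoped ENNReal Topology

theorem NE1_coef_lt {g : ℝ} (hg : 0 < g) : ENNReal.ofReal (g / (1 + g)) < 1 := by
  rw [ENNReal.ofReal_lt_one, div_lt_one (by linarith)]
  linarith

theorem NE1_succ_le {γ : Env → ℝ} (hγ : ∀ ω, 0 < γ ω) :
    ∀ (m : ℕ) (ω : Env), Good ω → zed γ (m + 1) ω ≤ zed γ m ω := by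
  intro m
  induction m with
  | zero =>
    intro ω hω
    change ENNReal.ofReal (γ ω / (1 + γ ω)) * stepOp (fun _ => 1) ω ≤ 1
    rw [stepOp_const hω, mul_one]
    exact (NE1_coef_lt (hγ ω)).le
  | succ m ih =>
    intro ω hω
    change ENNReal.ofReal (γ ω / (1 + γ ω)) * stepOp (zed γ (m + 1)) ω ≤
      ENNReal.ofReal (γ ω / (1 + γ ω)) * stepOp (zed γ m) ω
    exact mul_le_mul_right (stepOp_mono fun i => ih _ (hω.shift _)) _

theorem NE1_le_one (γ : Env → ℝ) (ω : Env) : ⨅ m, zed γ m ω ≤ 1 := iInf_le (fun m => zed γ m ω) 0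

theorem NE1_step {γ : Env → ℝ} (hγ : ∀ ω, 0 < γ ω) {ω : Env} (hω : Good ω) :
    ⨅ m, zed γ m ω ≤ ENNReal.ofReal (γ ω / (1 + γ ω)) * stepOp (fun w => ⨅ m, zed γ m w) ω := by
  have h1 : Tendsto (fun m => ENNReal.ofReal (γ ω / (1 + γ ω)) * stepOp (zed γ m) ω) atTop
      (𝓝 (ENNReal.ofReal (γ ω / (1 + γ ω)) * stepOp (fun w => ⨅ m, zed γ m w) ω)) := by
    refine ENNReal.Tendsto.const_mul ?_ (Or.inr ENNReal.ofReal_ne_top)
    unfold stepOp
    refine tendsto_finsetSum _ fun i _ => ?_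
    refine ENNReal.Tendsto.const_mul ?_ (Or.inr ENNReal.ofReal_ne_top)
    exact tendsto_atTop_iInf
      (antitone_nat_of_succ_le fun m => NE1_succ_le hγ m _ (hω.shift _))
  exact ge_of_tendsto' h1 fun m => iInf_le (fun m => zed γ m ω) (m + 1)

theorem NE1_abar (R : ℕ) {ω : Env} (hω : Good ω) (x : ℤ × ℤ) :
    ENNReal.ofReal (gamR R (shift x ω) / (1 + gamR R (shift x ω))) ≤ abar R x ω := by
  have hp := (hω.shift x).pos
  have hS := SR_pos R hp
  have hP : 0 < ∏ k ∈ range R, ω (x + (k : ℤ) • dir (odir x)) (odir x) :=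
    prod_pos fun _ _ => hω.pos _ _
  have hle : ∏ k ∈ range R, ω (x + (k : ℤ) • dir (odir x)) (odir x) ≤ SR R (shift x ω) :=
    single_le_sum (f := fun i => ∏ k ∈ range R, shift x ω ((k : ℤ) • dir i) i)
      (fun i _ => (prod_pos fun _ _ => hp _ i).le) (mem_univ (odir x))
  rw [gamR_eq R hp]
  refine ENNReal.ofReal_le_ofReal ?_
  have e : (SR R (shift x ω))⁻¹ / (1 + (SR R (shift x ω))⁻¹) = 1 / (1 + SR R (shift x ω)) := by
    field_simp
    ring
  rw [e]
  exact one_div_le_one_div_of_le (by linarith) (by linarith)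

theorem NE1_box (ρ : ℤ) {a : ℤ × ℤ → ℝ≥0∞} (ha : ∀ x, a x < 1) :
    ∃ a₀ : ℝ≥0∞, a₀ < 1 ∧ ∀ x, nm x < ρ → a x ≤ a₀ := by
  refine ⟨(Finset.Icc (-ρ) ρ ×ˢ Finset.Icc (-ρ) ρ).sup a,
    (Finset.sup_lt_iff zero_lt_one).2 fun x _ => ha x, fun x hx => Finset.le_sup ?_⟩
  have h1 : |x.1| < ρ := lt_of_le_of_lt (le_max_left _ _) hx
  have h2 : |x.2| < ρ := lt_of_le_of_lt (le_max_right _ _) hx
  rw [abs_lt] at h1 h2
  simp only [Finset.mem_product, Finset.mem_Icc]
  exact ⟨⟨h1.1.le, h1.2.le⟩, h2.1.le, h2.2.le⟩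

theorem pf_NE1 : StNE1 := by
  intro R ω hω q _ hq ρ _
  set Z : ℤ × ℤ → ℝ≥0∞ := fun x => ⨅ m, zed (gamR R) m (shift x ω) with hZ
  set a : ℤ × ℤ → ℝ≥0∞ := fun x =>
    ENNReal.ofReal (gamR R (shift x ω) / (1 + gamR R (shift x ω))) with ha
  have hlt : ∀ x, a x < 1 := fun x => NE1_coef_lt (gamR_pos R _)
  have hstep : ∀ x, Z x ≤ a x * pOp ω Z x := fun x => by
    have h := NE1_step (gamR_pos R) (hω.shift x)
    rwa [stepOp_shift] at h
  have hout : ∀ x, Z x ≤ q * abar R x ω := fun x => by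
    rw [mul_comm]
    exact (hstep x).trans (mul_le_mul' (NE1_abar R hω x) (pOp_le hω fun i => hq _))
  obtain ⟨a₀, h0, hb⟩ := NE1_box ρ hlt
  have hind : ∀ (n : ℕ) (x : ℤ × ℤ),
      Z x ≤ q * exitIt ρ ω (fun x => abar R x ω) n x + a₀ ^ n := by
    intro n
    induction n with
    | zero =>
      intro x
      rw [pow_zero]
      exact (NE1_le_one _ _).trans le_add_self
    | succ n ih =>
      intro x
      rw [exitIt]
      split_ifs with hx
      · refine (hstep x).trans ((mul_le_mul_right (pOp_mono ω (F' := fun y =>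
          q * exitIt ρ ω (fun x => abar R x ω) n y + a₀ ^ n) fun i => ih _) _).trans ?_)
        rw [pOp_add, pOp_const_mul, pOp_const hω, mul_add, pow_succ']
        exact add_le_add (mul_le_of_le_one_left' (hlt x).le) (mul_le_mul_left (hb x hx) _)
      · exact (hout x).trans le_self_add
  have hlim : Tendsto (fun n : ℕ => q * Wex R ρ ω + a₀ ^ n) atTop (𝓝 (q * Wex R ρ ω + 0)) :=
    tendsto_const_nhds.add (ENNReal.tendsto_pow_atTop_nhds_zero_of_lt_one h0)
  rw [add_zero] at hlim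
  have e : ⨅ m, zed (gamR R) m ω = Z 0 := by simp only [hZ, shift_zero]
  rw [e]
  refine ge_of_tendsto' hlim fun n => (hind n 0).trans (add_le_add (mul_le_mul_right ?_ _) le_rfl)
  exact le_iSup (fun n => exitIt ρ ω (fun x => abar R x ω) n 0) n

theorem pf_NE (h1 : StNE1) (h2 : StNE2) : StNE := by
  intro α hα R
  obtain ⟨b, hb, hae⟩ := h2 α hα R
  set Z : Env → ℝ≥0∞ := fun ω => ⨅ m, zed (gamR R) m ω with hZ
  set q : ℝ≥0∞ := essSup Z (law α) with hq
  have hq1 : q ≤ 1 := essSup_le_of_ae_le 1 (ae_of_all _ fun ω => NE1_le_one _ ω)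
  have hle : ∀ᵐ ω ∂law α, Z ω ≤ q := ae_le_essSup
  have hqb : q ≤ q * b := by
    refine essSup_le_of_ae_le (q * b) ?_
    filter_upwards [ae_shift hα hle, hae, ae_good hα] with ω h3 h4 h5
    obtain ⟨ρ, hρ, hW⟩ := h4
    exact (h1 R ω h5 q hq1 h3 ρ hρ).trans (mul_le_mul_right hW _)
  have hq0 : q = 0 := by
    by_contra hne
    have hlt : q * b < q * 1 :=
      ENNReal.mul_lt_mul_right hne (ne_top_of_le_ne_top ENNReal.one_ne_top hq1) hb
    rw [mul_one] at hlt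
    exact absurd hqb (not_le.2 hlt)
  filter_upwards [hle] with ω h3
  exact le_antisymm (hq0 ▸ h3) bot_le

end DRW
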