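import Pool.Agent.P.MP_de05b4_pr.Basic2

/-! The conditional mean of the exit functional is bounded by a constant below one. -/

namespace DRW

open MeasureTheory ProbabilityTheory Finset Filter
open scoped ENNReal Topology

noncomputable def NE2a_b (R : ℕ) (i : Fin 4) (ω : Env) : ℝ≥0∞ :=
  ENNReal.ofReal (1 / (1 + ∏ k ∈ range R, ω ((k : ℤ) • dir i) i))

theorem NE2a_b_meas (R : ℕ) (i : Fin 4) : Measurable (NE2a_b R i) :=
  (measurable_const.div (measurable_const.add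
    (Finset.measurable_prod _ fun _ _ => measurable_coord _ i))).ennreal_ofReal

theorem NE2a_abar (R : ℕ) (x : ℤ × ℤ) (ω : Env) :
    abar R x ω = NE2a_b R (odir x) (shift x ω) := rfl

theorem NE2a_abar_meas (R : ℕ) (x : ℤ × ℤ) : Measurable (abar R x) :=
  (measurable_const.div (measurable_const.add
    (Finset.measurable_prod _ fun _ _ => measurable_coord _ (odir x)))).ennreal_ofReal

theorem NE2a_b_lt {α : Fin 4 → ℝ} (hα : ∀ i, 0 < α i) (R : ℕ) (i : Fin 4) :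
    ∫⁻ ω, NE2a_b R i ω ∂law α < 1 := by
  have := prob_dirichlet hα
  have hp : IsProbabilityMeasure (law α) := by unfold law; infer_instance
  have h : ∀ᵐ ω ∂law α, NE2a_b R i ω < 1 := by
    filter_upwards [ae_good hα] with ω hω
    have h1 : 0 < ∏ k ∈ range R, ω ((k : ℤ) • dir i) i := prod_pos fun _ _ => hω.pos _ i
    refine ENNReal.ofReal_lt_one.2 ?_
    rw [div_lt_one (by linarith)]
    linarith
  have h1 : ∫⁻ _, (1 : ℝ≥0∞) ∂law α = 1 := by simp
  have h2 : ∫⁻ ω, NE2a_b R i ω ∂law α ≤ 1 :=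
    (lintegral_mono_ae (h.mono fun _ h => h.le)).trans h1.le
  exact (lintegral_strict_mono (IsProbabilityMeasure.ne_zero _) aemeasurable_const
    (ne_top_of_le_ne_top ENNReal.one_ne_top h2) h).trans_le h1.le

theorem NE2a_nm (x : ℤ × ℤ) (k : ℕ) : nm x ≤ nm (x + (k : ℤ) • dir (odir x)) := by
  obtain ⟨a, b⟩ := x
  unfold odir nm
  split_ifs with h1 h2 h3 <;>
    simp only [dir, Matrix.cons_val_zero, Matrix.cons_val_one, Matrix.cons_val, Prod.smul_mk,
      Prod.mk_add_mk, smul_eq_mul, mul_one, mul_zero, add_zero, mul_neg] at * <;>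
    simp only [abs_eq_max_neg] at * <;> omega

theorem NE2a_dep (R : ℕ) {ρ : ℤ} {x : ℤ × ℤ} (hx : ¬nm x < ρ) :
    DependsOn (abar R x) {y | nm y < ρ}ᶜ := by
  intro ω ω' h
  unfold abar
  congr 3
  refine prod_congr rfl fun k _ => ?_
  rw [h _ fun h1 => hx ((NE2a_nm x k).trans_lt h1)]

theorem NE2a_meas (R : ℕ) (ρ : ℤ) : ∀ (n : ℕ) (x : ℤ × ℤ),
    Measurable fun ω => exitIt ρ ω (fun y => abar R y ω) n x
  | 0, x => by
    unfold exitIt
    split_ifs
    · exact measurable_const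
    · exact NE2a_abar_meas R x
  | n + 1, x => by
    unfold exitIt
    split_ifs
    · exact Finset.measurable_sum _ fun i _ =>
        (measurable_coord x i).ennreal_ofReal.mul (NE2a_meas R ρ n _)
    · exact NE2a_abar_meas R x

theorem NE2a_succ (ρ : ℤ) (ω : Env) (F : ℤ × ℤ → ℝ≥0∞) : ∀ (n : ℕ) (x : ℤ × ℤ),
    exitIt ρ ω F n x ≤ exitIt ρ ω F (n + 1) x
  | 0, x => by
    simp only [exitIt]
    split_ifs
    · exact zero_le
    · exact le_rfl
  | n + 1, x => by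
    rw [exitIt, exitIt]
    split_ifs
    · exact pOp_mono ω fun i => NE2a_succ ρ ω F n _
    · exact le_rfl

theorem NE2a_claim (hI : StIndZ) {α : Fin 4 → ℝ} (hα : ∀ i, 0 < α i) (R : ℕ) {m : ℝ≥0∞}
    (hm : ∀ i, ∫⁻ ω, NE2a_b R i ω ∂law α ≤ m) (ρ : ℤ) (n : ℕ) :
    ∀ (x : ℤ × ℤ) (Ψ : Env → ℝ≥0∞), Measurable Ψ → DependsOn Ψ {y | nm y < ρ} →
      ∫⁻ ω, Ψ ω * exitIt ρ ω (fun y => abar R y ω) n x ∂law α ≤ m * ∫⁻ ω, Ψ ω ∂law α := by
  have := prob_dirichlet hα
  have hout : ∀ (x : ℤ × ℤ) (Ψ : Env → ℝ≥0∞), ¬nm x < ρ → Measurable Ψ →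
      DependsOn Ψ {y | nm y < ρ} →
      ∫⁻ ω, Ψ ω * abar R x ω ∂law α ≤ m * ∫⁻ ω, Ψ ω ∂law α := by
    intro x Ψ hx hΨ hd
    have h1 : ∫⁻ ω, Ψ ω * abar R x ω ∂law α =
        (∫⁻ ω, Ψ ω ∂law α) * ∫⁻ ω, abar R x ω ∂law α :=
      hI (dirichlet α) _ Ψ (abar R x) hΨ (NE2a_abar_meas R x) hd (NE2a_dep R hx)
    have h2 : ∫⁻ ω, abar R x ω ∂law α = ∫⁻ ω, NE2a_b R (odir x) ω ∂law α :=
      lintegral_shift hα x (NE2a_b_meas R (odir x))
    rw [h1, h2, mul_comm]
    exact mul_le_mul_left (hm _) _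
  induction n with
  | zero =>
    intro x Ψ hΨ hd
    by_cases hx : nm x < ρ
    · simp [exitIt, hx]
    · simpa only [exitIt, hx, if_false] using hout x Ψ hx hΨ hd
  | succ n ih =>
    intro x Ψ hΨ hd
    by_cases hx : nm x < ρ
    · have hme : ∀ i, Measurable fun ω : Env => Ψ ω * ENNReal.ofReal (ω x i) := fun i =>
        hΨ.mul (measurable_coord x i).ennreal_ofReal
      have hde : ∀ i, DependsOn (fun ω : Env => Ψ ω * ENNReal.ofReal (ω x i)) {y | nm y < ρ} :=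
        fun i ω ω' h => by simp only [hd h, h x hx]
      simp only [exitIt, hx, if_true, pOp, mul_sum, ← mul_assoc]
      rw [lintegral_finsetSum _ fun i _ => (hme i).fun_mul (NE2a_meas R ρ n _)]
      refine (sum_le_sum fun i _ => ih _ _ (hme i) (hde i)).trans (le_of_eq ?_)
      rw [← mul_sum, ← lintegral_finsetSum _ fun i _ => hme i]
      congr 1
      refine lintegral_congr_ae ?_
      filter_upwards [ae_good hα] with ω hω
      rw [← mul_sum, hω.sum_ofReal, mul_one]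
    · simpa only [exitIt, hx, if_false] using hout x Ψ hx hΨ hd

theorem pf_NE2a (hI : StIndZ) : StNE2a := by
  intro α hα R
  refine ⟨univ.sup fun i => ∫⁻ ω, NE2a_b R i ω ∂law α,
    (Finset.sup_lt_iff (by simp)).2 fun i _ => NE2a_b_lt hα R i, fun ρ _ Ψ hΨ hd => ?_⟩
  simp only [Wex, ENNReal.mul_iSup]
  rw [lintegral_iSup (fun n => hΨ.fun_mul (NE2a_meas R ρ n 0)) fun a b hab ω =>
    mul_le_mul_right (monotone_nat_of_le_succ (fun n => NE2a_succ ρ ω _ n 0) hab) _]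
  exact iSup_le fun n => NE2a_claim hI hα R
    (fun i => le_sup (f := fun i => ∫⁻ ω, NE2a_b R i ω ∂law α) (mem_univ i)) ρ n 0 Ψ hΨ hd

end DRW
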