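import Pool.Agent.P.MP_de05b4_pr.Basic2

/-! Elementary facts on minimal solutions, and measurability. -/

namespace DRW

open MeasureTheory ProbabilityTheory Finset Filter
open scoped ENNReal Topology

theorem NM_mono (ω : Env) (l : ℝ≥0∞) (c : ℤ × ℤ → ℝ≥0∞) : Monotone (Mit ω l c) := by
  refine monotone_nat_of_le_succ fun n => ?_
  induction n with
  | zero => intro x; exact zero_le
  | succ n ih =>
    intro x
    exact add_le_add le_rfl (mul_le_mul_right (pOp_mono ω fun i => ih _) _)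

theorem NM_eq (ω : Env) (l : ℝ≥0∞) (c : ℤ × ℤ → ℝ≥0∞) (x : ℤ × ℤ) :
    MM ω l c x = c x + (1 - l * kk ω x) * pOp ω (MM ω l c) x := by
  have hm : Monotone fun n => Mit ω l c n x := fun a b hab => NM_mono ω l c hab x
  have e : pOp ω (MM ω l c) x = ⨆ k, pOp ω (Mit ω l c k) x := pOp_iSup ω (NM_mono ω l c) x
  rw [e, ENNReal.mul_iSup, ENNReal.add_iSup, MM, ← hm.iSup_nat_add 1]
  rfl

theorem NM_le (ω : Env) (l : ℝ≥0∞) (c F : ℤ × ℤ → ℝ≥0∞)
    (h : ∀ x, c x + (1 - l * kk ω x) * pOp ω F x ≤ F x) (x : ℤ × ℤ) : MM ω l c x ≤ F x := by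
  refine iSup_le fun n => ?_
  induction n generalizing x with
  | zero => exact zero_le
  | succ n ih =>
    exact (add_le_add le_rfl (mul_le_mul_right (pOp_mono ω fun i => ih _) _)).trans (h x)

theorem NM_inv {ω : Env} (hω : Good ω) {l : ℝ≥0∞} (h0 : 0 < l) (h1 : l ≤ 1)
    (c : ℤ × ℤ → ℝ≥0∞) (hc : ∀ x, c x ≤ kk ω x) (x : ℤ × ℤ) : MM ω l c x ≤ l⁻¹ := by
  refine NM_le ω l c (fun _ => l⁻¹) (fun y => ?_) x
  rw [pOp_const hω]
  have h := hc y
  have hl : l * l⁻¹ = 1 := ENNReal.mul_inv_cancel h0.ne' (ne_top_of_le_ne_top ENNReal.one_ne_top h1)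
  unfold kk at h ⊢
  split_ifs at h ⊢ with hk
  · calc c y + (1 - l * 1) * l⁻¹ ≤ l * l⁻¹ + (1 - l) * l⁻¹ := by
          rw [mul_one, hl]; exact add_le_add h le_rfl
      _ = l⁻¹ := by rw [← add_mul, add_tsub_cancel_of_le h1, one_mul]
  · rw [nonpos_iff_eq_zero.1 h]; simp

theorem NM_it_tsum (ω : Env) (l : ℝ≥0∞) (c : ℤ × ℤ → ℤ × ℤ → ℝ≥0∞) (n : ℕ) (x : ℤ × ℤ) :
    Mit ω l (fun y => ∑' z, c z y) n x = ∑' z, Mit ω l (c z) n x := by
  induction n generalizing x with
  | zero => simp [Mit]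
  | succ n ih =>
    have e : Mit ω l (fun y => ∑' z, c z y) n = fun y => ∑' z, Mit ω l (c z) n y := funext ih
    simp only [Mit]
    rw [e, pOp_tsum, ENNReal.tsum_add, ENNReal.tsum_mul_left]

theorem NM_iSup_tsum {ι : Type*} (f : ℕ → ι → ℝ≥0∞) (hf : Monotone f) :
    ⨆ n, ∑' z, f n z = ∑' z, ⨆ n, f n z := by
  simp only [ENNReal.tsum_eq_iSup_sum]
  rw [iSup_comm]
  exact iSup_congr fun s =>
    (ENNReal.finsetSum_iSup_of_monotone fun i a b hab => hf hab i).symm

theorem NM_it_mul (ω : Env) (l a : ℝ≥0∞) (c : ℤ × ℤ → ℝ≥0∞) (n : ℕ) (x : ℤ × ℤ) :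
    Mit ω l (fun y => a * c y) n x = a * Mit ω l c n x := by
  induction n generalizing x with
  | zero => simp [Mit]
  | succ n ih =>
    have e : Mit ω l (fun y => a * c y) n = fun y => a * Mit ω l c n y := funext ih
    simp only [Mit]
    rw [e, pOp_const_mul, mul_add, mul_left_comm]

theorem NM_it_shift (ω : Env) (l : ℝ≥0∞) (c : ℤ × ℤ → ℝ≥0∞) (z : ℤ × ℤ) (n : ℕ) (x : ℤ × ℤ) :
    Mit (shift z ω) l c n x = Mit ω l (fun y => c (y - z)) n (z + x) := by
  induction n generalizing x with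
  | zero => rfl
  | succ n ih =>
    simp only [Mit, pOp, kk_shift, shift_apply, ih, add_assoc, add_sub_cancel_left]

theorem pf_NM : StNM := by
  intro ω hω l h0 h1
  refine ⟨NM_eq ω l, NM_le ω l, NM_inv hω h0 h1, fun c x => ?_, fun a c x => ?_,
    fun c z x => ?_⟩
  · simp only [MM, NM_it_tsum]
    exact NM_iSup_tsum (fun n z => Mit ω l (c z) n x) fun a b hab z => NM_mono ω l (c z) hab x
  · simp only [MM, NM_it_mul, ENNReal.mul_iSup]
  · simp only [MM, NM_it_shift]

theorem NM_meas_kk (x : ℤ × ℤ) : Measurable fun ω : Env => kk ω x := by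
  refine Measurable.ite ?_ measurable_const measurable_const
  have : {ω : Env | ∀ i, ω x i ≤ 1 / 2} = ⋂ i, {ω : Env | ω x i ≤ 1 / 2} := by
    ext ω; simp
  rw [this]
  exact MeasurableSet.iInter fun i => measurableSet_le (measurable_coord x i) measurable_const

theorem NM_meas_pOp {F : Env → ℤ × ℤ → ℝ≥0∞} (hF : ∀ y, Measurable fun ω => F ω y)
    (x : ℤ × ℤ) : Measurable fun ω => pOp ω (F ω) x :=
  Finset.measurable_sum _ fun i _ => (measurable_coord x i).ennreal_ofReal.mul (hF _)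

theorem NM_meas_MM (l : ℝ≥0∞) (c : Env → ℤ × ℤ → ℝ≥0∞) (hc : ∀ y, Measurable fun ω => c ω y)
    (x : ℤ × ℤ) : Measurable fun ω => MM ω l (c ω) x := by
  refine Measurable.iSup fun n => ?_
  induction n generalizing x with
  | zero => exact measurable_const
  | succ n ih =>
    exact (hc x).add ((measurable_const.sub (measurable_const.mul (NM_meas_kk x))).mul
      (NM_meas_pOp ih x))

theorem NM_meas_cK (x : ℤ × ℤ) : Measurable fun ω : Env => cK ω x := by
  unfold cK
  split_ifs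
  · exact measurable_const
  · refine Finset.measurable_sum _ fun i _ => ?_
    split_ifs
    · exact (measurable_coord x i).ennreal_ofReal
    · exact measurable_const

theorem NM_meas_Sh (t : ℝ) : MeasurableSet (Sh t) := by
  have key : ∀ (x : ℤ × ℤ) (j : Fin 4), MeasurableSet {ω : Env | ∀ i, i ≠ j →
      t / 100 * ω x j ≤ ω x i ∧ ω x i < 2 * t / 100 * ω x j} := fun x j => by
    have : {ω : Env | ∀ i, i ≠ j → t / 100 * ω x j ≤ ω x i ∧ ω x i < 2 * t / 100 * ω x j} =
        ⋂ i, ⋂ _ : i ≠ j, ({ω : Env | t / 100 * ω x j ≤ ω x i} ∩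
          {ω : Env | ω x i < 2 * t / 100 * ω x j}) := by
      ext ω; simp
    rw [this]
    exact MeasurableSet.iInter fun i => MeasurableSet.iInter fun _ =>
      (measurableSet_le (measurable_const.mul (measurable_coord x j)) (measurable_coord x i)).inter
        (measurableSet_lt (measurable_coord x i) (measurable_const.mul (measurable_coord x j)))
  have k3 : MeasurableSet {ω : Env | ∀ x ∈ NK, ∀ i, ω x i ≤ 1 / 2} := by
    have : {ω : Env | ∀ x ∈ NK, ∀ i, ω x i ≤ 1 / 2} =
        ⋂ x, ⋂ _ : x ∈ NK, ⋂ i, {ω : Env | ω x i ≤ 1 / 2} := by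
      ext ω; simp only [Set.mem_ofPred_eq, Set.mem_iInter]
    rw [this]
    exact MeasurableSet.iInter fun x => MeasurableSet.iInter fun _ => MeasurableSet.iInter fun i =>
      measurableSet_le (measurable_coord x i) measurable_const
  exact (key (0, 0) 0).inter ((key (1, 0) 2).inter k3)

theorem NM_meas_dsite (j : Fin 4) (t : ℝ) : Measurable (dsite j t) := by
  refine measurable_nrm.comp (measurable_pi_lambda _ fun i => ?_)
  split_ifs
  · exact measurable_pi_apply i
  · exact measurable_const.mul (measurable_pi_apply i)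

theorem pf_NMeas : StNMeas := by
  intro l
  refine ⟨NM_meas_MM l, NM_meas_cK, NM_meas_kk, fun x => ?_, NM_meas_Sh, fun t y => ?_,
    fun t => ?_⟩
  · exact (measurable_const.mul (NM_meas_kk x)).mul
      (NM_meas_pOp (NM_meas_MM l cK NM_meas_cK) x)
  · refine Measurable.tsum fun z => ?_
    exact ((measurable_one.indicator (NM_meas_Sh t)).comp (measurable_shift z)).mul
      ((NM_meas_cK (y - z)).comp (measurable_shift z))
  · refine measurable_pi_lambda _ fun x => ?_
    unfold Dt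
    split_ifs
    · exact (NM_meas_dsite 0 t).comp (measurable_pi_apply x)
    · exact (NM_meas_dsite 2 t).comp (measurable_pi_apply x)
    · exact measurable_pi_apply x

end DRW
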