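import Pool.Agent.P.MP_de05b4_pr.Basic2
import Pool.Agent.P.MP_de05b4_pr.R.Pi

/-! A moment bound for the weighted occupation density, and the approximately invariant
densities for the accelerated walk. -/

namespace DRW

open MeasureTheory ProbabilityTheory Finset Filter
open scoped ENNReal Topology

/-- a weighted negative moment from a polynomial lower tail -/
theorem Pi2_tail {s C : ℝ} (hs : 2 < s) (hC : 0 ≤ C) : ∃ D : ℝ, 0 ≤ D ∧
    ∀ (N : ℕ) [NeZero N] (β : E N → ℝ) (f p : (E N → ℝ) → ℝ), Pos β → Measurable f →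
      Measurable p → (∀ G, Pos G → 0 < f G ∧ f G ≤ 1) →
      (∀ lam : ℝ, 0 < lam → Ex β (fun G => if f G ≤ lam then p G ^ 2 else 0) ≤
        ENNReal.ofReal (C * lam ^ s)) →
      Ex β (fun G => (p G / f G) ^ 2) ≤ ENNReal.ofReal D := by
  obtain ⟨b, hb, hb0⟩ : ∃ b : ℝ, b = (1 / 2 : ℝ) ^ s ∧ 0 < b := ⟨_, rfl, by positivity⟩
  have hab : 4 * b < 1 := by
    have h1 : (1 / 2 : ℝ) ^ s < (1 / 2 : ℝ) ^ (2 : ℝ) :=
      Real.rpow_lt_rpow_of_exponent_gt (by norm_num) (by norm_num) hs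
    rw [Real.rpow_two] at h1
    rw [hb]
    linarith
  have h0 : ∀ n : ℕ, 0 ≤ 4 * C * (4 * b) ^ n := fun n => by positivity
  have hsum : Summable fun n : ℕ => 4 * C * (4 * b) ^ n :=
    (summable_geometric_of_lt_one (by positivity) hab).mul_left _
  refine ⟨∑' n : ℕ, 4 * C * (4 * b) ^ n, tsum_nonneg h0, fun N _ β f p hβ hf hp h1 h2 => ?_⟩
  have hm : ∀ n : ℕ, Measurable fun G =>
      (4 : ℝ) ^ (n + 1) * if f G ≤ (1 / 2 : ℝ) ^ n then p G ^ 2 else 0 := fun n =>
    (Measurable.ite (measurableSet_le hf measurable_const) (hp.pow_const 2)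
      measurable_const).const_mul _
  calc Ex β (fun G => (p G / f G) ^ 2)
      ≤ ∫⁻ G, ∑' n : ℕ, ENNReal.ofReal
          ((4 : ℝ) ^ (n + 1) * if f G ≤ (1 / 2 : ℝ) ^ n then p G ^ 2 else 0) ∂mu β := by
        refine lintegral_mono_ae ((ae_pos hβ).mono fun G hG => ?_)
        obtain ⟨n, h3, h4⟩ := exists_nat_pow_near_of_lt_one (h1 G hG).1 (h1 G hG).2
          (show (0 : ℝ) < 1 / 2 by norm_num) (by norm_num)
        refine le_trans ?_ (ENNReal.le_tsum n)
        rw [if_pos h4]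
        refine ENNReal.ofReal_le_ofReal ?_
        have h5 := (h1 G hG).1
        have h6 : ((1 / 2 : ℝ) ^ (n + 1)) ^ 2 ≤ f G ^ 2 :=
          pow_le_pow_left₀ (by positivity) h3.le 2
        have h7 : (4 : ℝ) ^ (n + 1) * ((1 / 2 : ℝ) ^ (n + 1)) ^ 2 = 1 := by
          rw [← pow_mul, mul_comm (n + 1) 2, pow_mul, ← mul_pow]
          norm_num
        have h8 : 1 ≤ (4 : ℝ) ^ (n + 1) * f G ^ 2 := by
          rw [← h7]
          exact mul_le_mul_of_nonneg_left h6 (by positivity)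
        show (p G / f G) ^ 2 ≤ _
        rw [div_pow, div_le_iff₀ (by positivity)]
        have h9 := mul_le_mul_of_nonneg_left h8 (sq_nonneg (p G))
        linarith
    _ = ∑' n : ℕ, Ex β fun G =>
          (4 : ℝ) ^ (n + 1) * if f G ≤ (1 / 2 : ℝ) ^ n then p G ^ 2 else 0 :=
        lintegral_tsum fun n => (hm n).ennreal_ofReal.aemeasurable
    _ ≤ ∑' n : ℕ, ENNReal.ofReal (4 * C * (4 * b) ^ n) := by
        refine ENNReal.tsum_le_tsum fun n => ?_
        rw [Ex_const_mul _ (by positivity)]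
        refine (mul_le_mul_right (h2 _ (by positivity)) _).trans (le_of_eq ?_)
        rw [← ENNReal.ofReal_mul (by positivity), ← Real.rpow_pow_comm (by norm_num), ← hb]
        congr 1
        ring
    _ = _ := (ENNReal.ofReal_tsum_of_nonneg h0 hsum).symm

theorem Pi2_young {H Y : ℝ} (hH : 0 ≤ H) (hY : 0 ≤ Y) :
    (H * Y) ^ (3 / 2 : ℝ) ≤ H ^ 6 + Y ^ 2 := by
  have h0 : 0 ≤ H * Y := mul_nonneg hH hY
  have h1 : ((H * Y) ^ (3 / 2 : ℝ)) ^ 2 = (H * Y) ^ 3 := by
    rw [← Real.rpow_natCast, ← Real.rpow_mul h0, ← Real.rpow_natCast]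
    norm_num
  have h2 : 0 ≤ (H * Y) ^ (3 / 2 : ℝ) := Real.rpow_nonneg h0 _
  have h3 : 0 ≤ H ^ 6 := by positivity
  have h4 : 0 ≤ Y ^ 2 := by positivity
  rcases le_total Y (H ^ 3) with h | h
  · have h5 : (H * Y) ^ 3 ≤ (H * H ^ 3) ^ 3 :=
      pow_le_pow_left₀ h0 (mul_le_mul_of_nonneg_left h hH) 3
    have h6 : (H * Y) ^ (3 / 2 : ℝ) ≤ H ^ 6 := by
      refine (pow_le_pow_iff_left₀ h2 h3 two_ne_zero).1 ?_
      rw [h1]
      exact h5.trans (le_of_eq (by ring))
    linarith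
  · have h5 : H ^ 3 * Y ^ 3 ≤ Y * Y ^ 3 := mul_le_mul_of_nonneg_right h (by positivity)
    have h6 : (H * Y) ^ (3 / 2 : ℝ) ≤ Y ^ 2 := by
      refine (pow_le_pow_iff_left₀ h2 h4 two_ne_zero).1 ?_
      rw [h1, mul_pow]
      exact h5.trans (le_of_eq (by ring))
    linarith

theorem pf_Pi2 (hG : StGt2) (hH : StHB) (hS : StStat) : StPi2 := by
  intro α hα
  obtain ⟨s, C, R, C₀, K₀, hs, hC, h⟩ := hG α hα
  obtain ⟨D, hD, h1⟩ := Pi2_tail hs hC.le
  obtain ⟨D', hD', h3⟩ := Pi_pow_le_exp 6 (by norm_num)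
  refine ⟨D' * 2 ^ (∑ i, α i) + 4 * (4 * D), R, max C₀ 2, K₀, by positivity,
    fun N _ K hK hN x hx => ?_⟩
  have hβ : Pos (al N α) := pos_al hα.1
  have hx' := mem_Wd.1 hx
  have hN1 : C₀ * K ≤ N := (Nat.mul_le_mul_right K (le_max_left _ _)).trans hN
  have hN2 : 2 * K ≤ N := (Nat.mul_le_mul_right K (le_max_right _ _)).trans hN
  have hst := fun G hG => (hS N K (by omega) G hG).1 x hx
  have h4 := fun i => h1 N _ (esc 0 K x) (pathP R x i) hβ (measurable_esc 0 K x)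
    (measurable_pathP R x i) (fun G hG => ⟨(hst G hG).1, (hst G hG).2.1⟩) (h N K hK hN1 x hx i)
  have h5 := (hH N _ hβ (Wd N 0 K \ {x}) {x} (Src N 0 K) (Wd_sdiff_ne_univ 0 K _) sdiff_disjoint
    (fun e he => by
      rw [mem_Src] at he
      refine ⟨fun h6 => ?_, fun h6 => ?_⟩
      · have h7 := mem_Wd.1 (Finset.mem_sdiff.1 h6).1
        omega
      · rw [Finset.mem_singleton.1 h6] at he
        omega) fun z _ => (dv_al α z).le).1
  rw [sum_singleton, inw_al] at h5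
  have h6 : Ex (al N α) (fun G => ∑ i, (pathP R x i G / esc 0 K x G) ^ 2) ≤
      ENNReal.ofReal (4 * D) := by
    rw [Ex_sum hβ _ (X := fun i G => (pathP R x i G / esc 0 K x G) ^ 2)
      (fun i _ => ((measurable_pathP R x i).div (measurable_esc 0 K x)).pow_const 2)
      fun i _ G _ => sq_nonneg _]
    refine (sum_le_card_nsmul _ _ _ fun i _ => h4 i).trans (le_of_eq ?_)
    rw [nsmul_eq_mul, ENNReal.ofReal_mul (by norm_num)]
    simp
  calc Ex (al N α) (fun G => (pii 0 K x G * SRt R x G) ^ (3 / 2 : ℝ))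
      ≤ Ex (al N α) (fun G => D' * Real.exp (HH 0 K x G / 2) +
          4 * ∑ i, (pathP R x i G / esc 0 K x G) ^ 2) :=
        Ex_mono hβ fun G hG => by
          have e1 : pii 0 K x G * SRt R x G =
              HH 0 K x G * ∑ i, pathP R x i G / esc 0 K x G := by
            rw [← Finset.sum_div, pii, SRt]
            ring
          have e2 := h3 _ (hst G hG).2.2.1
          rw [show (6 : ℝ) = ((6 : ℕ) : ℝ) by norm_num, Real.rpow_natCast] at e2
          have e3 := sq_sum_le_card_mul_sum_sq (s := (univ : Finset (Fin 4)))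
            (f := fun i => pathP R x i G / esc 0 K x G)
          rw [card_univ, Fintype.card_fin] at e3
          rw [e1]
          refine (Pi2_young (hst G hG).2.2.1 (sum_nonneg fun i _ =>
            div_nonneg (pathP_pos hG R x i).le (hst G hG).1.le)).trans (add_le_add e2 ?_)
          exact_mod_cast e3
    _ ≤ ENNReal.ofReal D' * ENNReal.ofReal (2 ^ (∑ i, α i)) +
          ENNReal.ofReal 4 * ENNReal.ofReal (4 * D) := by
        refine (Ex_add_le _ (((measurable_HH 0 K x).div_const 2).exp.const_mul D')).trans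
          (add_le_add ?_ ?_)
        · rw [Ex_const_mul _ hD'.le]
          exact mul_le_mul_right h5 _
        · rw [Ex_const_mul _ (by norm_num)]
          exact mul_le_mul_right h6 _
    _ = _ := by
        rw [← ENNReal.ofReal_mul hD'.le, ← ENNReal.ofReal_mul (by norm_num),
          ← ENNReal.ofReal_add (by positivity) (by positivity)]

theorem pf_Fin2 (hP : StPi2) (hL : StLow2) (hT : StTest2) (hM : StMgf) (hS : StStat) :
    StFin2 := by
  intro α hα
  obtain ⟨C, R, C₀, K₀, hC, h⟩ := hP α hα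
  obtain ⟨δ, hδ0, hlow⟩ := hL α hα R
  refine ⟨R, 3 / 2, max C δ⁻¹, by norm_num, lt_max_of_lt_left hC, fun ε hε R₀ => ?_⟩
  obtain ⟨k, hk⟩ := exists_nat_ge ((α 0 + α 2) / (ε * δ))
  obtain ⟨K, hK0, hKk⟩ : ∃ K, K₀ ≤ K ∧ 2 + k ≤ K := ⟨max _ _, le_max_left _ _, le_max_right _ _⟩
  obtain ⟨N, hN0, hNR, hNK⟩ : ∃ N, C₀ * K ≤ N ∧ R₀ ≤ N ∧ K + R < N :=
    ⟨C₀ * K + R₀ + K + R + 1, by omega, by omega, by omega⟩
  have hNe : NeZero N := ⟨by omega⟩
  have hβ : Pos (al N α) := pos_al hα.1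
  have hpos : ∀ x ∈ Wd N 0 K, ∀ G, Pos G → 0 ≤ pii 0 K x G := fun x hx G hG =>
    div_nonneg ((hS N K (by omega) G hG).1 x hx).2.2.1 (esc_nonneg hG 0 K x)
  have hup : ∀ x ∈ Wd N 0 K, Ex (al N α) (fun G => pii 0 K x G * SRt R x G) ≤
      ENNReal.ofReal (1 + C) := fun x hx => by
    have h1 : Ex (al N α) (fun G => pii 0 K x G * SRt R x G) ≤
        Ex (al N α) (fun G => 1 + (pii 0 K x G * SRt R x G) ^ (3 / 2 : ℝ)) :=
      Ex_mono hβ fun G hG => by
        have h2 := mul_nonneg (hpos x hx G hG) (SRt_pos hG R x).le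
        have h3 := Real.rpow_nonneg h2 (3 / 2 : ℝ)
        rcases le_total (pii 0 K x G * SRt R x G) 1 with h4 | h4
        · linarith
        · have h5 := Real.rpow_le_rpow_of_exponent_le h4 (show (1 : ℝ) ≤ 3 / 2 by norm_num)
          rw [Real.rpow_one] at h5
          linarith
    refine h1.trans ((Ex_add_le _ measurable_const).trans ?_)
    rw [Ex_const hβ, ENNReal.ofReal_add zero_le_one hC.le]
    exact add_le_add_right (h N K hK0 hN0 x hx) _
  have hfin : ∑ x ∈ Wd N 0 K, Ex (al N α) (fun G => pii 0 K x G * SRt R x G) ≠ ⊤ :=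
    ENNReal.sum_ne_top.2 fun x hx => ne_top_of_le_ne_top ENNReal.ofReal_ne_top (hup x hx)
  obtain ⟨Z, hZ⟩ : ∃ Z, Z =
      (∑ x ∈ Wd N 0 K, Ex (al N α) (fun G => pii 0 K x G * SRt R x G)).toReal := ⟨_, rfl⟩
  have hZ1 : ((Wd N 0 K).card : ℝ) * δ ≤ Z := by
    rw [hZ, ← ENNReal.ofReal_le_iff_le_toReal hfin, ENNReal.ofReal_mul (Nat.cast_nonneg _),
      ENNReal.ofReal_natCast, ← nsmul_eq_mul]
    exact card_nsmul_le_sum _ _ _ fun x hx => hlow N K hNK x hx
  have hN' : (0 : ℝ) < N := by exact_mod_cast (by omega : 0 < N)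
  have hcard : ((k : ℝ) + 1) * N ≤ (Wd N 0 K).card := by
    rw [card_Wd (by omega)]
    exact_mod_cast Nat.mul_le_mul_right N (by omega)
  have hZ2 : ((k : ℝ) + 1) * N * δ ≤ Z := (mul_le_mul_of_nonneg_right hcard hδ0.le).trans hZ1
  have hZ0 : 0 < Z := lt_of_lt_of_le (by positivity) hZ2
  refine ⟨N, hNe, hNR, Wd N 0 K, pii 0 K, Z, hZ0, measurable_pii 0 K, hpos,
    by rw [hZ, ENNReal.ofReal_toReal hfin], ?_,
    fun x hx => (h N K hK0 hN0 x hx).trans (ENNReal.ofReal_le_ofReal (le_max_left _ _)),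
    fun G => ∑ e ∈ Src N 0 K, G e, Finset.measurable_sum _ fun e _ => measurable_pi_apply e,
    ?_, hT N K (by omega) (by omega)⟩
  · refine le_trans ?_ (mul_le_mul_of_nonneg_right (le_max_right _ _) hZ0.le)
    rwa [← div_eq_inv_mul, le_div_iff₀ hδ0]
  · rw [(hM N _ hβ (Src N 0 K)).2]
    refine ENNReal.ofReal_le_ofReal ?_
    have h1 : ∑ e ∈ Src N 0 K, al N α e ≤
        ∑ e ∈ SE (Col N 0) 0, al N α e + ∑ e ∈ SE (Col N K) 2, al N α e := by
      rw [← sum_union_inter]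
      exact le_add_of_nonneg_right (sum_nonneg fun e _ => (hβ e).le)
    rw [sum_SE, sum_SE] at h1
    simp only [al, sum_const, nsmul_eq_mul] at h1
    rw [card_Col (by omega : 0 < N), card_Col (by omega : K < N)] at h1
    rw [div_le_iff₀ (by positivity)] at hk
    have h4 := mul_le_mul_of_nonneg_left hZ2 hε.le
    have h5 := mul_le_mul_of_nonneg_left hk hN'.le
    have h6 : 0 ≤ ε * N * δ := by positivity
    simp only [al]
    linarith

end DRW
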