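import Pool.Agent.P.MP_de05b4_pr.Basic2
import Pool.Agent.P.MP_de05b4_pr.R.TR1

/-! From the torus to the lattice, with the accelerating weight. -/

namespace DRW

open MeasureTheory ProbabilityTheory Finset Filter
open scoped ENNReal Topology

variable {N : ℕ} [NeZero N]

omit [NeZero N] in
theorem TR12_cz (k : ℕ) (i : Fin 4) :
    cz N ((k : ℤ) • dir i).1 ((k : ℤ) • dir i).2 = k • dr N i := by
  fin_cases i <;> simp [cz, dir, dr]

theorem TR12_SRt {R R' : ℕ} (hR : R ≤ R') (hN : 2 * R' + 4 ≤ N) (x : T N) (g : Env) :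
    SRt R x (resE x g) = SR R (nrmE g) := by
  refine sum_congr rfl fun i _ => prod_congr rfl fun k hk => ?_
  have hk' : (k : ℤ) ≤ R' := by exact_mod_cast ((mem_range.1 hk).le.trans hR)
  have d1 : |((k : ℤ) • dir i).1| ≤ (R' : ℤ) + 1 := by
    fin_cases i <;> simp [dir] <;> omega
  have d2 : |((k : ℤ) • dir i).2| ≤ (R' : ℤ) + 1 := by
    fin_cases i <;> simp [dir] <;> omega
  have h : ∀ j, resE x g (x + k • dr N i, j) = g ((k : ℤ) • dir i) j := fun j => by
    have := TR1_res hN x g d1 d2 j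
    rw [TR12_cz] at this
    exact this
  simp only [om, pe, Zs, nrmE, nrm, h]

theorem TR12_ae {α : Fin 4 → ℝ} (hα : ∀ i, 0 < α i) :
    ∀ᵐ g ∂lawG α, ∀ x i, 0 < nrmE g x i := by
  have := prob_gam hα
  have h : ∀ᵐ g ∂lawG α, ∀ x i, 0 < g x i := ae_all_iff.2 fun x =>
    (measurePreserving_eval_infinitePi (fun _ : ℤ × ℤ => gam α) x).quasiMeasurePreserving.ae
      (gam_ae_pos hα)
  filter_upwards [h] with g hg x i
  exact div_pos (hg x i) (sum_pos (fun j _ => hg x j) univ_nonempty)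

theorem pf_TR12 (hM : StMP) : StTR12 := by
  rintro α hα R ⟨s, C, hs, hC, h⟩
  refine ⟨s, hs, ENNReal.ofReal (C ^ s * C), ENNReal.ofReal_ne_top, fun ε hε R₀ => ?_⟩
  obtain ⟨N, inst, hN, S, π, Z, hZ, mπ, π0, hsum, hcard, hmom, B, mB, hB, hdev⟩ :=
    h ε hε (2 * max R₀ R + 4)
  have iZ : 0 ≤ Z⁻¹ := (inv_pos.2 hZ).le
  have hae := TR1_ae (N := N) hM hα
  have mρ : ∀ x, Measurable fun G => π x G * SRt R x G := fun x =>
    (mπ x).mul (measurable_SRt R x)
  have ρ0 : ∀ x ∈ S, ∀ G, Pos G → 0 ≤ π x G * SRt R x G := fun x hx G hG =>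
    mul_nonneg (π0 x hx G hG) (SRt_pos hG R x).le
  refine ⟨fun γ => ENNReal.ofReal (∑ x ∈ S, Z⁻¹ * (π x (resE x γ) * SRt R x (resE x γ))),
    ?_, ?_, ?_, ?_⟩
  · exact (Finset.measurable_sum _ fun x _ =>
      ((mρ x).comp (hM α hα N x).measurable).const_mul _).ennreal_ofReal
  · rw [TR1_int hM hα S (F := fun x G => Z⁻¹ * (π x G * SRt R x G))
      (fun x => (mρ x).const_mul _) fun x hx G hG => mul_nonneg iZ (ρ0 x hx G hG)]
    simp only [Ex_const_mul _ iZ]
    rw [← mul_sum, hsum, ← ENNReal.ofReal_mul iZ, inv_mul_cancel₀ hZ.ne', ENNReal.ofReal_one]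
  · set c : ℝ := (S.card : ℝ) ^ (s - 1) * Z⁻¹ ^ s with hc
    have c0 : 0 ≤ c := by positivity
    have h1 : ∫⁻ γ, ENNReal.ofReal
        (∑ x ∈ S, Z⁻¹ * (π x (resE x γ) * SRt R x (resE x γ))) ^ s ∂lawG α ≤
        ∫⁻ γ, ENNReal.ofReal
          (∑ x ∈ S, c * (π x (resE x γ) * SRt R x (resE x γ)) ^ s) ∂lawG α := by
      refine lintegral_mono_ae (hae.mono fun γ hγ => ?_)
      have p0 : ∀ x ∈ S, 0 ≤ Z⁻¹ * (π x (resE x γ) * SRt R x (resE x γ)) := fun x hx =>
        mul_nonneg iZ (ρ0 x hx _ (hγ x))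
      rw [ENNReal.ofReal_rpow_of_nonneg (sum_nonneg p0) (by linarith)]
      refine ENNReal.ofReal_le_ofReal
        ((Real.rpow_sum_le_const_mul_sum_rpow_of_nonneg S hs.le p0).trans (le_of_eq ?_))
      rw [mul_sum]
      refine sum_congr rfl fun x hx => ?_
      rw [Real.mul_rpow iZ (ρ0 x hx _ (hγ x)), hc]
      exact (mul_assoc _ _ _).symm
    refine h1.trans ?_
    rw [TR1_int hM hα S (F := fun x G => c * (π x G * SRt R x G) ^ s)
      (fun x => ((mρ x).pow_const s).const_mul _)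
      fun x hx G hG => mul_nonneg c0 (Real.rpow_nonneg (ρ0 x hx G hG) _)]
    simp only [Ex_const_mul _ c0]
    rw [← mul_sum]
    refine (mul_le_mul_right (sum_le_sum hmom) _).trans ?_
    rw [sum_const, nsmul_eq_mul, ← ENNReal.ofReal_natCast, ← ENNReal.ofReal_mul (by positivity),
      ← ENNReal.ofReal_mul c0]
    refine ENNReal.ofReal_le_ofReal ?_
    rw [← mul_assoc]
    refine mul_le_mul_of_nonneg_right ?_ hC.le
    have h2 : c * S.card = ((S.card : ℝ) * Z⁻¹) ^ s := by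
      rw [hc, Real.mul_rpow (by positivity) iZ, mul_right_comm,
        ← Real.rpow_add_one' (by positivity) (by linarith), sub_add_cancel]
    rw [h2]
    refine Real.rpow_le_rpow (by positivity) ?_ (by linarith)
    rw [← div_eq_mul_inv, div_le_iff₀ hZ]
    exact hcard
  · intro A mA hA0
    have hA : Loc (max R₀ R) A := fun γ γ' hw => hA0 γ γ' fun w h1 h2 =>
      hw w (h1.trans (by exact_mod_cast le_max_left _ _)) (h2.trans (by exact_mod_cast le_max_left _ _))
    have hw : ∀ X : Env → ℝ≥0∞, ∫⁻ γ, ENNReal.ofReal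
        (∑ x ∈ S, Z⁻¹ * (π x (resE x γ) * SRt R x (resE x γ))) *
          (ENNReal.ofReal (gamR R (nrmE γ)) * X γ) ∂lawG α =
        ∫⁻ γ, ENNReal.ofReal (∑ x ∈ S, Z⁻¹ * π x (resE x γ)) * X γ ∂lawG α := fun X => by
      refine lintegral_congr_ae ?_
      filter_upwards [TR12_ae hα] with γ hγ
      rw [← mul_assoc, mul_comm (ENNReal.ofReal _) (ENNReal.ofReal (gamR R (nrmE γ))),
        ← ENNReal.ofReal_mul (gamR_pos R _).le, mul_sum]
      congr 2
      refine sum_congr rfl fun x _ => ?_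
      rw [TR12_SRt (le_max_right R₀ R) hN, gamR_eq R hγ]
      have := (SR_pos R hγ).ne'
      field_simp
    have m1 : ∀ x, Measurable fun G => Z⁻¹ * (π x G * TR1_phi A G x) := fun x =>
      ((mπ x).mul (TR1_phi_meas mA x)).const_mul _
    have m2 : ∀ x, Measurable fun G =>
        Z⁻¹ * (π x G * ∑ i, om G (x, i) * TR1_phi A G (x + dr N i)) := fun x =>
      ((mπ x).mul (Finset.measurable_sum _ fun i _ =>
        (measurable_om _).mul (TR1_phi_meas mA _))).const_mul _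
    have n1 : ∀ x ∈ S, ∀ G, Pos G → 0 ≤ Z⁻¹ * (π x G * TR1_phi A G x) := fun x hx G hG =>
      mul_nonneg iZ (mul_nonneg (π0 x hx G hG) (TR1_phi_nonneg _ _ _))
    have n2 : ∀ x ∈ S, ∀ G, Pos G →
        0 ≤ Z⁻¹ * (π x G * ∑ i, om G (x, i) * TR1_phi A G (x + dr N i)) := fun x hx G hG =>
      mul_nonneg iZ (mul_nonneg (π0 x hx G hG)
        (sum_nonneg fun i _ => mul_nonneg (om_pos hG _).le (TR1_phi_nonneg _ _ _)))
    have e1 : ∫⁻ γ, ENNReal.ofReal (∑ x ∈ S, Z⁻¹ * π x (resE x γ)) * A.indicator 1 γ ∂lawG α =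
        Ex (al N α) fun G => ∑ x ∈ S, Z⁻¹ * (π x G * TR1_phi A G x) := by
      rw [Ex_sum (pos_al hα) S (fun x _ => m1 x) n1, ← TR1_int hM hα S m1 n1]
      refine lintegral_congr fun γ => ?_
      by_cases hγ : γ ∈ A <;> simp [TR1_phi, Set.indicator, TR1_lift hN _ γ hA, hγ]
    have e2 : ∫⁻ γ, ENNReal.ofReal (∑ x ∈ S, Z⁻¹ * π x (resE x γ)) *
        ∑ i, ENNReal.ofReal (nrm (γ 0) i) * A.indicator 1 (shift (dir i) γ) ∂lawG α =
        Ex (al N α) fun G =>
          ∑ x ∈ S, Z⁻¹ * (π x G * ∑ i, om G (x, i) * TR1_phi A G (x + dr N i)) := by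
      rw [Ex_sum (pos_al hα) S (fun x _ => m2 x) n2, ← TR1_int hM hα S m2 n2]
      refine lintegral_congr_ae (hae.mono fun γ hγ => ?_)
      have q0 : ∀ i, 0 ≤ nrm (γ 0) i := fun i => by
        rw [← TR1_om hN (0 : T N) γ i]; exact (om_pos (hγ 0) _).le
      have q1 : ∑ i, ENNReal.ofReal (nrm (γ 0) i) *
          A.indicator (1 : Env → ℝ≥0∞) (shift (dir i) γ) = ENNReal.ofReal
            (∑ i, nrm (γ 0) i * A.indicator (fun _ => (1 : ℝ)) (shift (dir i) γ)) := by
        rw [ENNReal.ofReal_sum_of_nonneg fun i _ =>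
          mul_nonneg (q0 i) (Set.indicator_nonneg (fun _ _ => zero_le_one) _)]
        refine sum_congr rfl fun i _ => ?_
        by_cases h1 : shift (dir i) γ ∈ A <;> simp [h1]
      have q2 : ∀ x : T N, ∑ i, om (resE x γ) (x, i) * TR1_phi A (resE x γ) (x + dr N i) =
          ∑ i, nrm (γ 0) i * A.indicator (fun _ => (1 : ℝ)) (shift (dir i) γ) := fun x => by
        refine sum_congr rfl fun i _ => ?_
        rw [TR1_om hN]
        by_cases h1 : shift (dir i) γ ∈ A <;>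
          simp [TR1_phi, Set.indicator, TR1_lift' hN x γ hA, h1]
      simp only [q1, q2]
      rw [← ENNReal.ofReal_mul (sum_nonneg fun x hx => mul_nonneg iZ (π0 x hx _ (hγ x))), sum_mul]
      simp only [mul_assoc]
    rw [hw (fun γ => A.indicator 1 γ), hw (fun γ =>
      ∑ i, ENNReal.ofReal (nrm (γ 0) i) * A.indicator 1 (shift (dir i) γ)), e1, e2]
    refine ⟨TR1_cmp hα hZ (Finset.measurable_sum _ fun x _ => m2 x) hB fun G hG => ?_,
      TR1_cmp hα hZ (Finset.measurable_sum _ fun x _ => m1 x) hB fun G hG => ?_⟩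
    all_goals
      have h1 := abs_le.1 (hdev G hG (TR1_phi A G) (TR1_phi_nonneg A G) (TR1_phi_le A G))
      rw [← mul_sum, ← mul_sum, ← mul_add]
      exact mul_le_mul_of_nonneg_left (by linarith [h1.1, h1.2]) iZ

theorem pf_TR32 : StTR32 := by
  rintro α hα R ⟨Q, hQ, hac, hinv⟩
  have h1 := prob_gam hα
  have hlaw : law α = (lawG α).map nrmE := by
    have := Measure.infinitePi_map_pi (μ := fun _ : ℤ × ℤ => gam α) (f := fun _ => nrm)
      fun _ => measurable_nrm
    exact this.symm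
  refine ⟨Q.map nrmE, Measure.isProbabilityMeasure_map measurable_nrmE.aemeasurable,
    hlaw ▸ hac.map measurable_nrmE, fun A hA => ?_⟩
  have mi : Measurable (A.indicator (1 : Env → ℝ≥0∞)) := measurable_one.indicator hA
  rw [lintegral_map ((measurable_gamR R).ennreal_ofReal.fun_mul mi) measurable_nrmE,
    lintegral_map ((measurable_gamR R).ennreal_ofReal.fun_mul (measurable_stepOp mi))
      measurable_nrmE]
  exact hinv _ (measurable_nrmE hA)

end DRW
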