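import Pool.Agent.P.MP_de05b4_pr.Basic2
import Pool.Agent.P.MP_de05b4_pr.R.TR2
import Pool.Agent.P.MP_de05b4_pr.R.Rot

/-! From approximately invariant densities to an invariant measure for the accelerated walk,
and the rotation of the lattice by a quarter turn. -/

namespace DRW

open MeasureTheory ProbabilityTheory Finset Filter
open scoped ENNReal Topology

/-- the accelerating function read on the Gamma environment -/
noncomputable def TR22_gt (R : ℕ) (g : Env) : ℝ≥0∞ := ENNReal.ofReal (gamR R (nrmE g))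

/-- environments where the accelerating function is bounded at the origin and its neighbours -/
def TR22_B (R n : ℕ) : Set Env := {g | gamR R (nrmE g) ≤ (n : ℝ) + 1 ∧
  ∀ i, gamR R (nrmE (shift (-dir i) g)) ≤ (n : ℝ) + 1}

theorem TR22_meas_real (R : ℕ) : Measurable fun g : Env => gamR R (nrmE g) :=
  (measurable_gamR R).comp measurable_nrmE

theorem TR22_meas_gt (R : ℕ) : Measurable (TR22_gt R) := (TR22_meas_real R).ennreal_ofReal

theorem TR22_meas_B (R n : ℕ) : MeasurableSet (TR22_B R n) := by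
  have e : TR22_B R n = {g | gamR R (nrmE g) ≤ (n : ℝ) + 1} ∩
      ⋂ i, {g | gamR R (nrmE (shift (-dir i) g)) ≤ (n : ℝ) + 1} := by
    ext g; simp [TR22_B]
  rw [e]
  exact (measurableSet_le (TR22_meas_real R) measurable_const).inter
    (MeasurableSet.iInter fun i => measurableSet_le
      ((TR22_meas_real R).comp (measurable_shift _)) measurable_const)

theorem TR22_gam_local (R : ℕ) {g g' : Env}
    (h : ∀ w : ℤ × ℤ, |w.1| ≤ R → |w.2| ≤ R → g w = g' w) :
    gamR R (nrmE g) = gamR R (nrmE g') := by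
  have e : SR R (nrmE g) = SR R (nrmE g') := SR_local R fun w h1 h2 => by
    unfold nrmE; rw [h w h1 h2]
  unfold gamR
  rw [e]

theorem TR22_loc_B (R n k : ℕ) (hk : R + 1 ≤ k) : Loc k (TR22_B R n) := by
  intro g g' h
  have hk' : (R : ℤ) + 1 ≤ k := by exact_mod_cast hk
  have e0 : gamR R (nrmE g) = gamR R (nrmE g') :=
    TR22_gam_local R fun w h1 h2 => h w (by linarith) (by linarith)
  have e1 : ∀ i, gamR R (nrmE (shift (-dir i) g)) = gamR R (nrmE (shift (-dir i) g')) := by
    intro i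
    refine TR22_gam_local R fun w h1 h2 => ?_
    rw [shift_apply, shift_apply]
    have a1 := abs_le.1 h1
    have a2 := abs_le.1 h2
    refine h _ ?_ ?_ <;> rw [abs_le] <;> fin_cases i <;> simp [dir] <;> omega
  simp only [TR22_B, Set.mem_ofPred_eq, e0, e1]

theorem TR22_union (R : ℕ) : ⋃ n, TR22_B R n = Set.univ := by
  refine Set.eq_univ_of_forall fun g => ?_
  obtain ⟨n, hn⟩ := exists_nat_ge
    (gamR R (nrmE g) + ∑ i, gamR R (nrmE (shift (-dir i) g)))
  have h0 := gamR_pos R (nrmE g)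
  have h1 : 0 ≤ ∑ i, gamR R (nrmE (shift (-dir i) g)) :=
    sum_nonneg fun i _ => (gamR_pos R _).le
  refine Set.mem_iUnion.2 ⟨n, by linarith, fun i => ?_⟩
  have h2 : gamR R (nrmE (shift (-dir i) g)) ≤ ∑ i, gamR R (nrmE (shift (-dir i) g)) :=
    single_le_sum (f := fun i => gamR R (nrmE (shift (-dir i) g)))
      (fun j _ => (gamR_pos R _).le) (mem_univ i)
  linarith

theorem TR22_phi1 (R n : ℕ) (A : Set Env) (g : Env) :
    TR22_gt R g * (A ∩ TR22_B R n).indicator 1 g ≤ ENNReal.ofReal ((n : ℝ) + 1) := by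
  by_cases h : g ∈ A ∩ TR22_B R n
  · rw [Set.indicator_of_mem h, Pi.one_apply, mul_one]
    exact ENNReal.ofReal_le_ofReal h.2.1
  · rw [Set.indicator_of_notMem h, mul_zero]
    exact zero_le

theorem TR22_phi2 {α : Fin 4 → ℝ} (hα : ∀ i, 0 < α i) (R n : ℕ) (A : Set Env) :
    ∀ᵐ g ∂lawG α,
      TR22_gt R g * TR2_psi (A ∩ TR22_B R n) g ≤ ENNReal.ofReal ((n : ℝ) + 1) := by
  filter_upwards [TR2_psi_le hα (A ∩ TR22_B R n)] with g hg
  by_cases h : gamR R (nrmE g) ≤ (n : ℝ) + 1
  · exact (mul_le_of_le_one_right' hg).trans (ENNReal.ofReal_le_ofReal h)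
  · have e : TR2_psi (A ∩ TR22_B R n) g = 0 := by
      refine sum_eq_zero fun i _ => ?_
      have h1 : shift (dir i) g ∉ A ∩ TR22_B R n := fun h1 => h (by
        have h2 := h1.2.2 i
        rwa [shift_shift, add_neg_cancel, shift_zero] at h2)
      rw [Set.indicator_of_notMem h1, mul_zero]
    rw [e, mul_zero]
    exact zero_le

theorem TR22_lim {P Q : Measure Env} {f : ℕ → Env → ℝ≥0∞} {F : Filter ℕ}
    (hlim : ∀ φ : Env → ℝ≥0∞, Measurable φ → (∀ᵐ γ ∂P, φ γ ≤ 1) →
      Tendsto (fun k => ∫⁻ γ, f k γ * φ γ ∂P) F (𝓝 (∫⁻ γ, φ γ ∂Q)))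
    {φ : Env → ℝ≥0∞} (mφ : Measurable φ) {c : ℝ≥0∞} (h0 : c ≠ 0) (ht : c ≠ ⊤)
    (hφ : ∀ᵐ γ ∂P, φ γ ≤ c) :
    Tendsto (fun k => ∫⁻ γ, f k γ * φ γ ∂P) F (𝓝 (∫⁻ γ, φ γ ∂Q)) := by
  have h1 := hlim (fun g => c⁻¹ * φ g) (mφ.const_mul _) (hφ.mono fun g hg =>
    (mul_le_mul_right hg _).trans (ENNReal.inv_mul_cancel h0 ht).le)
  have h2 := ENNReal.Tendsto.const_mul (a := c) h1 (Or.inr ht)
  have e : ∀ a b : ℝ≥0∞, c * (a * (c⁻¹ * b)) = a * b := fun a b => by
    rw [mul_left_comm a, ← mul_assoc, ENNReal.mul_inv_cancel h0 ht, one_mul]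
  have e' : ∀ b : ℝ≥0∞, c * (c⁻¹ * b) = b := fun b => by
    rw [← mul_assoc, ENNReal.mul_inv_cancel h0 ht, one_mul]
  simp only [← lintegral_const_mul' c _ ht, e, e'] at h2
  exact h2

theorem pf_TR22 (hE : StEX1) : StTR22 := by
  rintro α hα R ⟨s, hs, C, hC, h⟩
  have := prob_lawG hα
  choose f hf h1 hm hA using fun k : ℕ => h (1 / ((k : ℝ) + 1)) (by positivity) k
  obtain ⟨Q, hQ, hac, hlim⟩ := hE (lawG α) f s C hs hC hf h1 hm
  have heps : Tendsto (fun k : ℕ => ENNReal.ofReal (1 / ((k : ℝ) + 1)))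
      (hyperfilter ℕ : Filter ℕ) (𝓝 0) := by
    have h2 := ENNReal.tendsto_ofReal (tendsto_one_div_add_atTop_nhds_zero_nat (𝕜 := ℝ))
    rw [ENNReal.ofReal_zero] at h2
    exact h2.mono_left Nat.hyperfilter_le_atTop
  have hcyl : ∀ n : ℕ, ∀ A ∈ measurableCylinders fun _ : ℤ × ℤ => Fin 4 → ℝ,
      ∫⁻ g, TR22_gt R g * (A ∩ TR22_B R n).indicator 1 g ∂Q =
        ∫⁻ g, TR22_gt R g * TR2_psi (A ∩ TR22_B R n) g ∂Q := by
    intro n A hA'
    have mA := (MeasurableSet.of_mem_measurableCylinders hA').inter (TR22_meas_B R n)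
    obtain ⟨R₀, hR⟩ := TR2_loc hA'
    have c0 : ENNReal.ofReal ((n : ℝ) + 1) ≠ 0 := by
      rw [ENNReal.ofReal_ne_zero_iff]; positivity
    have l1 := TR22_lim hlim ((TR22_meas_gt R).fun_mul (measurable_one.indicator mA)) c0
      ENNReal.ofReal_ne_top (Eventually.of_forall (TR22_phi1 R n A))
    have l2 := TR22_lim hlim ((TR22_meas_gt R).fun_mul (TR2_meas_psi mA)) c0
      ENNReal.ofReal_ne_top (TR22_phi2 hα R n A)
    have ev : ∀ᶠ k in (hyperfilter ℕ : Filter ℕ), Loc k (A ∩ TR22_B R n) := by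
      refine Nat.hyperfilter_le_atTop ((eventually_ge_atTop (max R₀ (R + 1))).mono ?_)
      intro k hk g g' hg
      exact and_congr (hR k (le_of_max_le_left hk) g g' hg)
        (TR22_loc_B R n k (le_of_max_le_right hk) g g' hg)
    have l3 := l1.add heps
    have l4 := l2.add heps
    rw [add_zero] at l3 l4
    exact le_antisymm
      (le_of_tendsto_of_tendsto l1 l4 (ev.mono fun k hk => (hA k _ mA hk).1))
      (le_of_tendsto_of_tendsto l2 l3 (ev.mono fun k hk => (hA k _ mA hk).2))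
  set μ : Measure Env := Q.withDensity (TR22_gt R) with hμ
  set ν : Measure Env := ∑ i, (Q.withDensity fun γ =>
    TR22_gt R γ * ENNReal.ofReal (nrm (γ 0) i)).map (shift (dir i)) with hν
  have hμA : ∀ A, MeasurableSet A → μ A = ∫⁻ g, TR22_gt R g * A.indicator 1 g ∂Q := by
    intro A mA
    rw [hμ, withDensity_apply _ mA, ← lintegral_indicator mA]
    refine lintegral_congr fun γ => ?_
    by_cases hγ : γ ∈ A
    · simp [hγ]
    · simp [hγ]
  have hνA : ∀ A, MeasurableSet A → ν A = ∫⁻ g, TR22_gt R g * TR2_psi A g ∂Q := by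
    intro A mA
    rw [hν, Measure.finsetSum_apply]
    unfold TR2_psi
    simp only [mul_sum]
    rw [lintegral_finsetSum (f := fun i γ => TR22_gt R γ * (ENNReal.ofReal (nrm (γ 0) i) *
      A.indicator (1 : Env → ℝ≥0∞) (shift (dir i) γ))) _ fun i _ => (TR22_meas_gt R).mul
      ((TR2_meas_nrm i).mul ((measurable_one.indicator mA).comp (measurable_shift _)))]
    refine sum_congr rfl fun i _ => ?_
    rw [Measure.map_apply (measurable_shift _) mA, withDensity_apply _ (measurable_shift _ mA),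
      ← lintegral_indicator (measurable_shift _ mA)]
    refine lintegral_congr fun γ => ?_
    by_cases hγ : shift (dir i) γ ∈ A
    · simp [hγ]
    · simp [hγ]
  have hres : ∀ n : ℕ, μ.restrict (TR22_B R n) = ν.restrict (TR22_B R n) := by
    intro n
    have key : ∀ A ∈ measurableCylinders fun _ : ℤ × ℤ => Fin 4 → ℝ,
        μ.restrict (TR22_B R n) A = ν.restrict (TR22_B R n) A := by
      intro A hA'
      have mA := MeasurableSet.of_mem_measurableCylinders hA'
      rw [Measure.restrict_apply mA, Measure.restrict_apply mA,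
        hμA _ (mA.inter (TR22_meas_B R n)), hνA _ (mA.inter (TR22_meas_B R n)), hcyl n A hA']
    have hfin : IsFiniteMeasure (μ.restrict (TR22_B R n)) := by
      refine ⟨?_⟩
      rw [Measure.restrict_apply MeasurableSet.univ,
        hμA _ (MeasurableSet.univ.inter (TR22_meas_B R n))]
      refine (lintegral_mono (TR22_phi1 R n Set.univ)).trans_lt ?_
      rw [lintegral_const, measure_univ, mul_one]
      exact ENNReal.ofReal_lt_top
    exact ext_of_generate_finite _ generateFrom_measurableCylinders.symm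
      isPiSystem_measurableCylinders key (key _ (univ_mem_measurableCylinders _))
  have hμν : μ = ν := (Measure.ext_iff_of_iUnion_eq_univ (TR22_union R)).2 hres
  refine ⟨Q, hQ, hac, fun A mA => ?_⟩
  have h3 := hνA A mA
  rw [← hμν, hμA A mA] at h3
  exact h3

theorem TR22_SR_rot (R : ℕ) (w : Env) : SR R (Rot_P w) = SR R w := by
  unfold SR
  rw [← Equiv.sum_comp (Equiv.addRight (1 : Fin 4))
    fun i => ∏ k ∈ range R, Rot_P w ((k : ℤ) • dir i) i]
  refine sum_congr rfl fun i _ => prod_congr rfl fun k _ => ?_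
  simp only [Equiv.coe_addRight, Rot_P, Rot_s, add_sub_cancel_right]
  have e : Rot_e.symm ((k : ℤ) • dir (i + 1)) = (k : ℤ) • dir i := by
    fin_cases i <;> simp [Rot_e, dir]
  rw [e]

theorem TR22_gam_rot (R : ℕ) (w : Env) : gamR R (Rot_P w) = gamR R w := by
  unfold gamR
  rw [TR22_SR_rot]

theorem TR22_step_rot (φ : Env → ℝ≥0∞) (w : Env) :
    stepOp φ (Rot_P w) = stepOp (fun v => φ (Rot_P v)) w := by
  unfold stepOp
  rw [← Equiv.sum_comp (Equiv.addRight (1 : Fin 4))
    fun i => ENNReal.ofReal (Rot_P w 0 i) * φ (shift (dir i) (Rot_P w))]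
  refine sum_congr rfl fun i _ => ?_
  have e : Rot_e.symm 0 = 0 := by simp [Rot_e]
  simp only [Equiv.coe_addRight, Rot_shift]
  simp only [Rot_P, Rot_s, add_sub_cancel_right, e]

theorem pf_Rot2 : StRot2 := by
  rintro α hα R ⟨Q, hQ, hac, hinv⟩
  refine ⟨Q.map Rot_P, Measure.isProbabilityMeasure_map Rot_meas_P.aemeasurable, ?_, ?_⟩
  · rw [← Rot_law hα]; exact hac.map Rot_meas_P
  · intro A hA
    have mg : Measurable fun ω : Env => ENNReal.ofReal (gamR R ω) :=
      (measurable_gamR R).ennreal_ofReal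
    have mi : Measurable (A.indicator (1 : Env → ℝ≥0∞)) := measurable_one.indicator hA
    rw [lintegral_map (mg.fun_mul mi) Rot_meas_P,
      lintegral_map (mg.fun_mul (measurable_stepOp mi)) Rot_meas_P]
    have e : (fun v => A.indicator (1 : Env → ℝ≥0∞) (Rot_P v)) = (Rot_P ⁻¹' A).indicator 1 := by
      funext v
      by_cases hv : Rot_P v ∈ A
      · simp [hv]
      · simp [hv]
    have h1 := hinv _ (Rot_meas_P hA)
    simp only [TR22_gam_rot, TR22_step_rot, e]
    rw [← h1, ← e]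

end DRW
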