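import Pool.Agent.P.MP_de05b4_pr.Basic2

/-! Uniqueness of the absolutely continuous invariant probability measure of the environment
seen from the accelerated particle. -/

namespace DRW

open MeasureTheory ProbabilityTheory Finset Filter
open scoped ENNReal Topology

theorem UQA_meas (h1 : StJ1) {γ : Env → ℝ} (hγ : Measurable γ) {φ : Env → ℝ≥0∞}
    (hφ : Measurable φ) : Measurable (accSemigroup γ 1 φ) := by
  unfold accSemigroup
  refine Measurable.tsum fun n => ?_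
  have h := h1 γ hγ n (fun p => φ p.2) (hφ.comp measurable_snd)
  have hm : Measurable fun ω : Env => ((0 : ℝ), (1 : ℝ), ω) :=
    measurable_const.prodMk (measurable_const.prodMk measurable_id)
  exact h.comp hm

theorem UQA_le_one (hL : StJL) (hN : StJN) {γ : Env → ℝ} (hγ : Measurable γ)
    (hp : ∀ ω, 0 < γ ω) (A : Set Env) {ω : Env} (hω : Good ω) :
    accSemigroup γ 1 (A.indicator 1) ω ≤ 1 := by
  refine le_trans ?_ (hN γ hγ hp 1 zero_le_one ω hω).1
  unfold accSemigroup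
  refine ENNReal.tsum_le_tsum fun n => (hL γ hγ n 1).1 _ _ (fun w => ?_) ω
  by_cases h : w ∈ A
  · simp [Set.indicator_of_mem h]
  · simp [Set.indicator_of_notMem h]

theorem UQA_notMem {γ : Env → ℝ} (hp : ∀ ω, 0 < γ ω) {A : Set Env} {ω : Env} (hω : Good ω)
    (h : accSemigroup γ 1 (A.indicator 1) ω = 0) : shift (dir 0) ω ∉ A := by
  intro hm
  unfold accSemigroup at h
  have h1 : jumps γ 1 1 (A.indicator 1) ω = 0 := ENNReal.tsum_eq_zero.1 h 1
  set ω' := shift (dir 0) ω with hω'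
  set c : ℝ≥0∞ := ENNReal.ofReal (γ ω * Real.exp (-(γ ω * 1))) *
    (ENNReal.ofReal (ω 0 0) * ENNReal.ofReal (Real.exp (-(γ ω' * 1)))) with hc
  have hc0 : c ≠ 0 := by
    refine mul_ne_zero ?_ (mul_ne_zero ?_ ?_)
    · exact (ENNReal.ofReal_pos.2 (mul_pos (hp ω) (Real.exp_pos _))).ne'
    · exact (ENNReal.ofReal_pos.2 (hω.pos 0 0)).ne'
    · exact (ENNReal.ofReal_pos.2 (Real.exp_pos _)).ne'
  have hle : ∫⁻ _u in Set.Ioc (0 : ℝ) 1, c ≤ jumps γ 1 1 (A.indicator 1) ω := by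
    change _ ≤ ∫⁻ u in Set.Ioc (0 : ℝ) 1, ENNReal.ofReal (γ ω * Real.exp (-(γ ω * u))) *
      stepOp (jumps γ 0 (1 - u) (A.indicator 1)) ω
    refine setLIntegral_mono' measurableSet_Ioc fun u hu => ?_
    rw [hc]
    refine mul_le_mul' (ENNReal.ofReal_le_ofReal ?_) ?_
    · refine mul_le_mul_of_nonneg_left (Real.exp_le_exp.2 ?_) (hp ω).le
      have := mul_le_mul_of_nonneg_left hu.2 (hp ω).le
      linarith
    · unfold stepOp
      refine le_trans ?_ (single_le_sum (f := fun i => ENNReal.ofReal (ω 0 i) *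
        jumps γ 0 (1 - u) (A.indicator 1) (shift (dir i) ω)) (fun _ _ => zero_le) (mem_univ 0))
      refine mul_le_mul_right ?_ _
      change _ ≤ ENNReal.ofReal (Real.exp (-(γ ω' * (1 - u)))) * A.indicator 1 ω'
      rw [Set.indicator_of_mem hm, Pi.one_apply,
        mul_one (ENNReal.ofReal (Real.exp (-(γ ω' * (1 - u)))))]
      refine ENNReal.ofReal_le_ofReal (Real.exp_le_exp.2 ?_)
      have := mul_le_mul_of_nonneg_left (show 1 - u ≤ 1 by linarith [hu.1]) (hp ω').le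
      linarith
  rw [h1, setLIntegral_const] at hle
  simp only [Real.volume_Ioc, sub_zero, ENNReal.ofReal_one, mul_one, nonpos_iff_eq_zero] at hle
  exact hc0 hle

theorem UQA_le {α : Fin 4 → ℝ} (hα : ∀ i, 0 < α i) {k : Set Env → Env → ℝ≥0∞}
    (km : ∀ A, MeasurableSet A → Measurable (k A)) (k1 : ∀ A ω, Good ω → k A ω ≤ 1)
    (k0 : ∀ A ω, Good ω → k A ω = 0 → shift (dir 0) ω ∉ A) {Q₁ Q₂ : Measure Env}
    [IsProbabilityMeasure Q₁] (a1 : Q₁ ≪ law α)
    (i1 : ∀ A, MeasurableSet A → Q₁ A = ∫⁻ ω, k A ω ∂Q₁)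
    [IsProbabilityMeasure Q₂] (a2 : Q₂ ≪ law α)
    (i2 : ∀ A, MeasurableSet A → Q₂ A = ∫⁻ ω, k A ω ∂Q₂) : Q₁ ≤ Q₂ := by
  have hP := prob_law hα
  have hae : ∀ᵐ ω ∂law α, Good ω := ae_good hα
  have herg : Ergodic (shift (dir 0)) (law α) := erg_shift hα
  set P := law α with hPdef
  obtain ⟨f1, m1, e1⟩ : ∃ f : Env → ℝ≥0∞, Measurable f ∧ P.withDensity f = Q₁ :=
    ⟨_, Measure.measurable_rnDeriv _ _, Measure.withDensity_rnDeriv_eq _ _ a1⟩
  obtain ⟨f2, m2, e2⟩ : ∃ f : Env → ℝ≥0∞, Measurable f ∧ P.withDensity f = Q₂ :=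
    ⟨_, Measure.measurable_rnDeriv _ _, Measure.withDensity_rnDeriv_eq _ _ a2⟩
  have t1 : ∫⁻ ω, f1 ω ∂P = 1 := by
    rw [← setLIntegral_univ, ← withDensity_apply _ MeasurableSet.univ, e1, measure_univ]
  have t2 : ∫⁻ ω, f2 ω ∂P = 1 := by
    rw [← setLIntegral_univ, ← withDensity_apply _ MeasurableSet.univ, e2, measure_univ]
  set D : Set Env := {ω | f1 ω ≤ f2 ω} with hD
  have hDm : MeasurableSet D := measurableSet_le m1 m2
  have hk := km D hDm
  have mm : Measurable fun ω => min (f1 ω) (f2 ω) := m1.min m2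
  have mg : Measurable fun ω => f1 ω - f2 ω := m1.sub m2
  have mmk : Measurable fun ω => min (f1 ω) (f2 ω) * k D ω := mm.mul hk
  have mgk : Measurable fun ω => (f1 ω - f2 ω) * k D ω := mg.mul hk
  have d1 : ∀ ω, f1 ω = min (f1 ω) (f2 ω) + (f1 ω - f2 ω) := fun ω => by
    rcases le_total (f1 ω) (f2 ω) with h | h
    · rw [min_eq_left h, tsub_eq_zero_of_le h, add_zero]
    · rw [min_eq_right h, add_tsub_cancel_of_le h]
  have d2 : ∀ ω, f2 ω = min (f1 ω) (f2 ω) + (f2 ω - f1 ω) := fun ω => by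
    rcases le_total (f1 ω) (f2 ω) with h | h
    · rw [min_eq_left h, add_tsub_cancel_of_le h]
    · rw [min_eq_right h, tsub_eq_zero_of_le h, add_zero]
  have q1 : Q₁ D = ∫⁻ ω, min (f1 ω) (f2 ω) * k D ω ∂P +
      ∫⁻ ω, (f1 ω - f2 ω) * k D ω ∂P := by
    rw [i1 D hDm, ← lintegral_add_left mmk, ← e1,
      lintegral_withDensity_eq_lintegral_mul _ m1 hk]
    refine lintegral_congr fun ω => ?_
    rw [Pi.mul_apply, ← add_mul, ← d1]
  have q2 : Q₂ D = ∫⁻ ω, min (f1 ω) (f2 ω) * k D ω ∂P +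
      ∫⁻ ω, (f2 ω - f1 ω) * k D ω ∂P := by
    rw [i2 D hDm, ← lintegral_add_left mmk, ← e2,
      lintegral_withDensity_eq_lintegral_mul _ m2 hk]
    refine lintegral_congr fun ω => ?_
    rw [Pi.mul_apply, ← add_mul, ← d2]
  have q3 : Q₂ D = Q₁ D + ∫⁻ ω, f2 ω - f1 ω ∂P := by
    rw [← e1, ← e2, withDensity_apply _ hDm, withDensity_apply _ hDm,
      ← lintegral_indicator hDm, ← lintegral_indicator hDm,
      ← lintegral_add_left (m1.indicator hDm)]
    refine lintegral_congr fun ω => ?_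
    by_cases h : ω ∈ D
    · rw [Set.indicator_of_mem h, Set.indicator_of_mem h, add_tsub_cancel_of_le h]
    · rw [Set.indicator_of_notMem h, Set.indicator_of_notMem h, zero_add,
        tsub_eq_zero_of_le (not_le.1 h).le]
  have hfin : ∫⁻ ω, f2 ω - f1 ω ∂P ≠ ∞ := by
    refine ne_top_of_le_ne_top (by rw [t2]; exact ENNReal.one_ne_top)
      (lintegral_mono fun ω => tsub_le_self)
  have hle : ∫⁻ ω, (f2 ω - f1 ω) * k D ω ∂P ≤ ∫⁻ ω, f2 ω - f1 ω ∂P := by
    refine lintegral_mono_ae (hae.mono fun ω hω => ?_)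
    calc (f2 ω - f1 ω) * k D ω ≤ (f2 ω - f1 ω) * 1 := by
          gcongr; exact k1 D ω hω
      _ = _ := mul_one _
  have hM : Q₁ D ≤ ∫⁻ ω, min (f1 ω) (f2 ω) * k D ω ∂P := by
    have : Q₁ D + ∫⁻ ω, f2 ω - f1 ω ∂P ≤
        ∫⁻ ω, min (f1 ω) (f2 ω) * k D ω ∂P + ∫⁻ ω, f2 ω - f1 ω ∂P := by
      rw [← q3, q2]; gcongr
    exact ENNReal.le_of_add_le_add_right hfin this
  have hMfin : ∫⁻ ω, min (f1 ω) (f2 ω) * k D ω ∂P ≠ ∞ :=
    ne_top_of_le_ne_top (measure_ne_top Q₁ D) (by rw [q1]; exact le_self_add)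
  have hz : ∫⁻ ω, (f1 ω - f2 ω) * k D ω ∂P = 0 := by
    rw [q1] at hM
    have : ∫⁻ ω, min (f1 ω) (f2 ω) * k D ω ∂P + ∫⁻ ω, (f1 ω - f2 ω) * k D ω ∂P ≤
        ∫⁻ ω, min (f1 ω) (f2 ω) * k D ω ∂P + 0 := by rwa [add_zero]
    exact le_antisymm (ENNReal.le_of_add_le_add_left hMfin this) zero_le
  rw [lintegral_eq_zero_iff mgk] at hz
  have hsub : Dᶜ ≤ᵐ[P] shift (dir 0) ⁻¹' Dᶜ := by
    filter_upwards [hz, hae] with ω h0 hω hc
    have hlt : f2 ω < f1 ω := not_le.1 hc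
    have hne : f1 ω - f2 ω ≠ 0 := (tsub_pos_of_lt hlt).ne'
    have hk0 : k D ω = 0 := (mul_eq_zero.1 h0).resolve_left hne
    exact k0 D ω hω hk0
  rcases herg.ae_empty_or_univ_of_ae_le_preimage hDm.compl.nullMeasurableSet hsub with h | h
  · have hle' : f1 ≤ᵐ[P] f2 := by
      filter_upwards [h] with ω hω
      by_contra hc
      have : Dᶜ ω := hc
      rw [hω] at this
      exact this
    rw [← e1, ← e2]
    exact withDensity_mono hle'
  · exfalso
    have hlt : ∀ᵐ ω ∂P, f2 ω < f1 ω := by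
      filter_upwards [h] with ω hω
      have : Dᶜ ω := by rw [hω]; exact Set.mem_univ ω
      exact not_le.1 this
    have := lintegral_strict_mono (NeZero.ne P) m1.aemeasurable
      (by rw [t2]; exact ENNReal.one_ne_top) hlt
    rw [t1, t2] at this
    exact lt_irrefl _ this

theorem pf_UQA (h1 : StJ1) (hL : StJL) (hN : StJN) : StUQA := by
  intro α hα γ hγ hp Q₁ Q₂ p1 a1 i1 p2 a2 i2
  have km : ∀ A : Set Env, MeasurableSet A →
      Measurable (accSemigroup γ 1 (A.indicator 1)) := fun A hA =>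
    UQA_meas h1 hγ (measurable_one.indicator hA)
  have k1 : ∀ (A : Set Env) ω, Good ω → accSemigroup γ 1 (A.indicator 1) ω ≤ 1 :=
    fun A ω hω => UQA_le_one hL hN hγ hp A hω
  have k0 : ∀ (A : Set Env) ω, Good ω → accSemigroup γ 1 (A.indicator 1) ω = 0 →
      shift (dir 0) ω ∉ A := fun A ω hω h => UQA_notMem hp hω h
  exact le_antisymm
    (UQA_le (k := fun A => accSemigroup γ 1 (A.indicator 1)) hα km k1 k0 a1
      (i1 1 zero_le_one) a2 (i2 1 zero_le_one))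
    (UQA_le (k := fun A => accSemigroup γ 1 (A.indicator 1)) hα km k1 k0 a2
      (i2 1 zero_le_one) a1 (i1 1 zero_le_one))

end DRW
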