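import Pool.Agent.P.MP_de05b4_pr.Basic2

/-! Balance of the killed flux against an invariant measure, and the vanishing of the killed
flux when the walk is not positive recurrent. -/

namespace DRW

open MeasureTheory ProbabilityTheory Finset Filter
open scoped ENNReal Topology

theorem N3_inv (ω : Env) {π : ℤ × ℤ → ℝ≥0∞}
    (h : ∀ y, π y = ∑ i, π (y - dir i) * ENNReal.ofReal (ω (y - dir i) i))
    (F : ℤ × ℤ → ℝ≥0∞) : ∑' x, π x * pOp ω F x = ∑' y, π y * F y := by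
  have e1 : ∀ x, π x * pOp ω F x =
      ∑ i, π x * ENNReal.ofReal (ω x i) * F (x + dir i) := fun x => by
    simp only [pOp, mul_sum, mul_assoc]
  have e2 : ∀ y, π y * F y =
      ∑ i, π (y - dir i) * ENNReal.ofReal (ω (y - dir i) i) * F y := fun y => by
    rw [← sum_mul, ← h y]
  simp only [e1, e2]
  rw [Summable.tsum_finsetSum fun _ _ => ENNReal.summable,
    Summable.tsum_finsetSum fun _ _ => ENNReal.summable]
  refine sum_congr rfl fun i _ => ?_
  rw [← (Equiv.addRight (dir i)).tsum_eq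
    fun b => π (b - dir i) * ENNReal.ofReal (ω (b - dir i) i) * F b]
  simp only [Equiv.coe_addRight, add_sub_cancel_right]

theorem N3_lk {ω : Env} {l : ℝ≥0∞} (hl : l ≤ 1) (x : ℤ × ℤ) : l * kk ω x ≤ 1 :=
  mul_le_one' hl (kk_le_one ω x)

theorem N3_mono (ω : Env) (l : ℝ≥0∞) (c : ℤ × ℤ → ℝ≥0∞) : Monotone (Mit ω l c) := by
  refine monotone_nat_of_le_succ fun n => ?_
  induction n with
  | zero => intro x; simp [Mit]
  | succ n ih =>
    intro x
    show c x + (1 - l * kk ω x) * pOp ω (Mit ω l c n) x ≤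
      c x + (1 - l * kk ω x) * pOp ω (Mit ω l c (n + 1)) x
    exact add_le_add le_rfl (mul_le_mul_right (pOp_mono ω fun i => ih _) _)

theorem N3_step (ω : Env) {l : ℝ≥0∞} (hl : l ≤ 1) (c : ℤ × ℤ → ℝ≥0∞) (n : ℕ) (x : ℤ × ℤ) :
    Mit ω l c (n + 1) x + l * kk ω x * pOp ω (Mit ω l c n) x =
      c x + pOp ω (Mit ω l c n) x := by
  show c x + (1 - l * kk ω x) * pOp ω (Mit ω l c n) x + _ = _
  rw [add_assoc, ← add_mul, tsub_add_cancel_of_le (N3_lk hl x), one_mul]

theorem pf_N3 : StN3 := by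
  intro ω _ l _ hl π c h
  rcases eq_or_ne (∑' x, π x * c x) ⊤ with hc | hc
  · rw [hc]; exact le_top
  have key : ∀ n, (∑' x, π x * Mit ω l c (n + 1) x) +
      ∑' x, π x * (l * kk ω x * pOp ω (Mit ω l c n) x) =
      (∑' x, π x * c x) + ∑' x, π x * Mit ω l c n x := fun n => by
    rw [← N3_inv ω h (Mit ω l c n), ← ENNReal.tsum_add, ← ENNReal.tsum_add]
    exact tsum_congr fun x => by rw [← mul_add, ← mul_add, N3_step ω hl]
  have fin : ∀ n, ∑' x, π x * Mit ω l c n x ≠ ⊤ := by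
    intro n
    induction n with
    | zero => simp [Mit]
    | succ n ih =>
      refine ne_top_of_le_ne_top (ENNReal.add_ne_top.2 ⟨hc, ih⟩) ?_
      rw [← key n]; exact le_self_add
  have hX : ∀ n, ∑' x, π x * (l * kk ω x * pOp ω (Mit ω l c n) x) ≤ ∑' x, π x * c x := by
    intro n
    refine ENNReal.le_of_add_le_add_left (fin n) ?_
    rw [add_comm _ (∑' x, π x * c x), ← key n]
    exact add_le_add (ENNReal.tsum_le_tsum fun x =>
      mul_le_mul_right (N3_mono ω l c (Nat.le_succ n) x) _) le_rfl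
  have e : ∀ x, π x * (l * kk ω x * pOp ω (MM ω l c) x) =
      ⨆ n, π x * (l * kk ω x * pOp ω (Mit ω l c n) x) := fun x => by
    rw [← ENNReal.mul_iSup, ← ENNReal.mul_iSup, ← pOp_iSup ω (N3_mono ω l c)]
    rfl
  simp only [e]
  rw [ENNReal.tsum_eq_iSup_sum]
  refine iSup_le fun s => ?_
  rw [ENNReal.finsetSum_iSup_of_monotone
    (f := fun x n => π x * (l * kk ω x * pOp ω (Mit ω l c n) x))
    fun x a b hab => mul_le_mul_right (mul_le_mul_right
      (pOp_mono ω fun i => N3_mono ω l c hab _) _) _]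
  exact iSup_le fun n => (ENNReal.sum_le_tsum s).trans (hX n)

/-- the indicator of one site -/
noncomputable def N3_one (v y : ℤ × ℤ) : ℝ≥0∞ := if y = v then 1 else 0

theorem N3_one_le (v y : ℤ × ℤ) : N3_one v y ≤ 1 := by
  unfold N3_one; split_ifs <;> simp

theorem N3_cK_le {ω : Env} (hω : Good ω) (y : ℤ × ℤ) : cK ω y ≤ ∑ v ∈ NK, N3_one v y := by
  by_cases hy : y ∈ NK
  · have e : ∑ v ∈ NK, N3_one v y = 1 := by
      simp only [N3_one]
      rw [sum_ite_eq, if_pos hy]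
    rw [e]
    unfold cK
    split_ifs
    · simp
    · rw [← hω.sum_ofReal y]
      exact sum_le_sum fun i _ => by split_ifs <;> simp
  · have : cK ω y = 0 := by
      unfold cK
      split_ifs with hK
      · rfl
      · refine sum_eq_zero fun i _ => if_neg fun hi => ?_
        obtain ⟨a, b⟩ := y
        simp only [KK, NK, mem_insert, mem_singleton, Prod.mk.injEq] at hK hy
        fin_cases i <;>
          simp only [KK, dir, mem_insert, mem_singleton, Prod.mk.injEq, Prod.mk_add_mk,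
            Fin.zero_eta, Fin.mk_one, Fin.reduceFinMk, Matrix.cons_val] at hi <;> omega
    rw [this]; simp

theorem N3_MM_le (hM : StNM) {ω : Env} (hω : Good ω) {l : ℝ≥0∞} (h0 : 0 < l) (h1 : l ≤ 1)
    (y : ℤ × ℤ) : MM ω l (cK ω) y ≤ ∑ v ∈ NK, MM ω l (N3_one v) y := by
  obtain ⟨m1, m2, -⟩ := hM ω hω l h0 h1
  refine m2 (cK ω) (fun y => ∑ v ∈ NK, MM ω l (N3_one v) y) (fun x => ?_) y
  have e : pOp ω (fun y => ∑ v ∈ NK, MM ω l (N3_one v) y) x =
      ∑ v ∈ NK, pOp ω (MM ω l (N3_one v)) x := by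
    simp only [pOp, mul_sum]
    exact sum_comm
  rw [e, mul_sum, sum_congr rfl fun v _ => m1 (N3_one v) x, sum_add_distrib]
  exact add_le_add (N3_cK_le hω x) le_rfl

theorem N3_max (hM : StNM) {ω : Env} (hω : Good ω) {l : ℝ≥0∞} (h0 : 0 < l) (h1 : l ≤ 1)
    (v y : ℤ × ℤ) : MM ω l (N3_one v) y ≤ MM ω l (N3_one v) v := by
  obtain ⟨m1, m2, -⟩ := hM ω hω l h0 h1
  refine (m2 (N3_one v) (fun y => min (MM ω l (N3_one v) y) (MM ω l (N3_one v) v))
    (fun x => ?_) y).trans (min_le_right _ _)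
  have a : N3_one v x + (1 - l * kk ω x) *
      pOp ω (fun y => min (MM ω l (N3_one v) y) (MM ω l (N3_one v) v)) x ≤
      MM ω l (N3_one v) x := by
    rw [m1 (N3_one v) x]
    exact add_le_add le_rfl (mul_le_mul_right (pOp_mono ω fun i => min_le_left _ _) _)
  refine le_min a ?_
  by_cases hx : x = v
  · subst hx; exact a
  · rw [N3_one, if_neg hx, zero_add]
    exact (mul_le_of_le_one_left' tsub_le_self).trans (pOp_le hω fun i => min_le_right _ _)

theorem N3_fin (hM : StNM) {ω : Env} (hω : Good ω) {l : ℝ≥0∞} (h0 : 0 < l) (h1 : l ≤ 1)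
    {v : ℤ × ℤ} (hv : kk ω v = 1) (y : ℤ × ℤ) : MM ω l (N3_one v) y ≠ ⊤ := by
  obtain ⟨-, -, m3, -⟩ := hM ω hω l h0 h1
  refine ne_top_of_le_ne_top (ENNReal.inv_ne_top.2 h0.ne') (m3 _ (fun x => ?_) y)
  unfold N3_one
  split_ifs with hx
  · rw [hx, hv]
  · simp

/-- the comparison of the values at two sites, uniformly in the killing rate -/
def N3_P (ω : Env) (v x : ℤ × ℤ) : Prop := ∃ C : ℝ≥0∞, C ≠ ⊤ ∧ ∀ l : ℝ≥0∞, 0 < l → l ≤ 1 →
  MM ω l (N3_one v) v ≤ MM ω l (N3_one v) x + C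

theorem N3_P_step (hM : StNM) {ω : Env} (hω : Good ω) {v : ℤ × ℤ} (hv : kk ω v = 1)
    {x : ℤ × ℤ} (h : N3_P ω v x) (i : Fin 4) : N3_P ω v (x + dir i) := by
  obtain ⟨C, hC, h⟩ := h
  have w0 : ENNReal.ofReal (ω x i) ≠ 0 := (ENNReal.ofReal_pos.2 (hω.pos x i)).ne'
  refine ⟨(ENNReal.ofReal (ω x i))⁻¹ * (1 + C), ENNReal.mul_ne_top (ENNReal.inv_ne_top.2 w0)
    (ENNReal.add_ne_top.2 ⟨ENNReal.one_ne_top, hC⟩), fun l h0 h1 => ?_⟩
  obtain ⟨m1, -⟩ := hM ω hω l h0 h1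
  set V := MM ω l (N3_one v) with hV
  set r : ℝ≥0∞ := ∑ j ∈ univ.erase i, ENNReal.ofReal (ω x j) with hr
  have hs : ENNReal.ofReal (ω x i) + r = 1 := by
    rw [hr, add_sum_erase univ (fun j => ENNReal.ofReal (ω x j)) (mem_univ i), hω.sum_ofReal]
  have rt : r ≠ ⊤ := ne_top_of_le_ne_top ENNReal.one_ne_top (hs ▸ le_add_self)
  have a1 : pOp ω V x ≤ ENNReal.ofReal (ω x i) * V (x + dir i) + r * V v := by
    unfold pOp
    rw [← add_sum_erase univ _ (mem_univ i), hr, sum_mul]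
    exact add_le_add le_rfl (sum_le_sum fun j _ =>
      mul_le_mul_right (N3_max hM hω h0 h1 v _) _)
  have a2 : V x ≤ 1 + pOp ω V x := by
    rw [hV, m1 (N3_one v) x]
    exact add_le_add (N3_one_le v x) (mul_le_of_le_one_left' tsub_le_self)
  have a3 : ENNReal.ofReal (ω x i) * V v + r * V v ≤
      (ENNReal.ofReal (ω x i) * V (x + dir i) + (1 + C)) + r * V v := by
    rw [← add_mul, hs, one_mul]
    calc V v ≤ V x + C := h l h0 h1
      _ ≤ 1 + (ENNReal.ofReal (ω x i) * V (x + dir i) + r * V v) + C :=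
        add_le_add (a2.trans (add_le_add le_rfl a1)) le_rfl
      _ = _ := by ring
  have a4 := ENNReal.le_of_add_le_add_right
    (ENNReal.mul_ne_top rt (N3_fin hM hω h0 h1 hv v)) a3
  refine (ENNReal.mul_le_mul_iff_right w0 ENNReal.ofReal_ne_top).1 ?_
  rw [mul_add, ← mul_assoc, ENNReal.mul_inv_cancel w0 ENNReal.ofReal_ne_top, one_mul]
  exact a4

theorem N3_P_all (hM : StNM) {ω : Env} (hω : Good ω) {v : ℤ × ℤ} (hv : kk ω v = 1)
    (x : ℤ × ℤ) : N3_P ω v x := by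
  have s0 : N3_P ω v v := ⟨0, ENNReal.zero_ne_top, fun l _ _ => le_self_add⟩
  have s1 : ∀ a : ℤ, N3_P ω v (v + (a, 0)) := by
    intro a
    induction a using Int.induction_on with
    | zero => rw [show v + ((0 : ℤ), (0 : ℤ)) = v from add_zero v]; exact s0
    | succ a ih =>
      have := N3_P_step hM hω hv ih 0
      rwa [show v + ((a : ℤ), (0 : ℤ)) + dir 0 = v + ((a : ℤ) + 1, 0) by
        simp [dir, add_assoc]] at this
    | pred a ih =>
      have := N3_P_step hM hω hv ih 2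
      rwa [show v + (-(a : ℤ), (0 : ℤ)) + dir 2 = v + (-(a : ℤ) - 1, 0) by
        simp [dir, add_assoc, sub_eq_add_neg]] at this
  have s2 : ∀ a b : ℤ, N3_P ω v (v + (a, b)) := by
    intro a b
    induction b using Int.induction_on with
    | zero => exact s1 a
    | succ b ih =>
      have := N3_P_step hM hω hv ih 1
      rwa [show v + (a, (b : ℤ)) + dir 1 = v + (a, (b : ℤ) + 1) by
        simp [dir, add_assoc]] at this
    | pred b ih =>
      have := N3_P_step hM hω hv ih 3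
      rwa [show v + (a, -(b : ℤ)) + dir 3 = v + (a, -(b : ℤ) - 1) by
        simp [dir, add_assoc, sub_eq_add_neg]] at this
  have := s2 (x - v).1 (x - v).2
  rwa [Prod.mk.eta, add_sub_cancel] at this

theorem N3_small (hM : StNM) (h3 : StN3) {ω : Env} (hω : Good ω) {v : ℤ × ℤ} (hv : kk ω v = 1)
    {π : ℤ × ℤ → ℝ≥0∞} (hπ : ∀ x, π x ≠ ⊤)
    (h : ∀ y, π y = ∑ i, π (y - dir i) * ENNReal.ofReal (ω (y - dir i) i))
    (ht : ∑' x, π x * kk ω x = ⊤) {η : ℝ≥0∞} (hη : 0 < η) :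
    ∃ C : ℝ≥0∞, C ≠ ⊤ ∧ ∀ l : ℝ≥0∞, 0 < l → l ≤ 1 → l * MM ω l (N3_one v) v ≤ η + l * C := by
  rcases eq_or_ne η ⊤ with rfl | hη'
  · exact ⟨0, ENNReal.zero_ne_top, fun l _ _ => by simp⟩
  choose C hC hP using N3_P_all hM hω hv
  have hB : η⁻¹ * π v < ∑' x, π x * kk ω x := by
    rw [ht]; exact (ENNReal.mul_ne_top (ENNReal.inv_ne_top.2 hη.ne') (hπ v)).lt_top
  rw [ENNReal.tsum_eq_iSup_sum] at hB
  obtain ⟨F, hF⟩ := lt_iSup_iff.1 hB
  set A := ∑ x ∈ F, π x * kk ω x with hA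
  have A0 : A ≠ 0 := (lt_of_le_of_lt (by simp) hF).ne'
  have At : A ≠ ⊤ := ENNReal.sum_ne_top.2 fun x _ =>
    ENNReal.mul_ne_top (hπ x) (ne_top_of_le_ne_top ENNReal.one_ne_top (kk_le_one ω x))
  have hpv : π v ≤ η * A := by
    calc π v = η * (η⁻¹ * π v) := by
          rw [← mul_assoc, ENNReal.mul_inv_cancel hη.ne' hη', one_mul]
      _ ≤ η * A := mul_le_mul_right hF.le _
  set D := ∑ x ∈ F, ∑ i, C (x + dir i) with hD
  refine ⟨D, ENNReal.sum_ne_top.2 fun x _ => ENNReal.sum_ne_top.2 fun i _ => hC _,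
    fun l h0 h1 => ?_⟩
  set V := MM ω l (N3_one v) with hV
  have b1 : ∀ x ∈ F, V v ≤ pOp ω V x + D := fun x hx => by
    rw [← pOp_const hω (V v) x, ← pOp_const hω D x, ← pOp_add]
    refine pOp_mono ω fun i => (hP (x + dir i) l h0 h1).trans (add_le_add le_rfl ?_)
    exact (single_le_sum (f := fun i => C (x + dir i)) (fun _ _ => by simp) (mem_univ i)).trans
      (single_le_sum (f := fun x => ∑ i, C (x + dir i)) (fun _ _ => by simp) hx)
  have b2 : ∑' x, π x * N3_one v x = π v := by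
    rw [tsum_eq_single v fun y hy => by simp [N3_one, hy]]
    simp [N3_one]
  have b3 := h3 ω hω l h0 h1 π (N3_one v) h
  rw [b2] at b3
  refine (ENNReal.mul_le_mul_iff_left A0 At).1 ?_
  calc l * V v * A = ∑ x ∈ F, π x * (l * kk ω x * V v) := by
        rw [hA, mul_sum]; exact sum_congr rfl fun x _ => by ring
    _ ≤ ∑ x ∈ F, π x * (l * kk ω x * (pOp ω V x + D)) :=
        sum_le_sum fun x hx => mul_le_mul_right (mul_le_mul_right (b1 x hx) _) _
    _ = (∑ x ∈ F, π x * (l * kk ω x * pOp ω V x)) + l * D * A := by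
        rw [hA, mul_sum, ← sum_add_distrib]; exact sum_congr rfl fun x _ => by ring
    _ ≤ η * A + l * D * A := add_le_add (((ENNReal.sum_le_tsum F).trans b3).trans hpv) le_rfl
    _ = (η + l * D) * A := by ring

theorem N3_rate : Tendsto (fun n : ℕ => ((n : ℝ≥0∞) + 1)⁻¹) atTop (𝓝 0) := by
  have := ENNReal.tendsto_inv_nat_nhds_zero.comp (tendsto_add_atTop_nat 1)
  refine this.congr fun n => ?_
  simp

theorem pf_N4 (hM : StNM) (h3 : StN3) : StN4 := by
  intro ω hω hS π hπ h ht x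
  have l0 : ∀ n : ℕ, 0 < ((n : ℝ≥0∞) + 1)⁻¹ := fun n => ENNReal.inv_pos.2 (by simp)
  have l1 : ∀ n : ℕ, ((n : ℝ≥0∞) + 1)⁻¹ ≤ 1 := fun n => ENNReal.inv_le_one.2 le_add_self
  have one : ∀ v ∈ NK, Tendsto (fun n : ℕ => ((n : ℝ≥0∞) + 1)⁻¹ *
      MM ω ((n : ℝ≥0∞) + 1)⁻¹ (N3_one v) v) atTop (𝓝 0) := fun v hv => by
    have kv : kk ω v = 1 := if_pos (hS.2.2 v hv)
    refine ENNReal.tendsto_nhds_zero.2 fun ε hε => ?_
    have h2 : 0 < ε / 2 := ENNReal.half_pos hε.ne'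
    obtain ⟨C, hC, hb⟩ := N3_small hM h3 hω kv hπ h ht h2
    have t := ENNReal.Tendsto.mul_const N3_rate (b := C) (Or.inr hC)
    rw [zero_mul] at t
    filter_upwards [ENNReal.tendsto_nhds_zero.1 t _ h2] with n hn
    calc _ ≤ ε / 2 + ((n : ℝ≥0∞) + 1)⁻¹ * C := hb _ (l0 n) (l1 n)
      _ ≤ ε / 2 + ε / 2 := add_le_add le_rfl hn
      _ = ε := ENNReal.add_halves ε
  have all := tendsto_finsetSum NK one
  rw [sum_const_zero] at all
  refine tendsto_of_tendsto_of_tendsto_of_le_of_le tendsto_const_nhds all (fun n => by simp)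
    fun n => ?_
  show LL ω _ x ≤ ∑ v ∈ NK, _
  rw [← mul_sum, LL]
  refine mul_le_mul' (mul_le_of_le_one_right' (kk_le_one ω x)) (pOp_le hω fun i => ?_)
  exact (N3_MM_le hM hω (l0 n) (l1 n) _).trans
    (sum_le_sum fun v _ => N3_max hM hω (l0 n) (l1 n) v _)

end DRW
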