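import Pool.Agent.P.MP_de05b4_pr.Basic2

/-! The exit functional is measurable and local, and almost surely it is at most `b < 1` for
some box. -/

namespace DRW

open MeasureTheory ProbabilityTheory Finset Filter
open scoped ENNReal Topology

theorem NE2_nm_add (x : ℤ × ℤ) (i : Fin 4) (k : ℕ) :
    nm (x + (k : ℤ) • dir i) ≤ nm x + k := by
  have h1 : |x.1| ≤ nm x := le_max_left _ _
  have h2 : |x.2| ≤ nm x := le_max_right _ _
  have hk : (0 : ℤ) ≤ k := Int.natCast_nonneg k
  rw [abs_le] at h1 h2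
  refine max_le (abs_le.2 ?_) (abs_le.2 ?_) <;> fin_cases i <;> simp [dir] <;> omega

theorem NE2_nm_step (x : ℤ × ℤ) (i : Fin 4) : nm (x + dir i) ≤ nm x + 1 := by
  simpa using NE2_nm_add x i 1

theorem NE2_meas_abar (R : ℕ) (x : ℤ × ℤ) : Measurable (abar R x) :=
  (measurable_const.div (measurable_const.add
    (Finset.measurable_prod _ fun _ _ => measurable_coord _ _))).ennreal_ofReal

theorem NE2_meas_exit (R : ℕ) (ρ : ℤ) :
    ∀ (n : ℕ) (x : ℤ × ℤ), Measurable fun ω : Env => exitIt ρ ω (fun y => abar R y ω) n x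
  | 0, x => by
    simp only [exitIt]
    split_ifs
    · exact measurable_const
    · exact NE2_meas_abar R x
  | n + 1, x => by
    simp only [exitIt]
    split_ifs
    · exact Finset.measurable_sum _ fun i _ =>
        (measurable_coord x i).ennreal_ofReal.mul (NE2_meas_exit R ρ n _)
    · exact NE2_meas_abar R x

theorem NE2_abar_congr {R : ℕ} {ρ : ℤ} {ω ω' : Env} (h : ∀ x, nm x < ρ + R → ω x = ω' x)
    {x : ℤ × ℤ} (hx : nm x ≤ ρ) : abar R x ω = abar R x ω' := by
  unfold abar
  congr 3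
  refine prod_congr rfl fun k hk => ?_
  have hk' : (k : ℤ) < R := by exact_mod_cast mem_range.1 hk
  have := NE2_nm_add x (odir x) k
  rw [h _ (by omega)]

theorem NE2_exit_congr {R : ℕ} {ρ : ℤ} {ω ω' : Env} (h : ∀ x, nm x < ρ + R → ω x = ω' x) :
    ∀ (n : ℕ) (x : ℤ × ℤ), nm x ≤ ρ →
      exitIt ρ ω (fun y => abar R y ω) n x = exitIt ρ ω' (fun y => abar R y ω') n x
  | 0, x, hx => by
    simp only [exitIt]
    rw [NE2_abar_congr h hx]
  | n + 1, x, hx => by
    simp only [exitIt]
    split_ifs with hlt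
    · refine sum_congr rfl fun i _ => ?_
      have hR : (0 : ℤ) ≤ R := Int.natCast_nonneg R
      have := NE2_nm_step x i
      rw [h x (by omega), NE2_exit_congr h n _ (by omega)]
    · exact NE2_abar_congr h hx

theorem pf_NE2b : StNE2b := by
  intro R ρ hρ
  refine ⟨Measurable.iSup fun n => NE2_meas_exit R ρ n 0, fun ω ω' h => ?_⟩
  exact iSup_congr fun n => NE2_exit_congr (fun x hx => h x hx) n 0 (by simpa [nm] using hρ)

/-- the environments whose first `J` boxes all have a large exit functional -/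
def NE2_B (R : ℕ) (b : ℝ≥0∞) (J : ℕ) : Set Env :=
  {ω | ∀ j < J, b < Wex R ((j : ℤ) * (R + 1)) ω}

theorem NE2_rho_nonneg (R j : ℕ) : (0 : ℤ) ≤ (j : ℤ) * (R + 1) := by positivity

theorem NE2_B_meas (hb : StNE2b) (R : ℕ) (b : ℝ≥0∞) (J : ℕ) : MeasurableSet (NE2_B R b J) := by
  have : NE2_B R b J = ⋂ j, ⋂ (_ : j < J), {ω | b < Wex R ((j : ℤ) * (R + 1)) ω} := by
    ext ω; simp [NE2_B]
  rw [this]
  exact MeasurableSet.iInter fun j => MeasurableSet.iInter fun _ =>
    measurableSet_lt measurable_const (hb R _ (NE2_rho_nonneg R j)).1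

theorem NE2_B_dep (hb : StNE2b) (R : ℕ) (b : ℝ≥0∞) (J : ℕ) :
    DependsOn ((NE2_B R b J).indicator (1 : Env → ℝ≥0∞)) {x | nm x < (J : ℤ) * (R + 1)} := by
  intro ω ω' h
  have e : ∀ j < J, Wex R ((j : ℤ) * (R + 1)) ω = Wex R ((j : ℤ) * (R + 1)) ω' := by
    intro j hj
    refine (hb R _ (NE2_rho_nonneg R j)).2 fun x hx => h x ?_
    have hj' : (j : ℤ) + 1 ≤ J := by exact_mod_cast hj
    have hR : (0 : ℤ) ≤ (R : ℤ) + 1 := by positivity
    have := mul_le_mul_of_nonneg_right hj' hR
    simp only [Set.mem_ofPred_eq] at hx ⊢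
    nlinarith
  have : ω ∈ NE2_B R b J ↔ ω' ∈ NE2_B R b J :=
    forall_congr' fun j => forall_congr' fun hj => by rw [e j hj]
  by_cases hω : ω ∈ NE2_B R b J
  · simp [hω, this.1 hω]
  · simp [hω, mt this.2 hω]

theorem pf_NE2 (ha : StNE2a) (hb : StNE2b) : StNE2 := by
  intro α hα R
  obtain ⟨m, hm, H⟩ := ha α hα R
  obtain ⟨b, hmb, hb1⟩ := exists_between hm
  have hb0 : b ≠ 0 := (pos_of_gt hmb).ne'
  have hbt : b ≠ ⊤ := (hb1.trans ENNReal.one_lt_top).ne
  have := prob_dirichlet hα
  have hP : IsProbabilityMeasure (law α) := by unfold law; infer_instance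
  have step : ∀ J, b * law α (NE2_B R b (J + 1)) ≤ m * law α (NE2_B R b J) := by
    intro J
    have h1 := H _ (NE2_rho_nonneg R J) _ (measurable_one.indicator (NE2_B_meas hb R b J))
      (NE2_B_dep hb R b J)
    rw [lintegral_indicator_one (NE2_B_meas hb R b J)] at h1
    refine le_trans ?_ h1
    rw [← lintegral_indicator_const (NE2_B_meas hb R b (J + 1))]
    refine lintegral_mono fun ω => ?_
    by_cases hω : ω ∈ NE2_B R b (J + 1)
    · have h2 : ω ∈ NE2_B R b J := fun j hj => hω j (Nat.lt_succ_of_lt hj)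
      simp only [Set.indicator_of_mem hω, Set.indicator_of_mem h2, Pi.one_apply, one_mul]
      exact (hω J (Nat.lt_succ_self J)).le
    · simp [Set.indicator_of_notMem hω]
  have bound : ∀ J, law α (NE2_B R b J) ≤ (m / b) ^ J := by
    intro J
    induction J with
    | zero => simpa using prob_le_one
    | succ J ih =>
      have h1 : law α (NE2_B R b (J + 1)) ≤ m * law α (NE2_B R b J) / b := by
        rw [ENNReal.le_div_iff_mul_le (Or.inl hb0) (Or.inl hbt), mul_comm]
        exact step J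
      calc law α (NE2_B R b (J + 1)) ≤ m * law α (NE2_B R b J) / b := h1
        _ ≤ m * (m / b) ^ J / b := by gcongr
        _ = (m / b) ^ (J + 1) := by
          rw [pow_succ, div_eq_mul_inv, div_eq_mul_inv]; ring
  have hq : m / b < 1 := by
    rw [ENNReal.div_lt_iff (Or.inl hb0) (Or.inl hbt), one_mul]; exact hmb
  refine ⟨b, hb1, ?_⟩
  rw [ae_iff]
  refine le_antisymm ?_ zero_le
  refine ge_of_tendsto' (ENNReal.tendsto_pow_atTop_nhds_zero_of_lt_one hq) fun J => ?_
  refine le_trans (measure_mono ?_) (bound J)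
  intro ω hω j _
  by_contra hc
  exact hω ⟨_, NE2_rho_nonneg R j, not_lt.1 hc⟩

end DRW
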